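import Mathlib

/-!
# Project RMT (MP_a499ba_nt), step 2: the approximation of zeta on the line `Re s = 1`
-/

set_option autoImplicit false

namespace Pool.Agent.Helper66.RMT

open MeasureTheory Filter Finset Topology

/-- one step -/
private lemma step_bd {s : ℂ} (hs1 : s ≠ 1) (h0 : 0 < s.re) {m : ℕ} (hm : 1 ≤ m) :
    ‖((m + 1 : ℕ) : ℂ) ^ (-s) - (((m : ℂ) ^ (1 - s) - ((m + 1 : ℕ) : ℂ) ^ (1 - s)) / (s - 1))‖ ≤
      ‖s‖ * (1 / s.re) * ((m : ℝ) ^ (-s.re) - ((m + 1 : ℕ) : ℝ) ^ (-s.re)) := by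
  have hm0 : (0 : ℝ) < m := by exact_mod_cast hm
  have hmm : (m : ℝ) ≤ ((m + 1 : ℕ) : ℝ) := by push_cast; linarith
  have h1s : 1 - s ≠ 0 := by
    intro h
    exact hs1 (by linear_combination -h)
  have hs0 : -s ≠ 0 := by
    intro h
    have : s = 0 := by linear_combination -h
    rw [this] at h0
    simp at h0
  have hsub : s - 1 ≠ 0 := sub_ne_zero.2 hs1
  have hcont : ∀ r : ℂ, ∀ {x : ℝ}, 0 < x → ContinuousAt (fun x : ℝ => (x : ℂ) ^ r) x := by
    intro r x hx0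
    exact Complex.continuousAt_ofReal_cpow_const x r (Or.inr hx0.ne')
  -- the integral
  have hI : ∫ x in (m : ℝ)..((m + 1 : ℕ) : ℝ), (x : ℂ) ^ (-s) =
      ((m : ℂ) ^ (1 - s) - ((m + 1 : ℕ) : ℂ) ^ (1 - s)) / (s - 1) := by
    rw [integral_cpow]
    · have e1 : -s + 1 = 1 - s := by ring
      rw [e1]
      push_cast
      rw [div_eq_div_iff h1s hsub]
      ring
    · right
      refine ⟨?_, ?_⟩
      · intro h
        apply hs1
        linear_combination -h
      · rw [Set.uIcc_of_le hmm]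
        intro h
        linarith [h.1]
  -- pointwise bound
  have hpt : ∀ x ∈ Set.Icc (m : ℝ) ((m + 1 : ℕ) : ℝ), ‖((m + 1 : ℕ) : ℂ) ^ (-s) - (x : ℂ) ^ (-s)‖ ≤
      ‖s‖ * (1 / s.re) * ((m : ℝ) ^ (-s.re) - ((m + 1 : ℕ) : ℝ) ^ (-s.re)) := by
    intro x hx
    have hx0 : 0 < x := lt_of_lt_of_le hm0 hx.1
    have hder : ∀ y ∈ Set.uIcc x ((m + 1 : ℕ) : ℝ), HasDerivAt (fun y : ℝ => (y : ℂ) ^ (-s)) (-s * (y : ℂ) ^ (-s - 1)) y := by
      intro y hy
      rw [Set.uIcc_of_le hx.2] at hy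
      have hy0 : 0 < y := lt_of_lt_of_le hx0 hy.1
      exact hasDerivAt_ofReal_cpow_const hy0.ne' hs0
    have hci : ContinuousOn (fun y : ℝ => -s * (y : ℂ) ^ (-s - 1)) (Set.uIcc x ((m + 1 : ℕ) : ℝ)) := by
      intro y hy
      rw [Set.uIcc_of_le hx.2] at hy
      have hy0 : 0 < y := lt_of_lt_of_le hx0 hy.1
      exact ((hcont _ hy0).const_mul _).continuousWithinAt
    have h1 := intervalIntegral.integral_eq_sub_of_hasDerivAt hder hci.intervalIntegrable
    have h2 : ‖((m + 1 : ℕ) : ℂ) ^ (-s) - (x : ℂ) ^ (-s)‖ ≤ ∫ y in x..((m + 1 : ℕ) : ℝ), ‖s‖ * y ^ (-s.re - 1) := by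
      have e2 : ((m + 1 : ℕ) : ℂ) ^ (-s) - (x : ℂ) ^ (-s) = ∫ y in x..((m + 1 : ℕ) : ℝ), -s * (y : ℂ) ^ (-s - 1) := by
        rw [h1]
        push_cast
        ring
      rw [e2]
      refine (intervalIntegral.norm_integral_le_integral_norm hx.2).trans (le_of_eq ?_)
      apply intervalIntegral.integral_congr
      intro y hy
      rw [Set.uIcc_of_le hx.2] at hy
      have hy0 : 0 < y := lt_of_lt_of_le hx0 hy.1
      simp only [norm_mul, norm_neg]
      rw [Complex.norm_cpow_eq_rpow_re_of_pos hy0]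
      simp
    refine h2.trans ?_
    rw [intervalIntegral.integral_const_mul, integral_rpow]
    · have e3 : -s.re - 1 + 1 = -s.re := by ring
      rw [e3, mul_assoc]
      apply mul_le_mul_of_nonneg_left _ (norm_nonneg _)
      have h3 : x ^ (-s.re) ≤ (m : ℝ) ^ (-s.re) :=
        Real.rpow_le_rpow_of_nonpos hm0 hx.1 (by linarith)
      have h4 : (((m + 1 : ℕ) : ℝ) ^ (-s.re) - x ^ (-s.re)) / -s.re =
          1 / s.re * (x ^ (-s.re) - ((m + 1 : ℕ) : ℝ) ^ (-s.re)) := by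
        field_simp
        ring
      rw [h4]
      apply mul_le_mul_of_nonneg_left _ (by positivity)
      linarith
    · right
      refine ⟨by linarith, ?_⟩
      rw [Set.uIcc_of_le hx.2]
      intro h
      linarith [h.1]
  rw [← hI]
  have hint : IntervalIntegrable (fun x : ℝ => (x : ℂ) ^ (-s)) volume (m : ℝ) ((m + 1 : ℕ) : ℝ) := by
    apply ContinuousOn.intervalIntegrable
    intro x hx
    rw [Set.uIcc_of_le hmm] at hx
    exact (hcont _ (lt_of_lt_of_le hm0 hx.1)).continuousWithinAt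
  have hc : ((m + 1 : ℕ) : ℂ) ^ (-s) = ∫ x in (m : ℝ)..((m + 1 : ℕ) : ℝ), ((m + 1 : ℕ) : ℂ) ^ (-s) := by
    rw [intervalIntegral.integral_const]
    push_cast
    simp
  conv_lhs => rw [hc]
  rw [← intervalIntegral.integral_sub (by simp) hint]
  refine (intervalIntegral.norm_integral_le_of_norm_le_const (C := ‖s‖ * (1 / s.re) *
    ((m : ℝ) ^ (-s.re) - ((m + 1 : ℕ) : ℝ) ^ (-s.re))) ?_).trans ?_
  · intro x hx
    rw [Set.uIoc_of_le hmm] at hx
    exact hpt x ⟨hx.1.le, hx.2⟩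
  · have : |((m + 1 : ℕ) : ℝ) - m| = 1 := by
      push_cast
      simp
    rw [this, mul_one]

/-- finite sums -/
private lemma fin_bd {s : ℂ} (hs1 : s ≠ 1) (h0 : 0 < s.re) {M : ℕ} (hM : 1 ≤ M) (K : ℕ) :
    ‖∑ m ∈ Ico M (M + K), ((m + 1 : ℕ) : ℂ) ^ (-s) -
      (((M : ℂ) ^ (1 - s) - ((M + K : ℕ) : ℂ) ^ (1 - s)) / (s - 1))‖ ≤
      ‖s‖ * (1 / s.re) * ((M : ℝ) ^ (-s.re) - ((M + K : ℕ) : ℝ) ^ (-s.re)) := by
  induction K with
  | zero => simp
  | succ K ih =>
    have h1 := step_bd hs1 h0 (m := M + K) (by omega)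
    rw [← add_assoc, Finset.sum_Ico_succ_top (by omega)]
    have e : ∑ m ∈ Ico M (M + K), ((m + 1 : ℕ) : ℂ) ^ (-s) + ((M + K + 1 : ℕ) : ℂ) ^ (-s) -
        (((M : ℂ) ^ (1 - s) - ((M + K + 1 : ℕ) : ℂ) ^ (1 - s)) / (s - 1)) =
        (∑ m ∈ Ico M (M + K), ((m + 1 : ℕ) : ℂ) ^ (-s) -
          (((M : ℂ) ^ (1 - s) - ((M + K : ℕ) : ℂ) ^ (1 - s)) / (s - 1))) +
        (((M + K + 1 : ℕ) : ℂ) ^ (-s) -
          ((((M + K : ℕ) : ℂ) ^ (1 - s) - ((M + K + 1 : ℕ) : ℂ) ^ (1 - s)) / (s - 1))) := by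
      ring
    rw [e]
    refine (norm_add_le _ _).trans ((add_le_add ih h1).trans (le_of_eq ?_))
    ring

/-- right of the line -/
private lemma right_bd {s : ℂ} (h1 : 1 < s.re) {M : ℕ} (hM : 1 ≤ M) :
    ‖riemannZeta s - ∑ m ∈ Finset.Icc 1 M, (m : ℂ) ^ (-s) - (M : ℂ) ^ (1 - s) / (s - 1)‖ ≤
      ‖s‖ * (1 / s.re) * (M : ℝ) ^ (-s.re) := by
  have hs1 : s ≠ 1 := by
    intro h
    rw [h] at h1
    simp at h1
  have hz := zeta_eq_tsum_one_div_nat_add_one_cpow h1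
  have hsum : Summable (fun n : ℕ => 1 / ((n : ℂ) + 1) ^ s) := by
    have := (Complex.summable_one_div_nat_cpow (p := s)).2 h1
    have h2 := (summable_nat_add_iff 1).2 this
    simpa using h2
  have hlim := hsum.hasSum.tendsto_sum_nat
  rw [← hz] at hlim
  have hlim2 : Tendsto (fun K : ℕ => ∑ n ∈ range (M + K), 1 / ((n : ℂ) + 1) ^ s) atTop (𝓝 (riemannZeta s)) := by
    have := hlim.comp (tendsto_add_atTop_nat M)
    refine this.congr fun K => ?_
    simp only [Function.comp]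
    rw [add_comm]
  have hM2 : ∑ n ∈ range M, 1 / ((n : ℂ) + 1) ^ s = ∑ m ∈ Finset.Icc 1 M, (m : ℂ) ^ (-s) := by
    rw [Finset.range_eq_Ico, Finset.sum_Ico_eq_sum_range]
    rw [show Finset.Icc 1 M = Finset.Ico 1 (M + 1) from rfl, Finset.sum_Ico_eq_sum_range]
    simp only [Nat.sub_zero, Nat.add_sub_cancel]
    refine Finset.sum_congr rfl fun n _ => ?_
    rw [Complex.cpow_neg, one_div]
    push_cast
    congr 2
    ring
  have hzero : Tendsto (fun K : ℕ => ((M + K : ℕ) : ℂ) ^ (1 - s)) atTop (𝓝 0) := by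
    rw [tendsto_zero_iff_norm_tendsto_zero]
    have h3 : ∀ K : ℕ, ‖((M + K : ℕ) : ℂ) ^ (1 - s)‖ = ((M + K : ℕ) : ℝ) ^ (-(s.re - 1)) := by
      intro K
      have hpos : (0 : ℝ) < ((M + K : ℕ) : ℝ) := by
        have : 0 < M + K := by omega
        exact_mod_cast this
      have := Complex.norm_cpow_eq_rpow_re_of_pos hpos (1 - s)
      rw [show (((M + K : ℕ) : ℝ) : ℂ) = ((M + K : ℕ) : ℂ) by push_cast; ring] at this
      rw [this]
      congr 1
      simp
    simp only [h3]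
    have h4 := tendsto_rpow_neg_atTop (y := s.re - 1) (by linarith)
    have h5 : Tendsto (fun K : ℕ => ((M + K : ℕ) : ℝ)) atTop atTop := by
      have h6 : Tendsto (fun K : ℕ => M + K) atTop atTop := by
        have := tendsto_add_atTop_nat M
        refine this.congr fun K => by ring
      exact tendsto_natCast_atTop_atTop.comp h6
    exact h4.comp h5
  have hT : Tendsto (fun K : ℕ => ‖∑ m ∈ Ico M (M + K), ((m + 1 : ℕ) : ℂ) ^ (-s) -
      (((M : ℂ) ^ (1 - s) - ((M + K : ℕ) : ℂ) ^ (1 - s)) / (s - 1))‖) atTop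
      (𝓝 ‖riemannZeta s - ∑ m ∈ Finset.Icc 1 M, (m : ℂ) ^ (-s) - (M : ℂ) ^ (1 - s) / (s - 1)‖) := by
    apply Tendsto.norm
    have h6 : Tendsto (fun K : ℕ => (∑ n ∈ range (M + K), 1 / ((n : ℂ) + 1) ^ s) -
        (∑ m ∈ Finset.Icc 1 M, (m : ℂ) ^ (-s)) -
        (((M : ℂ) ^ (1 - s) - ((M + K : ℕ) : ℂ) ^ (1 - s)) / (s - 1))) atTop
        (𝓝 (riemannZeta s - ∑ m ∈ Finset.Icc 1 M, (m : ℂ) ^ (-s) - ((M : ℂ) ^ (1 - s) - 0) / (s - 1))) :=
      (hlim2.sub tendsto_const_nhds).sub ((tendsto_const_nhds.sub hzero).div_const _)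
    rw [sub_zero] at h6
    refine h6.congr fun K => ?_
    congr 1
    rw [← hM2, Finset.range_eq_Ico, Finset.range_eq_Ico, ← Finset.sum_Ico_consecutive _ (Nat.zero_le M) (Nat.le_add_right M K)]
    rw [add_sub_cancel_left]
    refine Finset.sum_congr rfl fun n _ => ?_
    rw [Complex.cpow_neg, one_div]
    push_cast
    rfl
  refine le_of_tendsto hT (Filter.Eventually.of_forall fun K => ?_)
  refine (fin_bd hs1 (by linarith) hM K).trans ?_
  apply mul_le_mul_of_nonneg_left _ (by positivity)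
  have : (0 : ℝ) ≤ ((M + K : ℕ) : ℝ) ^ (-s.re) := by positivity
  linarith

/-- the approximation of zeta on the line `Re s = 1` -/
theorem zeta_app {s : ℂ} (h1 : s.re = 1) (hs : s ≠ 1) {M : ℕ} (hM : 1 ≤ M) :
    ‖riemannZeta s - ∑ m ∈ Finset.Icc 1 M, (m : ℂ) ^ (-s) - (M : ℂ) ^ (1 - s) / (s - 1)‖ ≤ ‖s‖ / M := by
  have hM0 : (0 : ℝ) < M := by exact_mod_cast hM
  let w : ℕ → ℂ := fun k => s + ((1 / ((k : ℝ) + 1) : ℝ) : ℂ)
  have hw : Tendsto w atTop (𝓝 s) := by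
    have h2 : Tendsto (fun k : ℕ => ((1 / ((k : ℝ) + 1) : ℝ) : ℂ)) atTop (𝓝 ((0 : ℝ) : ℂ)) :=
      (Complex.continuous_ofReal.tendsto 0).comp tendsto_one_div_add_atTop_nhds_zero_nat
    have h3 := (tendsto_const_nhds (x := s)).add h2
    rw [Complex.ofReal_zero, add_zero] at h3
    exact h3
  have hwre : ∀ k, (w k).re = 1 + 1 / ((k : ℝ) + 1) := by
    intro k
    simp only [w]
    rw [Complex.add_re, Complex.ofReal_re, h1]
  have hMc : (M : ℂ) ≠ 0 := by exact_mod_cast hM0.ne'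
  have hcz : ContinuousAt riemannZeta s := (differentiableAt_riemannZeta hs).continuousAt
  have hcF : ContinuousAt (fun z : ℂ => ‖riemannZeta z - ∑ m ∈ Finset.Icc 1 M, (m : ℂ) ^ (-z) -
      (M : ℂ) ^ (1 - z) / (z - 1)‖) s := by
    apply ContinuousAt.norm
    refine (hcz.sub ?_).sub ?_
    · refine tendsto_finsetSum _ fun m hm => ?_
      have hm0 : (m : ℂ) ≠ 0 := by
        have := (Finset.mem_Icc.1 hm).1
        exact_mod_cast (by omega : m ≠ 0)
      have : ContinuousAt (fun z : ℂ => (m : ℂ) ^ (-z)) s :=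
        (continuousAt_const_cpow hm0).comp continuousAt_neg
      exact this
    · refine ContinuousAt.div ?_ (continuousAt_id.sub continuousAt_const) (sub_ne_zero.2 hs)
      exact (continuousAt_const_cpow hMc).comp (continuousAt_const.sub continuousAt_id)
  have hL := hcF.tendsto.comp hw
  have hR : Tendsto (fun k => ‖w k‖ * (1 / (w k).re) * (M : ℝ) ^ (-(w k).re)) atTop (𝓝 (‖s‖ * (1 / 1) * (M : ℝ) ^ (-(1 : ℝ)))) := by
    have hre : Tendsto (fun k => (w k).re) atTop (𝓝 1) := by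
      have := (Complex.continuous_re.tendsto s).comp hw
      rw [h1] at this
      exact this
    refine (hw.norm.mul (tendsto_const_nhds.div hre one_ne_zero)).mul ?_
    have hcp : Continuous fun x : ℝ => (M : ℝ) ^ (-x) := Real.continuous_const_rpow hM0.ne' |>.comp continuous_neg
    exact (hcp.tendsto 1).comp hre
  have hfin := le_of_tendsto_of_tendsto hL hR (Filter.Eventually.of_forall fun k => by
    simp only [Function.comp]
    apply right_bd _ hM
    rw [hwre]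
    have : (0 : ℝ) < 1 / ((k : ℝ) + 1) := by positivity
    linarith)
  refine hfin.trans (le_of_eq ?_)
  rw [Real.rpow_neg_one]
  ring

end Pool.Agent.Helper66.RMT
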