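import Pool.Agent.Helper96.RMT.DriftZ

/-!
# Project RMT (MP_a499ba_nt), step 2: the weight `ζ(1 + 2it) / (1/2 + it)` is admissible
-/

set_option autoImplicit false

namespace Pool.Agent.Helper66.RMT

open MeasureTheory Filter Finset Topology Pool.Agent.Helper95.KS

lemma int_expM (v a b : ℝ) :
    IntervalIntegrable (fun t : ℝ => Complex.exp ((v * t : ℝ) * Complex.I) * bM t) volume a b := by
  have h1 := bM_cont
  have h2 : Continuous fun t : ℝ => Complex.exp ((v * t : ℝ) * Complex.I) := by fun_prop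
  exact (h2.mul h1).intervalIntegrable _ _

lemma int_expZ (u : ℝ) {a b : ℝ} (ha : 0 < a) (hab : a ≤ b) :
    IntervalIntegrable (fun t : ℝ => Complex.exp ((u * t : ℝ) * Complex.I) * bZ t) volume a b := by
  apply ContinuousOn.intervalIntegrable
  intro t ht
  rw [Set.uIcc_of_le hab] at ht
  have ht0 : t ≠ 0 := (lt_of_lt_of_le ha ht.1).ne'
  have h2 : Continuous fun t : ℝ => Complex.exp ((u * t : ℝ) * Complex.I) := by fun_prop
  exact (h2.continuousAt.mul (bZ_cont ht0)).continuousWithinAt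

/-- one block -/
lemma blockZ (u : ℝ) {a b : ℝ} (ha : 1 ≤ a) (hab : a ≤ b) (hb : b ≤ 2 * a) {M : ℕ} (hM : 1 ≤ M)
    (haM : a ^ 2 ≤ M) :
    |(∫ t in a..b, Complex.exp ((u * t : ℝ) * Complex.I) * bZ t).re| ≤
      6 / a + ∑ m ∈ Finset.Icc 1 M, (1 / (m : ℝ)) * (1 / a + 2 * mn1 (a * |u - 2 * Real.log m|)) := by
  have ha0 : 0 < a := by linarith
  have hM0 : (0 : ℝ) < M := by exact_mod_cast hM
  -- the main part
  let g : ℝ → ℂ := fun t => ∑ m ∈ Finset.Icc 1 M,
    (((1 / (m : ℝ) : ℝ) : ℂ) * (Complex.exp (((u - 2 * Real.log m) * t : ℝ) * Complex.I) * bM t))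
  have hgi : IntervalIntegrable g volume a b := by
    have : g = ∑ m ∈ Finset.Icc 1 M, fun t : ℝ =>
        (((1 / (m : ℝ) : ℝ) : ℂ) * (Complex.exp (((u - 2 * Real.log m) * t : ℝ) * Complex.I) * bM t)) := by
      funext t
      simp only [g, Finset.sum_apply]
    rw [this]
    exact IntervalIntegrable.sum _ fun m _ => (int_expM (u - 2 * Real.log m) a b).const_mul _
  have hfi := int_expZ u ha0 hab
  have hdiff : ∀ t ∈ Set.uIoc a b, ‖Complex.exp ((u * t : ℝ) * Complex.I) * bZ t - g t‖ ≤ 6 / a ^ 2 := by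
    intro t ht
    rw [Set.uIoc_of_le hab] at ht
    have hta : a < t := ht.1
    have ht0 : 0 < t := ha0.trans hta
    have e1 : Complex.exp ((u * t : ℝ) * Complex.I) * bZ t - g t =
        Complex.exp ((u * t : ℝ) * Complex.I) * bM t *
          (riemannZeta (1 + 2 * t * Complex.I) - ∑ m ∈ Finset.Icc 1 M, (m : ℂ) ^ (-(1 + 2 * t * Complex.I : ℂ))) := by
      rw [bZ_eq, mul_sub, Finset.mul_sum]
      congr 1
      · ring
      · refine Finset.sum_congr rfl fun m hm => ?_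
        rw [cpow_line (Finset.mem_Icc.1 hm).1]
        have e2 : Complex.exp (((u - 2 * Real.log m) * t : ℝ) * Complex.I) =
            Complex.exp ((u * t : ℝ) * Complex.I) * Complex.exp ((-(2 * Real.log m) * t : ℝ) * Complex.I) := by
          rw [← Complex.exp_add]
          congr 1
          push_cast
          ring
        rw [e2]
        ring
    rw [e1, norm_mul, norm_mul, Complex.norm_exp_ofReal_mul_I, one_mul]
    have h1 := zeta_sum hM ht0
    have h2 := bM_le ht0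
    have h3 : (1 + 2 * t) / M + 1 / (2 * t) ≤ 6 / a := by
      have h4 : (1 + 2 * t) / M ≤ 5 / a := by
        rw [div_le_div_iff₀ hM0 ha0]
        have h5 : t ≤ 2 * a := ht.2.trans hb
        nlinarith
      have h6 : 1 / (2 * t) ≤ 1 / a := by
        apply one_div_le_one_div_of_le ha0
        linarith
      have h7 : 6 / a = 5 / a + 1 / a := by ring
      linarith
    have h8 : 1 / t ≤ 1 / a := one_div_le_one_div_of_le ha0 hta.le
    calc ‖bM t‖ * ‖riemannZeta (1 + 2 * t * Complex.I) - ∑ m ∈ Finset.Icc 1 M, (m : ℂ) ^ (-(1 + 2 * t * Complex.I : ℂ))‖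
        ≤ (1 / a) * (6 / a) := mul_le_mul (h2.trans h8) (h1.trans h3) (norm_nonneg _) (by positivity)
      _ = 6 / a ^ 2 := by ring
  have h1 : ‖∫ t in a..b, (Complex.exp ((u * t : ℝ) * Complex.I) * bZ t - g t)‖ ≤ 6 / a := by
    have h2 := intervalIntegral.norm_integral_le_of_norm_le_const hdiff
    rw [abs_of_nonneg (by linarith : (0 : ℝ) ≤ b - a)] at h2
    refine h2.trans ?_
    have h3 : 6 / a ^ 2 * (b - a) ≤ 6 / a ^ 2 * a := mul_le_mul_of_nonneg_left (by linarith) (by positivity)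
    have h4 : 6 / a ^ 2 * a = 6 / a := by field_simp
    linarith
  rw [intervalIntegral.integral_sub hfi hgi] at h1
  have h2 : ∫ t in a..b, g t = ∑ m ∈ Finset.Icc 1 M, (((1 / (m : ℝ) : ℝ) : ℂ) *
      ∫ t in a..b, Complex.exp (((u - 2 * Real.log m) * t : ℝ) * Complex.I) * bM t) := by
    simp only [g]
    rw [intervalIntegral.integral_finsetSum (f := fun (m : ℕ) (t : ℝ) => (((1 / (m : ℝ) : ℝ) : ℂ) *
      (Complex.exp (((u - 2 * Real.log m) * t : ℝ) * Complex.I) * bM t)))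
      fun m _ => (int_expM (u - 2 * Real.log m) a b).const_mul _]
    refine Finset.sum_congr rfl fun m _ => ?_
    rw [intervalIntegral.integral_const_mul]
  have h3 : |(∫ t in a..b, g t).re| ≤
      ∑ m ∈ Finset.Icc 1 M, (1 / (m : ℝ)) * (1 / a + 2 * mn1 (a * |u - 2 * Real.log m|)) := by
    rw [h2, Complex.re_sum]
    refine (Finset.abs_sum_le_sum_abs _ _).trans (Finset.sum_le_sum fun m _ => ?_)
    rw [Complex.re_ofReal_mul, abs_mul, abs_of_nonneg (by positivity : (0 : ℝ) ≤ 1 / (m : ℝ))]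
    exact mul_le_mul_of_nonneg_left (J_min _ ha0 hab hb) (by positivity)
  have h4 : |((∫ t in a..b, Complex.exp ((u * t : ℝ) * Complex.I) * bZ t) - ∫ t in a..b, g t).re| ≤ 6 / a :=
    (Complex.abs_re_le_norm _).trans h1
  rw [Complex.sub_re] at h4
  have h5 := abs_add_le ((∫ t in a..b, Complex.exp ((u * t : ℝ) * Complex.I) * bZ t).re - (∫ t in a..b, g t).re)
    (∫ t in a..b, g t).re
  rw [sub_add_cancel] at h5
  linarith

/-- the lengths -/
def Mj (j : ℕ) : ℕ := 4 ^ (j + 5)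

lemma Mj_pos (j : ℕ) : 1 ≤ Mj j := Nat.one_le_pow _ _ (by norm_num)

/-- the bound for block `j` -/
noncomputable def be (u : ℝ) (j : ℕ) : ℝ :=
  6 / aj j + ∑ m ∈ Finset.Icc 1 (Mj j), (1 / (m : ℝ)) * (1 / aj j + 2 * mn1 (aj j * |u - 2 * Real.log m|))

lemma be_nonneg (u : ℝ) (j : ℕ) : 0 ≤ be u j := by
  unfold be
  have h1 := aj_pos j
  refine add_nonneg (by positivity) (Finset.sum_nonneg fun m _ => ?_)
  have := mn1_nonneg (x := aj j * |u - 2 * Real.log m|) (by positivity)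
  positivity

lemma aj_sq_le (j : ℕ) : aj j ^ 2 ≤ (Mj j : ℝ) := by
  unfold aj Mj
  have h1 : (6 * Real.pi * 2 ^ j) ^ 2 = 36 * Real.pi ^ 2 * 4 ^ j := by
    rw [mul_pow, mul_pow, ← pow_mul, mul_comm j 2, pow_mul]
    norm_num
  rw [h1]
  push_cast
  rw [pow_add]
  have h2 := Real.pi_lt_d2
  have h3 := Real.pi_pos
  have h4 : Real.pi ^ 2 ≤ 3.15 ^ 2 := pow_le_pow_left₀ h3.le h2.le 2
  have h5 : (0 : ℝ) < 4 ^ j := by positivity
  nlinarith

lemma aj_one (j : ℕ) : 1 ≤ aj j := by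
  have h1 := aj_ge j
  have h2 : (1 : ℝ) ≤ 2 ^ j := one_le_pow₀ (by norm_num)
  linarith

lemma block_be (u : ℝ) (j : ℕ) {a b : ℝ} (ha : a = aj j) (hab : a ≤ b) (hb : b ≤ 2 * a) :
    |(∫ t in a..b, Complex.exp ((u * t : ℝ) * Complex.I) * bZ t).re| ≤ be u j := by
  subst ha
  exact blockZ u (aj_one j) hab hb (Mj_pos j) (aj_sq_le j)

lemma log_four : Real.log 4 ≤ 1.4 := by
  have h1 : Real.log 4 = 2 * Real.log 2 := by
    rw [show (4 : ℝ) = 2 ^ 2 by norm_num, Real.log_pow]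
    norm_num
  have h2 := Real.log_two_lt_d9
  rw [h1]
  linarith

lemma harm (j : ℕ) : ∑ m ∈ Finset.Icc 1 (Mj j), 1 / (m : ℝ) ≤ 1 + 1.4 * (j + 5) := by
  have h1 := harmonic_le_one_add_log (Mj j)
  have h2 : ((harmonic (Mj j) : ℚ) : ℝ) = ∑ m ∈ Finset.Icc 1 (Mj j), 1 / (m : ℝ) := by
    rw [harmonic_eq_sum_Icc]
    push_cast
    simp only [one_div]
  rw [h2] at h1
  unfold Mj at h1 ⊢
  push_cast at h1
  rw [Real.log_pow] at h1
  push_cast at h1
  have h3 := log_four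
  have h4 : (0 : ℝ) ≤ (j : ℝ) + 5 := by positivity
  nlinarith

lemma be_split (u : ℝ) (j : ℕ) : be u j ≤ ((j : ℝ) + 2) / 2 ^ j +
    2 * ∑ m ∈ (Finset.Icc 1 (Mj j)).filter (fun m : ℕ => |u - 2 * Real.log m| ≤ 1),
      (1 / (m : ℝ)) * mn1 (aj j * |u - 2 * Real.log m|) := by
  have ha := aj_pos j
  have h1 : ∑ m ∈ Finset.Icc 1 (Mj j), (1 / (m : ℝ)) * (1 / aj j + 2 * mn1 (aj j * |u - 2 * Real.log m|)) ≤
      ∑ m ∈ Finset.Icc 1 (Mj j), ((1 / (m : ℝ)) * (3 / aj j) +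
        (if |u - 2 * Real.log m| ≤ 1 then 2 * ((1 / (m : ℝ)) * mn1 (aj j * |u - 2 * Real.log m|)) else 0)) := by
    refine Finset.sum_le_sum fun m _ => ?_
    have hm : (0 : ℝ) ≤ 1 / (m : ℝ) := by positivity
    split_ifs with h
    · have h2 : 1 / aj j ≤ 3 / aj j := div_le_div_of_nonneg_right (by norm_num) ha.le
      nlinarith
    · push Not at h
      have h2 : mn1 (aj j * |u - 2 * Real.log m|) ≤ 1 / aj j := by
        unfold mn1
        refine (min_le_right _ _).trans ?_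
        apply one_div_le_one_div_of_le ha
        nlinarith
      rw [add_zero]
      apply mul_le_mul_of_nonneg_left _ hm
      have : 3 / aj j = 1 / aj j + 2 * (1 / aj j) := by ring
      linarith
  rw [Finset.sum_add_distrib, ← Finset.sum_mul, ← Finset.sum_filter, ← Finset.mul_sum] at h1
  have h3 := harm j
  have h4 : (∑ m ∈ Finset.Icc 1 (Mj j), 1 / (m : ℝ)) * (3 / aj j) ≤ (1 + 1.4 * (j + 5)) * (3 / aj j) :=
    mul_le_mul_of_nonneg_right h3 (by positivity)
  have h5 : 6 / aj j + (1 + 1.4 * ((j : ℝ) + 5)) * (3 / aj j) ≤ ((j : ℝ) + 2) / 2 ^ j := by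
    have h6 : 6 / aj j + (1 + 1.4 * ((j : ℝ) + 5)) * (3 / aj j) = (6 + 3 * (1 + 1.4 * ((j : ℝ) + 5))) / aj j := by ring
    rw [h6, div_le_div_iff₀ ha (by positivity)]
    have h7 := aj_ge j
    have h8 : (0 : ℝ) < 2 ^ j := by positivity
    have h9 : (0 : ℝ) ≤ j := by positivity
    have h10 : ((j : ℝ) + 2) * (18 * 2 ^ j) ≤ ((j : ℝ) + 2) * aj j := mul_le_mul_of_nonneg_left h7 (by positivity)
    nlinarith
  unfold be
  linarith

lemma geo (J : ℕ) : ∑ j ∈ range J, ((j : ℝ) + 2) / 2 ^ j ≤ 6 := by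
  have h1 : ∀ J : ℕ, ∑ j ∈ range J, ((j : ℝ) + 2) / 2 ^ j = 6 - 2 * ((J : ℝ) + 3) / 2 ^ J := by
    intro J
    induction J with
    | zero => norm_num
    | succ J ih =>
      rw [Finset.sum_range_succ, ih, pow_succ]
      push_cast
      field_simp
      ring
  rw [h1]
  have : 0 ≤ 2 * ((J : ℝ) + 3) / 2 ^ J := by positivity
  linarith

/-- the bounds are summable, uniformly -/
theorem sum_be (u : ℝ) (J : ℕ) : ∑ j ∈ range J, be u j ≤ 54 := by
  have h1 : ∑ j ∈ range J, be u j ≤ ∑ j ∈ range J, (((j : ℝ) + 2) / 2 ^ j +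
      2 * ∑ m ∈ (Finset.Icc 1 (Mj J)).filter (fun m : ℕ => |u - 2 * Real.log m| ≤ 1),
        (1 / (m : ℝ)) * mn1 (aj j * |u - 2 * Real.log m|)) := by
    refine Finset.sum_le_sum fun j hj => (be_split u j).trans ?_
    have hjJ : Mj j ≤ Mj J := Nat.pow_le_pow_right (by norm_num) (by have := Finset.mem_range.1 hj; omega)
    have h2 : ∑ m ∈ (Finset.Icc 1 (Mj j)).filter (fun m : ℕ => |u - 2 * Real.log m| ≤ 1),
        (1 / (m : ℝ)) * mn1 (aj j * |u - 2 * Real.log m|) ≤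
        ∑ m ∈ (Finset.Icc 1 (Mj J)).filter (fun m : ℕ => |u - 2 * Real.log m| ≤ 1),
        (1 / (m : ℝ)) * mn1 (aj j * |u - 2 * Real.log m|) := by
      refine Finset.sum_le_sum_of_subset_of_nonneg
        (Finset.filter_subset_filter _ (Finset.Icc_subset_Icc le_rfl hjJ)) fun m _ _ => ?_
      have := mn1_nonneg (x := aj j * |u - 2 * Real.log m|) (mul_nonneg (aj_pos j).le (abs_nonneg _))
      positivity
    linarith
  rw [Finset.sum_add_distrib, ← Finset.mul_sum, Finset.sum_comm] at h1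
  have h2 : ∑ m ∈ (Finset.Icc 1 (Mj J)).filter (fun m : ℕ => |u - 2 * Real.log m| ≤ 1),
      ∑ j ∈ range J, (1 / (m : ℝ)) * mn1 (aj j * |u - 2 * Real.log m|) ≤
      ∑ m ∈ (Finset.Icc 1 (Mj J)).filter (fun m : ℕ => |u - 2 * Real.log m| ≤ 1), (1 / (m : ℝ)) * 6 := by
    refine Finset.sum_le_sum fun m _ => ?_
    rw [← Finset.mul_sum]
    exact mul_le_mul_of_nonneg_left (sum_mn1 (abs_nonneg _) J) (by positivity)
  rw [← Finset.sum_mul] at h2
  have h3 := window u (Mj J)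
  have h4 := geo J
  linarith

lemma summable_be (u : ℝ) : Summable (be u) :=
  summable_of_sum_range_le (be_nonneg u) (sum_be u)

/-- the primitive -/
noncomputable def RZ (u T : ℝ) : ℝ :=
  (∫ t in (6 * Real.pi)..T, Complex.exp ((u * t : ℝ) * Complex.I) * bZ t).re

lemma aj_zero : aj 0 = 6 * Real.pi := by
  unfold aj
  ring

lemma aj_mono : Monotone aj := by
  refine monotone_nat_of_le_succ fun j => ?_
  rw [aj_succ]
  linarith [aj_pos j]

lemma RZ_step (u : ℝ) (j : ℕ) {T : ℝ} (h1 : aj j ≤ T) (h2 : T ≤ 2 * aj j) : |RZ u T - RZ u (aj j)| ≤ be u j := by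
  have h0 : 6 * Real.pi ≤ aj j := by
    rw [← aj_zero]
    exact aj_mono (Nat.zero_le j)
  have hp : (0 : ℝ) < 6 * Real.pi := by positivity
  have h3 := intervalIntegral.integral_add_adjacent_intervals (int_expZ u hp h0) (int_expZ u (aj_pos j) h1)
  have h4 : RZ u T - RZ u (aj j) = (∫ t in (aj j)..T, Complex.exp ((u * t : ℝ) * Complex.I) * bZ t).re := by
    unfold RZ
    rw [← h3, Complex.add_re]
    ring
  rw [h4]
  exact block_be u j rfl h1 h2

lemma RZ_zero (u : ℝ) : RZ u (aj 0) = 0 := by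
  unfold RZ
  rw [aj_zero, intervalIntegral.integral_same, Complex.zero_re]

lemma RZ_aj (u : ℝ) (J : ℕ) : |RZ u (aj J)| ≤ ∑ j ∈ range J, be u j := by
  induction J with
  | zero => rw [RZ_zero]; simp
  | succ J ih =>
    rw [Finset.sum_range_succ]
    have h1 := RZ_step u J (T := aj (J + 1)) (by rw [aj_succ]; linarith [aj_pos J]) (by rw [aj_succ])
    have h2 := abs_add_le (RZ u (aj (J + 1)) - RZ u (aj J)) (RZ u (aj J))
    rw [sub_add_cancel] at h2
    linarith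

lemma exists_scale {T : ℝ} (hT : 6 * Real.pi ≤ T) : ∃ j, aj j ≤ T ∧ T < aj (j + 1) := by
  have htend : Tendsto aj atTop atTop := by
    refine tendsto_atTop_mono (fun j => (aj_ge j)) ?_
    exact (tendsto_pow_atTop_atTop_of_one_lt (by norm_num : (1 : ℝ) < 2)).const_mul_atTop (by norm_num)
  obtain ⟨J, hJ⟩ := (htend.eventually_gt_atTop T).exists
  have hex : ∃ j, T < aj j := ⟨J, hJ⟩
  classical
  have hf := Nat.find_spec hex
  have hne : Nat.find hex ≠ 0 := by
    intro h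
    rw [h, aj_zero] at hf
    linarith
  obtain ⟨j, hj⟩ := Nat.exists_eq_succ_of_ne_zero hne
  refine ⟨j, ?_, ?_⟩
  · by_contra hcon
    push Not at hcon
    have := Nat.find_min' hex hcon
    omega
  · rw [hj] at hf
    exact hf

theorem RZ_bound (u : ℝ) {T : ℝ} (hT : 6 * Real.pi ≤ T) : |RZ u T| ≤ 54 := by
  obtain ⟨j, h1, h2⟩ := exists_scale hT
  rw [aj_succ] at h2
  have h3 := RZ_step u j h1 h2.le
  have h4 := RZ_aj u j
  have h5 := sum_be u (j + 1)
  rw [Finset.sum_range_succ] at h5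
  have h6 := abs_add_le (RZ u T - RZ u (aj j)) (RZ u (aj j))
  rw [sub_add_cancel] at h6
  linarith

theorem RZ_conv (u : ℝ) : ∃ z : ℝ, Tendsto (RZ u) atTop (𝓝 z) := by
  have hs := summable_be u
  have hd : Summable fun j => dist (RZ u (aj j)) (RZ u (aj (j + 1))) := by
    refine Summable.of_nonneg_of_le (fun j => dist_nonneg) (fun j => ?_) hs
    rw [dist_comm, Real.dist_eq]
    exact RZ_step u j (by rw [aj_succ]; linarith [aj_pos j]) (by rw [aj_succ])
  obtain ⟨z, hz⟩ := cauchySeq_tendsto_of_complete (cauchySeq_of_summable_dist hd)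
  refine ⟨z, ?_⟩
  rw [Metric.tendsto_atTop]
  intro ε hε
  have h0 := hs.tendsto_atTop_zero
  rw [Metric.tendsto_atTop] at hz h0
  obtain ⟨j1, hj1⟩ := hz (ε / 2) (by positivity)
  obtain ⟨j2, hj2⟩ := h0 (ε / 2) (by positivity)
  refine ⟨aj (max j1 j2), fun T hT => ?_⟩
  have hT0 : 6 * Real.pi ≤ T := by
    rw [← aj_zero]
    exact (aj_mono (Nat.zero_le _)).trans hT
  obtain ⟨j, h1, h2⟩ := exists_scale hT0
  have hj : max j1 j2 ≤ j := by
    by_contra hcon
    push Not at hcon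
    have := aj_mono (show j + 1 ≤ max j1 j2 by omega)
    linarith
  have h3 := hj1 j (le_trans (le_max_left _ _) hj)
  have h4 := hj2 j (le_trans (le_max_right _ _) hj)
  rw [aj_succ] at h2
  have h5 := RZ_step u j h1 h2.le
  rw [Real.dist_eq, sub_zero, abs_of_nonneg (be_nonneg u j)] at h4
  rw [Real.dist_eq] at h3 ⊢
  have h6 := abs_add_le (RZ u T - RZ u (aj j)) (RZ u (aj j) - z)
  rw [sub_add_sub_cancel] at h6
  linarith

theorem bZ_conv (u : ℝ) : ∃ z : ℝ, Tendsto (fun K : ℕ =>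
    (∫ t in (6 * Real.pi)..(2 * Real.pi * K), Complex.exp ((u * t : ℝ) * Complex.I) * bZ t).re) atTop (𝓝 z) := by
  obtain ⟨z, hz⟩ := RZ_conv u
  refine ⟨z, ?_⟩
  have hK : Tendsto (fun K : ℕ => 2 * Real.pi * (K : ℝ)) atTop atTop :=
    tendsto_natCast_atTop_atTop.const_mul_atTop (by positivity)
  exact hz.comp hK

theorem bZ_drift (u : ℝ) (K : ℕ) (hK : 3 ≤ K) :
    |(∫ t in (6 * Real.pi)..(2 * Real.pi * K), Complex.exp ((u * t : ℝ) * Complex.I) * bZ t).re| ≤ 54 := by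
  apply RZ_bound
  have h1 : (3 : ℝ) ≤ K := by exact_mod_cast hK
  have h2 := Real.pi_pos
  nlinarith

theorem norm_zeta_line {t : ℝ} (ht : 1 ≤ t) : ‖riemannZeta (1 + 2 * t * Complex.I)‖ ≤ 7 * (1 + Real.log t) := by
  have ht0 : 0 < t := by linarith
  obtain ⟨M, hM⟩ : ∃ M : ℕ, M = ⌈t⌉₊ := ⟨_, rfl⟩
  have hM1 : 1 ≤ M := by
    rw [hM]
    exact Nat.one_le_ceil_iff.2 ht0
  have hMt : t ≤ M := by
    rw [hM]
    exact Nat.le_ceil t
  have hMt2 : (M : ℝ) ≤ 2 * t := by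
    rw [hM]
    have := Nat.ceil_lt_add_one ht0.le
    linarith
  have hM0 : (0 : ℝ) < M := by linarith
  have h1 := zeta_sum hM1 ht0
  have h2 : ‖∑ m ∈ Finset.Icc 1 M, (m : ℂ) ^ (-(1 + 2 * t * Complex.I : ℂ))‖ ≤ 1 + Real.log M := by
    have h3 := harmonic_le_one_add_log M
    have h4 : ((harmonic M : ℚ) : ℝ) = ∑ m ∈ Finset.Icc 1 M, 1 / (m : ℝ) := by
      rw [harmonic_eq_sum_Icc]
      push_cast
      simp only [one_div]
    rw [h4] at h3
    refine (norm_sum_le _ _).trans (le_trans (Finset.sum_le_sum fun m hm => ?_) h3)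
    rw [cpow_line (Finset.mem_Icc.1 hm).1, norm_mul, Complex.norm_exp_ofReal_mul_I, mul_one, Complex.norm_real,
      Real.norm_eq_abs, abs_of_nonneg (by positivity)]
  have h3 : Real.log M ≤ 1 + Real.log t := by
    have h4 : Real.log M ≤ Real.log (2 * t) := Real.log_le_log hM0 hMt2
    rw [Real.log_mul (by norm_num) ht0.ne'] at h4
    have := Real.log_two_lt_d9
    linarith
  have h5 : (1 + 2 * t) / M ≤ 3 := by
    rw [div_le_iff₀ hM0]
    linarith
  have h6 : 1 / (2 * t) ≤ 1 := by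
    rw [div_le_one (by linarith)]
    linarith
  have h7 := norm_add_le (riemannZeta (1 + 2 * t * Complex.I) -
    ∑ m ∈ Finset.Icc 1 M, (m : ℂ) ^ (-(1 + 2 * t * Complex.I : ℂ)))
    (∑ m ∈ Finset.Icc 1 M, (m : ℂ) ^ (-(1 + 2 * t * Complex.I : ℂ)))
  rw [sub_add_cancel] at h7
  have h8 := Real.log_nonneg ht
  linarith

theorem bZ_bd {t : ℝ} (ht : 1 ≤ t) : ‖bZ t‖ ≤ 7 * (1 + Real.log t) / t := by
  have ht0 : 0 < t := by linarith
  rw [bZ_eq, norm_mul]
  have h1 := norm_zeta_line ht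
  have h2 := bM_le ht0
  have h8 := Real.log_nonneg ht
  calc ‖riemannZeta (1 + 2 * t * Complex.I)‖ * ‖bM t‖ ≤ 7 * (1 + Real.log t) * (1 / t) :=
        mul_le_mul h1 h2 (norm_nonneg _) (by positivity)
    _ = _ := by ring

/-- the weight of `L` is admissible -/
theorem isW_bZ_of {m : ℝ} (hmean : Tendsto (fun T : ℝ => (∫ t in (1 : ℝ)..T, t * ‖bZ t‖) / T) atTop (𝓝 m)) :
    IsW bZ m where
  meas := bZ_meas
  bd := ⟨7, fun _ ht => bZ_bd ht⟩
  mean := hmean
  conv := fun u _ => bZ_conv u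
  drift := ⟨54, fun u _ K hK => bZ_drift u K hK⟩

end Pool.Agent.Helper66.RMT
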