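import Pool.Agent.Helper96.RMT.TailW2
import Pool.Agent.Helper66.RMT.Asm3
import Pool.Agent.Helper66.RMT.Forms

/-!
# Project RMT (MP_a499ba_nt), step 3: the squares of the coefficients have a finite sum
-/

set_option autoImplicit false

namespace Pool.Agent.Helper66.RMT

open MeasureTheory ProbabilityTheory Filter Finset

lemma log_sq_le {n : ℕ} (hn : 1 ≤ n) : (1 + Real.log n) ^ 2 ≤ 16 * (n : ℝ) ^ (1 / 2 : ℝ) := by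
  have hn1 : (1 : ℝ) ≤ n := by exact_mod_cast hn
  have hn0 : (0 : ℝ) < n := by linarith
  have h1 : Real.log n = 4 * Real.log ((n : ℝ) ^ (1 / 4 : ℝ)) := by
    rw [Real.log_rpow hn0]
    ring
  have h2 : Real.log ((n : ℝ) ^ (1 / 4 : ℝ)) ≤ (n : ℝ) ^ (1 / 4 : ℝ) - 1 :=
    Real.log_le_sub_one_of_pos (by positivity)
  have h3 : 0 ≤ Real.log n := Real.log_nonneg hn1
  have h4 : 1 + Real.log n ≤ 4 * (n : ℝ) ^ (1 / 4 : ℝ) := by linarith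
  calc (1 + Real.log n) ^ 2 ≤ (4 * (n : ℝ) ^ (1 / 4 : ℝ)) ^ 2 := pow_le_pow_left₀ (by linarith) h4 2
    _ = 16 * (n : ℝ) ^ (1 / 2 : ℝ) := by
      rw [mul_pow, ← Real.rpow_natCast ((n : ℝ) ^ (1 / 4 : ℝ)) 2, ← Real.rpow_mul hn0.le]
      norm_num

lemma sum_inv_sq_le {N : ℕ} (θ : Fin N → ℝ) : ∑ j, 1 / ‖dz θ j‖ ^ 2 ≤ amp θ ^ 2 := by
  have h1 : ∀ j, 1 / ‖dz θ j‖ ≤ amp θ := fun j => by
    unfold amp
    exact Finset.single_le_sum (f := fun j => 1 / ‖dz θ j‖) (fun i _ => by positivity) (mem_univ j)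
  calc ∑ j, 1 / ‖dz θ j‖ ^ 2 ≤ ∑ j, amp θ * (1 / ‖dz θ j‖) := by
        refine Finset.sum_le_sum fun j _ => ?_
        have h2 : 1 / ‖dz θ j‖ ^ 2 = 1 / ‖dz θ j‖ * (1 / ‖dz θ j‖) := by ring
        rw [h2]
        exact mul_le_mul_of_nonneg_right (h1 j) (by positivity)
    _ = amp θ ^ 2 := by
        rw [← Finset.mul_sum, sq]
        rfl

lemma sq_block {b : ℝ → ℂ} {A : ℝ} (hA : HasBw b A) (x : (n : ℕ) → Fin (sz n) → ℝ)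
    (hx : ∀ n j, 0 ≤ x n j ∧ x n j < 2 * Real.pi) (n : ℕ) :
    ∑ j, ‖b (ord x n j)‖ ^ 2 / ‖dz (x n) j‖ ^ 2 ≤
      16 * A ^ 2 * (amp (x n) ^ 2 / (n : ℝ) ^ (1 + 1 / 2 : ℝ)) := by
  rcases Nat.eq_zero_or_pos n with rfl | hn
  · have := isEmpty_zero
    rw [Finset.univ_eq_empty, Finset.sum_empty]
    positivity
  have hn1 : (1 : ℝ) ≤ n := by exact_mod_cast hn
  have hn0 : (0 : ℝ) < n := by linarith
  have h1 : ∀ j, ‖b (ord x n j)‖ ^ 2 / ‖dz (x n) j‖ ^ 2 ≤ Bw A n ^ 2 * (1 / ‖dz (x n) j‖ ^ 2) := by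
    intro j
    have h2 : ‖b (ord x n j)‖ ≤ Bw A n := hA n hn _ (hx n j).1 (hx n j).2
    rw [div_eq_mul_one_div]
    exact mul_le_mul_of_nonneg_right (pow_le_pow_left₀ (norm_nonneg _) h2 2) (by positivity)
  calc ∑ j, ‖b (ord x n j)‖ ^ 2 / ‖dz (x n) j‖ ^ 2 ≤ ∑ j, Bw A n ^ 2 * (1 / ‖dz (x n) j‖ ^ 2) :=
        Finset.sum_le_sum fun j _ => h1 j
    _ = Bw A n ^ 2 * ∑ j, 1 / ‖dz (x n) j‖ ^ 2 := by rw [Finset.mul_sum]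
    _ ≤ Bw A n ^ 2 * amp (x n) ^ 2 := mul_le_mul_of_nonneg_left (sum_inv_sq_le _) (by positivity)
    _ = A ^ 2 * ((1 + Real.log n) ^ 2 / (n : ℝ) ^ 2) * amp (x n) ^ 2 := by
        unfold Bw
        ring
    _ ≤ A ^ 2 * (16 / (n : ℝ) ^ (1 + 1 / 2 : ℝ)) * amp (x n) ^ 2 := by
        apply mul_le_mul_of_nonneg_right _ (by positivity)
        apply mul_le_mul_of_nonneg_left _ (by positivity)
        rw [div_le_div_iff₀ (by positivity) (by positivity)]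
        have h3 : (n : ℝ) ^ 2 = (n : ℝ) ^ (1 / 2 : ℝ) * (n : ℝ) ^ (1 + 1 / 2 : ℝ) := by
          rw [← Real.rpow_add hn0, ← Real.rpow_natCast]
          norm_num
        rw [h3, ← mul_assoc]
        exact mul_le_mul_of_nonneg_right (log_sq_le hn) (by positivity)
    _ = _ := by ring

section

variable {Ω : Type*} [MeasurableSpace Ω] (P : Measure Ω) [IsProbabilityMeasure P]
  (θ : (n : ℕ) → Ω → (Fin (sz n) → ℝ)) (hm : ∀ n, Measurable (θ n)) (hi : iIndepFun θ P)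
  (hl : ∀ n, P.map (θ n) = cue (sz n))

include hm hi hl

/-- block (b) of step 3 -/
theorem sq2_ae {b₁ b₂ : ℝ → ℂ} {m₁ m₂ : ℝ} (h₁ : IsW b₁ m₁) (h₂ : IsW b₂ m₂) :
    ∀ᵐ ω ∂P, ∃ Q : ℝ, ∀ k : ℕ, ∑ p : Idx k, (‖b₁ (ord (fun n => θ n ω) p.1 p.2)‖ ^ 2 +
      ‖b₂ (ord (fun n => θ n ω) p.1 p.2)‖ ^ 2) / ‖dz (θ p.1 ω) p.2‖ ^ 2 ≤ Q := by
  obtain ⟨A₁, hA₁⟩ := h₁.bd
  obtain ⟨A₂, hA₂⟩ := h₂.bd
  have hB₁ := hasBw_of_bd hA₁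
  have hB₂ := hasBw_of_bd hA₂
  filter_upwards [sq_summable' P θ hm hl (1 / 2) (by norm_num), ae_box P θ hm hi hl] with ω hS hbox
  refine ⟨∑' n : ℕ, (16 * (4 * (|A₁| + 1)) ^ 2 + 16 * (4 * (|A₂| + 1)) ^ 2) *
    (amp (θ n ω) ^ 2 / (n : ℝ) ^ (1 + 1 / 2 : ℝ)), fun k => ?_⟩
  rw [Fintype.sum_sigma]
  have h3 : ∀ n : ℕ, ∑ j, (‖b₁ (ord (fun n => θ n ω) n j)‖ ^ 2 +
      ‖b₂ (ord (fun n => θ n ω) n j)‖ ^ 2) / ‖dz (θ n ω) j‖ ^ 2 ≤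
      (16 * (4 * (|A₁| + 1)) ^ 2 + 16 * (4 * (|A₂| + 1)) ^ 2) *
        (amp (θ n ω) ^ 2 / (n : ℝ) ^ (1 + 1 / 2 : ℝ)) := by
    intro n
    have h4 := sq_block hB₁ (fun n => θ n ω) hbox n
    have h5 := sq_block hB₂ (fun n => θ n ω) hbox n
    have h6 : ∑ j, (‖b₁ (ord (fun n => θ n ω) n j)‖ ^ 2 +
        ‖b₂ (ord (fun n => θ n ω) n j)‖ ^ 2) / ‖dz (θ n ω) j‖ ^ 2 =
        ∑ j, ‖b₁ (ord (fun n => θ n ω) n j)‖ ^ 2 / ‖dz (θ n ω) j‖ ^ 2 +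
        ∑ j, ‖b₂ (ord (fun n => θ n ω) n j)‖ ^ 2 / ‖dz (θ n ω) j‖ ^ 2 := by
      rw [← Finset.sum_add_distrib]
      exact Finset.sum_congr rfl fun j _ => add_div _ _ _
    rw [h6, add_mul]
    exact add_le_add h4 h5
  have h7 := Finset.sum_range (n := 2 ^ k) (fun n : ℕ => ∑ j, (‖b₁ (ord (fun n => θ n ω) n j)‖ ^ 2 +
      ‖b₂ (ord (fun n => θ n ω) n j)‖ ^ 2) / ‖dz (θ n ω) j‖ ^ 2)
  refine (le_of_eq h7.symm).trans ?_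
  exact (Finset.sum_le_sum fun n _ => h3 n).trans
    ((hS.mul_left _).sum_le_tsum _ fun n _ => by positivity)

end

end Pool.Agent.Helper66.RMT
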