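import Pool.Agent.Helper96.RMT.Tail

/-!
# Project RMT (MP_a499ba_nt), block B3: the tail, assembly
-/

set_option autoImplicit false

namespace Pool.Agent.Helper66.RMT

open MeasureTheory ProbabilityTheory Filter Finset

lemma two_rpow_nat (k : ℕ) (c : ℝ) : ((2 : ℝ) ^ k) ^ c = (2 : ℝ) ^ ((k : ℝ) * c) := by
  rw [← Real.rpow_natCast, ← Real.rpow_mul (by norm_num)]

lemma tail_num {ε : ℝ} (hε : 0 < ε) (hε1 : ε < 1) : ∀ᶠ k : ℕ in atTop,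
    24 * (2 : ℝ) ^ (6 * k) * Real.exp ((2 : ℝ) ^ ((k : ℝ) * (1 - ε)) - (2 : ℝ) ^ ((k : ℝ) * (1 - 3 * ε / 4)) / 128) ≤
      Real.exp (-(k : ℝ)) := by
  have h1 : ∀ᶠ k : ℕ in atTop, 32 / ε ≤ (k : ℝ) := tendsto_natCast_atTop_atTop.eventually_ge_atTop _
  have hr : (1 : ℝ) < (2 : ℝ) ^ (1 / 4 : ℝ) := Real.one_lt_rpow (by norm_num) (by norm_num)
  have h2 : ∀ᶠ k : ℕ in atTop, (k : ℝ) ^ 1 / ((2 : ℝ) ^ (1 / 4 : ℝ)) ^ k ≤ 1 / 4000 :=
    (tendsto_pow_const_div_const_pow_of_one_lt 1 hr).eventually_le_const (by norm_num)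
  filter_upwards [h1, h2, eventually_ge_atTop 1] with k hk1 hk2 hk3
  have hk0 : (1 : ℝ) ≤ k := by exact_mod_cast hk3
  set a : ℝ := (2 : ℝ) ^ ((k : ℝ) * (1 - ε)) with ha
  set b : ℝ := (2 : ℝ) ^ ((k : ℝ) * (1 - 3 * ε / 4)) with hb
  have ha0 : 0 < a := by positivity
  have hb1 : b = a * (2 : ℝ) ^ ((k : ℝ) * (ε / 4)) := by
    rw [ha, hb, ← Real.rpow_add (by norm_num)]
    congr 1
    ring
  have h256 : (256 : ℝ) ≤ (2 : ℝ) ^ ((k : ℝ) * (ε / 4)) := by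
    have h3 : (8 : ℝ) ≤ (k : ℝ) * (ε / 4) := by
      rw [div_le_iff₀ hε] at hk1
      linarith
    calc (256 : ℝ) = (2 : ℝ) ^ (8 : ℝ) := by norm_num
      _ ≤ _ := Real.rpow_le_rpow_of_exponent_le (by norm_num) h3
  have hba : 256 * a ≤ b := by
    rw [hb1]
    nlinarith
  have hbk : 4000 * (k : ℝ) ≤ b := by
    have hpos : 0 < ((2 : ℝ) ^ (1 / 4 : ℝ)) ^ k := by positivity
    rw [pow_one, div_le_iff₀ hpos] at hk2
    have h4 : ((2 : ℝ) ^ (1 / 4 : ℝ)) ^ k ≤ b := by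
      rw [← Real.rpow_natCast, ← Real.rpow_mul (by norm_num), hb]
      apply Real.rpow_le_rpow_of_exponent_le (by norm_num)
      nlinarith
    linarith
  have h24 : (24 : ℝ) ≤ Real.exp 4 := by
    have h5 := Real.exp_one_gt_d9
    have h6 : Real.exp 4 = Real.exp 1 ^ 4 := by
      rw [← Real.exp_nat_mul]
      norm_num
    rw [h6]
    have h7 : (2.7 : ℝ) ^ 4 ≤ Real.exp 1 ^ 4 := pow_le_pow_left₀ (by norm_num) (by linarith) 4
    refine le_trans ?_ h7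
    norm_num
  have h2k : (2 : ℝ) ^ (6 * k) ≤ Real.exp (6 * k) := by
    have h8 : (2 : ℝ) ≤ Real.exp 1 := by linarith [Real.exp_one_gt_d9]
    calc (2 : ℝ) ^ (6 * k) ≤ Real.exp 1 ^ (6 * k) := pow_le_pow_left₀ (by norm_num) h8 _
      _ = Real.exp (6 * k) := by
          rw [← Real.exp_nat_mul]
          congr 1
          push_cast
          ring
  calc 24 * (2 : ℝ) ^ (6 * k) * Real.exp (a - b / 128) ≤ Real.exp 4 * Real.exp (6 * k) * Real.exp (a - b / 128) := by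
        gcongr
    _ = Real.exp (4 + 6 * k + (a - b / 128)) := by rw [← Real.exp_add, ← Real.exp_add]
    _ ≤ Real.exp (-(k : ℝ)) := by
        apply Real.exp_le_exp.2
        linarith

section assembly

variable {Ω : Type*} [MeasurableSpace Ω] (P : Measure Ω) [IsProbabilityMeasure P]
  (θ : (n : ℕ) → Ω → (Fin (sz n) → ℝ)) (hm : ∀ n, Measurable (θ n)) (hi : iIndepFun θ P)
  (hl : ∀ n, P.map (θ n) = cue (sz n))

include hm hi hl

lemma ae_box : ∀ᵐ ω ∂P, ∀ n j, 0 ≤ θ n ω j ∧ θ n ω j < 2 * Real.pi := by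
  rw [ae_all_iff]
  intro n
  have hbm : MeasurableSet (box (sz n)) := MeasurableSet.univ_pi fun _ => measurableSet_Ico
  have hb2 : ∀ᵐ ϑ ∂(volume.restrict (box (sz n))), ∀ j, 0 ≤ ϑ j ∧ ϑ j < 2 * Real.pi :=
    (ae_restrict_iff' hbm).2 (Filter.Eventually.of_forall fun ϑ hθ j => hθ j (Set.mem_univ j))
  have hb3 : ∀ᵐ ϑ ∂(cue (sz n)), ∀ j, 0 ≤ ϑ j ∧ ϑ j < 2 * Real.pi :=
    (withDensity_absolutelyContinuous _ _).ae_le hb2
  rw [← hl n] at hb3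
  exact ae_of_ae_map (hm n).aemeasurable hb3

/-- block B3 from A4c and B2 -/
theorem tail_of (hmgf : MGF) (hsq : ∀ ε : ℝ, 0 < ε →
      ∀ᵐ ω ∂P, Summable fun n : ℕ => amp (θ n ω) ^ 2 / (n : ℝ) ^ (1 + ε)) (ε : ℝ) (hε : 0 < ε) (hε1 : ε < 1) :
    ∀ᵐ ω ∂P, ∃ k₀ : ℕ, ∀ k ≥ k₀, ∀ K : ℕ, K ≤ 2 ^ (k + 1) → ∀ u : ℝ, (2 : ℝ) ^ (-(k : ℝ)) ≤ u →
      u ≤ Real.exp ((2 : ℝ) ^ ((k : ℝ) * (1 - ε))) →
      ‖∑ n ∈ Ico (2 ^ k) K, Complex.exp ((2 * Real.pi * n * u : ℝ) * Complex.I) / n *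
        (ff (θ n ω) u - mu u)‖ ≤ (2 : ℝ) ^ (-(k : ℝ) * ε / 8) := by
  classical
  -- parameters
  let t : ℕ → ℝ := fun k => (2 : ℝ) ^ (-(k : ℝ) * ε / 8) / 4
  let v : ℕ → ℝ := fun k => (2 : ℝ) ^ (-((k : ℝ) * (1 - ε / 2)))
  let Mk : ℕ → ℕ := fun k => ⌈Real.exp ((2 : ℝ) ^ ((k : ℝ) * (1 - ε))) * 2 ^ (5 * k)⌉₊ + 1
  let V : ℕ → Ω → ℝ := fun k ω => ∑ n ∈ Ico (2 ^ k) (2 ^ (k + 1)), amp (θ n ω) ^ 2 / (n : ℝ) ^ 2
  let Bad : ℕ → Set Ω := fun k => ⋃ K ∈ Icc (2 ^ k) (2 ^ (k + 1)), ⋃ i ∈ range (Mk k),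
    {ω | 2 * t k < ‖∑ n ∈ Ico (2 ^ k) K, tm (θ n ω) n (((i : ℝ) + 1) / 2 ^ (5 * k))‖ ∧ V k ω ≤ v k}
  have ht0 : ∀ k, 0 < t k := fun k => by positivity
  have hv0 : ∀ k, 0 < v k := fun k => by positivity
  have hBad : ∀ k, 2 ≤ k → P (Bad k) ≤ ENNReal.ofReal (24 * (2 : ℝ) ^ (6 * k) * Real.exp ((2 : ℝ) ^ ((k : ℝ) * (1 - ε)) -
      (2 : ℝ) ^ ((k : ℝ) * (1 - 3 * ε / 4)) / 128)) := by
    intro k hk
    have h1 : P (Bad k) ≤ ∑ K ∈ Icc (2 ^ k) (2 ^ (k + 1)), ∑ i ∈ range (Mk k),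
        4 * ENNReal.ofReal (Real.exp (-(t k ^ 2 / (8 * v k)))) := by
      refine (measure_biUnion_finset_le _ _).trans (Finset.sum_le_sum fun K hK => ?_)
      refine (measure_biUnion_finset_le _ _).trans (Finset.sum_le_sum fun i _ => ?_)
      exact point_norm P θ hm hi hl hmgf hk (Finset.mem_Icc.1 hK).2 (by positivity) (ht0 k) (hv0 k)
    refine h1.trans ?_
    rw [Finset.sum_const, Finset.sum_const, Nat.card_Icc, Finset.card_range, nsmul_eq_mul, nsmul_eq_mul]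
    have h2 : ((2 ^ (k + 1) + 1 - 2 ^ k : ℕ) : ENNReal) * ((Mk k : ℕ) * (4 * ENNReal.ofReal (Real.exp (-(t k ^ 2 / (8 * v k)))))) =
        ENNReal.ofReal (((2 ^ (k + 1) + 1 - 2 ^ k : ℕ) : ℝ) * ((Mk k : ℕ) * (4 * Real.exp (-(t k ^ 2 / (8 * v k)))))) := by
      rw [ENNReal.ofReal_mul (by positivity), ENNReal.ofReal_mul (by positivity), ENNReal.ofReal_mul (by positivity),
        ENNReal.ofReal_natCast, ENNReal.ofReal_natCast]
      norm_num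
    rw [h2]
    apply ENNReal.ofReal_le_ofReal
    have h3 : ((2 ^ (k + 1) + 1 - 2 ^ k : ℕ) : ℝ) ≤ 2 * 2 ^ k := by
      have : 2 ^ (k + 1) + 1 - 2 ^ k ≤ 2 * 2 ^ k := by
        have h4 : 1 ≤ 2 ^ k := Nat.one_le_two_pow
        rw [pow_succ]
        omega
      calc ((2 ^ (k + 1) + 1 - 2 ^ k : ℕ) : ℝ) ≤ ((2 * 2 ^ k : ℕ) : ℝ) := by exact_mod_cast this
        _ = 2 * 2 ^ k := by push_cast; ring
    have h5 : (1 : ℝ) ≤ Real.exp ((2 : ℝ) ^ ((k : ℝ) * (1 - ε))) * 2 ^ (5 * k) := by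
      have h6 : (1 : ℝ) ≤ Real.exp ((2 : ℝ) ^ ((k : ℝ) * (1 - ε))) := Real.one_le_exp (by positivity)
      have h7 : (1 : ℝ) ≤ 2 ^ (5 * k) := one_le_pow₀ (by norm_num)
      nlinarith
    have h8 : ((Mk k : ℕ) : ℝ) ≤ 3 * (Real.exp ((2 : ℝ) ^ ((k : ℝ) * (1 - ε))) * 2 ^ (5 * k)) := by
      simp only [Mk]
      push_cast
      have := Nat.ceil_lt_add_one (a := Real.exp ((2 : ℝ) ^ ((k : ℝ) * (1 - ε))) * 2 ^ (5 * k)) (by positivity)
      linarith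
    have h9 : t k ^ 2 / (8 * v k) = (2 : ℝ) ^ ((k : ℝ) * (1 - 3 * ε / 4)) / 128 := by
      simp only [t, v]
      rw [div_pow, ← Real.rpow_natCast ((2 : ℝ) ^ (-(k : ℝ) * ε / 8)) 2, ← Real.rpow_mul (by norm_num),
        Real.rpow_neg (by norm_num)]
      have h10 : (2 : ℝ) ^ ((k : ℝ) * (1 - 3 * ε / 4)) = (2 : ℝ) ^ (-(k : ℝ) * ε / 8 * ((2 : ℕ) : ℝ)) *
          (2 : ℝ) ^ ((k : ℝ) * (1 - ε / 2)) := by
        rw [← Real.rpow_add (by norm_num)]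
        congr 1
        push_cast
        ring
      rw [h10]
      field_simp
      ring
    calc ((2 ^ (k + 1) + 1 - 2 ^ k : ℕ) : ℝ) * ((Mk k : ℕ) * (4 * Real.exp (-(t k ^ 2 / (8 * v k)))))
        ≤ (2 * 2 ^ k) * (3 * (Real.exp ((2 : ℝ) ^ ((k : ℝ) * (1 - ε))) * 2 ^ (5 * k)) *
            (4 * Real.exp (-(t k ^ 2 / (8 * v k))))) := by
          gcongr
      _ = 24 * (2 : ℝ) ^ (6 * k) * Real.exp ((2 : ℝ) ^ ((k : ℝ) * (1 - ε)) -
            (2 : ℝ) ^ ((k : ℝ) * (1 - 3 * ε / 4)) / 128) := by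
          have hex : ∀ a b : ℝ, Real.exp (a - b) = Real.exp a * Real.exp (-b) := fun a b => by
            rw [← Real.exp_add, sub_eq_add_neg]
          rw [h9, hex]
          have : (2 : ℝ) ^ (6 * k) = 2 ^ k * 2 ^ (5 * k) := by
            rw [← pow_add]
            congr 1
            ring
          rw [this]
          ring
  obtain ⟨k1, hk1⟩ := eventually_atTop.1 (tail_num hε hε1)
  have hsum : ∑' r, P (Bad (r + (k1 + 2))) ≠ ⊤ := by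
    have hb : ∀ r, P (Bad (r + (k1 + 2))) ≤ ENNReal.ofReal (Real.exp (-1) ^ r) := by
      intro r
      refine (hBad _ (by omega)).trans (ENNReal.ofReal_le_ofReal ?_)
      refine (hk1 _ (by omega)).trans ?_
      rw [← Real.exp_nat_mul]
      apply Real.exp_le_exp.2
      push_cast
      have : (0 : ℝ) ≤ k1 := by positivity
      linarith
    have hsm : Summable (fun r : ℕ => Real.exp (-1) ^ r) :=
      summable_geometric_of_lt_one (Real.exp_pos _).le (by rw [Real.exp_lt_one_iff]; norm_num)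
    exact ne_top_of_le_ne_top hsm.tsum_ofReal_ne_top (ENNReal.tsum_le_tsum hb)
  have hbc := ae_eventually_notMem hsum
  filter_upwards [hbc, hsq (ε / 4) (by positivity), ae_box P θ hm hi hl] with ω hev hS hbox
  obtain ⟨r0, hr0⟩ := eventually_atTop.1 hev
  obtain ⟨S, hSdef⟩ : ∃ S : ℝ, S = ∑' n : ℕ, amp (θ n ω) ^ 2 / (n : ℝ) ^ (1 + ε / 4) := ⟨_, rfl⟩
  have hge : ∀ᶠ k : ℕ in atTop, S ≤ (2 : ℝ) ^ ((k : ℝ) * (ε / 4)) := by
    have h1 : Tendsto (fun k : ℕ => ((2 : ℝ) ^ (ε / 4)) ^ k) atTop atTop :=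
      tendsto_pow_atTop_atTop_of_one_lt (Real.one_lt_rpow (by norm_num) (by positivity))
    filter_upwards [h1.eventually_ge_atTop S] with k hk
    refine hk.trans (le_of_eq ?_)
    rw [← Real.rpow_natCast, ← Real.rpow_mul (by norm_num)]
    congr 1
    ring
  obtain ⟨k2, hk2⟩ := eventually_atTop.1 hge
  refine ⟨max (max (r0 + (k1 + 2)) k2) 4, fun k hk K hK u hu1 hu2 => ?_⟩
  have hk_a : r0 + (k1 + 2) ≤ k := le_trans (le_trans (le_max_left _ _) (le_max_left _ _)) hk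
  have hk_b : k2 ≤ k := le_trans (le_trans (le_max_right _ _) (le_max_left _ _)) hk
  have hk_c : 4 ≤ k := le_trans (le_max_right _ _) hk
  have hkr : (4 : ℝ) ≤ k := by exact_mod_cast hk_c
  change ‖∑ n ∈ Ico (2 ^ k) K, tm (θ n ω) n u‖ ≤ _
  by_cases hKk : K < 2 ^ k
  · rw [Finset.Ico_eq_empty_of_le hKk.le, Finset.sum_empty, norm_zero]
    positivity
  push Not at hKk
  have hu0 : 0 < u := lt_of_lt_of_le (by positivity) hu1
  -- V ≤ v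
  have hV : V k ω ≤ v k := by
    have h1 : V k ω ≤ ∑ n ∈ Ico (2 ^ k) (2 ^ (k + 1)), amp (θ n ω) ^ 2 / (n : ℝ) ^ (1 + ε / 4) *
        (2 : ℝ) ^ (-((k : ℝ) * (1 - ε / 4))) := by
      refine Finset.sum_le_sum fun n hn => ?_
      have hn1 : (2 : ℝ) ^ k ≤ n := by exact_mod_cast (Finset.mem_Ico.1 hn).1
      have hn0 : (0 : ℝ) < n := lt_of_lt_of_le (by positivity) hn1
      have h2 : (n : ℝ) ^ 2 = (n : ℝ) ^ (1 + ε / 4) * (n : ℝ) ^ (1 - ε / 4) := by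
        rw [← Real.rpow_add hn0, ← Real.rpow_natCast]
        congr 1
        push_cast
        ring
      have h3 : (2 : ℝ) ^ ((k : ℝ) * (1 - ε / 4)) ≤ (n : ℝ) ^ (1 - ε / 4) := by
        rw [← two_rpow_nat]
        exact Real.rpow_le_rpow (by positivity) hn1 (by linarith)
      rw [h2, Real.rpow_neg (by norm_num), ← div_eq_mul_inv, div_div]
      apply div_le_div_of_nonneg_left (by positivity) (by positivity)
      exact mul_le_mul_of_nonneg_left h3 (by positivity)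
    rw [← Finset.sum_mul] at h1
    have h4 : ∑ n ∈ Ico (2 ^ k) (2 ^ (k + 1)), amp (θ n ω) ^ 2 / (n : ℝ) ^ (1 + ε / 4) ≤ S := by
      rw [hSdef]
      exact hS.sum_le_tsum _ fun n _ => by positivity
    have h5 := hk2 k hk_b
    calc V k ω ≤ (∑ n ∈ Ico (2 ^ k) (2 ^ (k + 1)), amp (θ n ω) ^ 2 / (n : ℝ) ^ (1 + ε / 4)) *
          (2 : ℝ) ^ (-((k : ℝ) * (1 - ε / 4))) := h1
      _ ≤ (2 : ℝ) ^ ((k : ℝ) * (ε / 4)) * (2 : ℝ) ^ (-((k : ℝ) * (1 - ε / 4))) := by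
          gcongr
          exact h4.trans h5
      _ = v k := by
          simp only [v]
          rw [← Real.rpow_add (by norm_num)]
          congr 1
          ring
  -- the net point
  obtain ⟨i, hi1⟩ : ∃ i : ℕ, i + 1 = ⌈u * 2 ^ (5 * k)⌉₊ := by
    have : 0 < ⌈u * 2 ^ (5 * k)⌉₊ := Nat.ceil_pos.2 (by positivity)
    exact ⟨⌈u * 2 ^ (5 * k)⌉₊ - 1, by omega⟩
  have hiM : i ∈ range (Mk k) := by
    rw [Finset.mem_range]
    have : ⌈u * 2 ^ (5 * k)⌉₊ ≤ ⌈Real.exp ((2 : ℝ) ^ ((k : ℝ) * (1 - ε))) * 2 ^ (5 * k)⌉₊ :=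
      Nat.ceil_le_ceil (mul_le_mul_of_nonneg_right hu2 (by positivity))
    simp only [Mk]
    omega
  obtain ⟨w, hw⟩ : ∃ w : ℝ, w = ((i : ℝ) + 1) / 2 ^ (5 * k) := ⟨_, rfl⟩
  have hir : (i : ℝ) + 1 = (⌈u * 2 ^ (5 * k)⌉₊ : ℝ) := by exact_mod_cast hi1
  have hw0 : 0 < w := by rw [hw]; positivity
  have huw : |u - w| ≤ 1 / 2 ^ (5 * k) := by
    have h1 : u * 2 ^ (5 * k) ≤ (i : ℝ) + 1 := by rw [hir]; exact Nat.le_ceil _
    have h2 : (i : ℝ) + 1 ≤ u * 2 ^ (5 * k) + 1 := by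
      rw [hir]
      exact (Nat.ceil_lt_add_one (by positivity)).le
    have hp : (0 : ℝ) < 2 ^ (5 * k) := by positivity
    rw [abs_le, hw]
    constructor
    · have : ((i : ℝ) + 1) / 2 ^ (5 * k) ≤ (u * 2 ^ (5 * k) + 1) / 2 ^ (5 * k) := div_le_div_of_nonneg_right h2 hp.le
      have h3 : (u * 2 ^ (5 * k) + 1) / 2 ^ (5 * k) = u + 1 / 2 ^ (5 * k) := by field_simp
      linarith
    · have : u * 2 ^ (5 * k) / 2 ^ (5 * k) ≤ ((i : ℝ) + 1) / 2 ^ (5 * k) := div_le_div_of_nonneg_right h1 hp.le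
      have h3 : u * 2 ^ (5 * k) / 2 ^ (5 * k) = u := by field_simp
      have h4 : (0 : ℝ) ≤ 1 / 2 ^ (5 * k) := by positivity
      linarith
  have hnet : ‖∑ n ∈ Ico (2 ^ k) K, tm (θ n ω) n w‖ ≤ 2 * t k := by
    have h1 := hr0 (k - (k1 + 2)) (by omega)
    rw [show k - (k1 + 2) + (k1 + 2) = k by omega] at h1
    by_contra hcon
    push Not at hcon
    apply h1
    simp only [Bad, Set.mem_iUnion]
    refine ⟨K, Finset.mem_Icc.2 ⟨hKk, hK⟩, i, hiM, ?_, hV⟩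
    rw [← hw]
    exact hcon
  -- continuity
  have hvle : v k ≤ 1 := by
    simp only [v]
    apply Real.rpow_le_one_of_one_le_of_nonpos (by norm_num)
    nlinarith
  have hamp : ∀ n ∈ Ico (2 ^ k) K, amp (θ n ω) + 1 ≤ 2 ^ (k + 2) := by
    intro n hn
    have hnK := Finset.mem_Ico.1 hn
    have hn2 : n ∈ Ico (2 ^ k) (2 ^ (k + 1)) := Finset.mem_Ico.2 ⟨hnK.1, lt_of_lt_of_le hnK.2 hK⟩
    have h1 : amp (θ n ω) ^ 2 / (n : ℝ) ^ 2 ≤ V k ω :=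
      Finset.single_le_sum (f := fun n : ℕ => amp (θ n ω) ^ 2 / (n : ℝ) ^ 2) (fun n _ => by positivity) hn2
    have h2k : (1 : ℝ) ≤ 2 ^ k := one_le_pow₀ (by norm_num)
    have hn0 : (0 : ℝ) < n := lt_of_lt_of_le (by positivity) (show (2 : ℝ) ^ k ≤ n by exact_mod_cast hnK.1)
    have h2 : amp (θ n ω) ^ 2 ≤ (n : ℝ) ^ 2 := by
      have h3 : amp (θ n ω) ^ 2 / (n : ℝ) ^ 2 ≤ 1 := h1.trans (hV.trans hvle)
      rwa [div_le_one (by positivity)] at h3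
    have hA0 : 0 ≤ amp (θ n ω) := Finset.sum_nonneg fun j _ => by positivity
    have h4 : amp (θ n ω) ≤ n := by
      exact (pow_le_pow_iff_left₀ hA0 hn0.le (by norm_num)).1 h2
    have h5 : (n : ℝ) ≤ 2 ^ (k + 1) := by exact_mod_cast (Finset.mem_Ico.1 hn2).2.le
    have h6 : (2 : ℝ) ^ (k + 2) = 2 * 2 ^ (k + 1) := by ring
    have h7 : (1 : ℝ) ≤ 2 ^ (k + 1) := one_le_pow₀ (by norm_num)
    linarith
  have hdiff : ‖∑ n ∈ Ico (2 ^ k) K, tm (θ n ω) n u - ∑ n ∈ Ico (2 ^ k) K, tm (θ n ω) n w‖ ≤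
      (2 : ℝ) ^ (-(k : ℝ) * ε / 8) / 2 := by
    rw [← Finset.sum_sub_distrib]
    have h1 : ∀ n ∈ Ico (2 ^ k) K, ‖tm (θ n ω) n u - tm (θ n ω) n w‖ ≤
        4 * Real.pi * (1 / 2 ^ (5 * k)) * 2 ^ (k + 2) := by
      intro n hn
      have hn1 : 1 ≤ n := le_trans Nat.one_le_two_pow (Finset.mem_Ico.1 hn).1
      refine (tm_lip (θ n ω) (hbox n) hn1 hu0.ne' hw0.ne').trans ?_
      have hA0 : 0 ≤ amp (θ n ω) := Finset.sum_nonneg fun j _ => by positivity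
      have := hamp n hn
      gcongr
    refine (norm_sum_le _ _).trans ((Finset.sum_le_sum h1).trans ?_)
    rw [Finset.sum_const, Nat.card_Ico, nsmul_eq_mul]
    have h2 : ((K - 2 ^ k : ℕ) : ℝ) ≤ 2 ^ k := by
      have : K - 2 ^ k ≤ 2 ^ k := by
        rw [pow_succ] at hK
        omega
      exact_mod_cast this
    have hpi := Real.pi_lt_four
    have h3 : ((K - 2 ^ k : ℕ) : ℝ) * (4 * Real.pi * (1 / 2 ^ (5 * k)) * 2 ^ (k + 2)) ≤
        2 ^ k * (4 * 4 * (1 / 2 ^ (5 * k)) * 2 ^ (k + 2)) := by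
      gcongr
    have h4 : (2 : ℝ) ^ k * (4 * 4 * (1 / 2 ^ (5 * k)) * 2 ^ (k + 2)) = 64 / 2 ^ (3 * k) := by
      have : (2 : ℝ) ^ (5 * k) = 2 ^ (3 * k) * (2 ^ k * 2 ^ k) := by
        rw [← pow_add, ← pow_add]
        congr 1
        ring
      rw [this, pow_add]
      field_simp
      norm_num
    have h5 : (64 : ℝ) / 2 ^ (3 * k) ≤ 1 / 2 ^ k / 2 := by
      rw [div_div, div_le_div_iff₀ (by positivity) (by positivity)]
      have h6 : (2 : ℝ) ^ (3 * k) = 2 ^ k * 2 ^ (2 * k) := by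
        rw [← pow_add]
        congr 1
        ring
      have h7 : (2 : ℝ) ^ 8 ≤ 2 ^ (2 * k) := pow_le_pow_right₀ (by norm_num) (by omega)
      rw [h6]
      have h8 : (0 : ℝ) < 2 ^ k := by positivity
      nlinarith
    have h6 : (1 : ℝ) / 2 ^ k ≤ (2 : ℝ) ^ (-(k : ℝ) * ε / 8) := by
      have h7 : (1 : ℝ) / 2 ^ k = (2 : ℝ) ^ (-(k : ℝ)) := by
        rw [Real.rpow_neg (by norm_num), Real.rpow_natCast, one_div]
      rw [h7]
      apply Real.rpow_le_rpow_of_exponent_le (by norm_num)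
      nlinarith
    linarith
  have hfin : ‖∑ n ∈ Ico (2 ^ k) K, tm (θ n ω) n u‖ ≤
      ‖∑ n ∈ Ico (2 ^ k) K, tm (θ n ω) n u - ∑ n ∈ Ico (2 ^ k) K, tm (θ n ω) n w‖ +
        ‖∑ n ∈ Ico (2 ^ k) K, tm (θ n ω) n w‖ := by
    have := norm_add_le (∑ n ∈ Ico (2 ^ k) K, tm (θ n ω) n u - ∑ n ∈ Ico (2 ^ k) K, tm (θ n ω) n w)
      (∑ n ∈ Ico (2 ^ k) K, tm (θ n ω) n w)
    rwa [sub_add_cancel] at this
  have ht : 2 * t k = (2 : ℝ) ^ (-(k : ℝ) * ε / 8) / 2 := by simp only [t]; ring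
  linarith

end assembly

end Pool.Agent.Helper66.RMT
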