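import Pool.Agent.Helper96.RMT.TailW
import Pool.Agent.Helper66.RMT.DefsW

/-!
# Project RMT (MP_a499ba_nt), step 2: the tail with a weight, assembly
-/

set_option autoImplicit false

namespace Pool.Agent.Helper66.RMT

open MeasureTheory ProbabilityTheory Filter Finset

lemma hasBw_of_bd {b : ℝ → ℂ} {A : ℝ} (h : ∀ t : ℝ, 1 ≤ t → ‖b t‖ ≤ A * (1 + Real.log t) / t) :
    HasBw b (4 * (|A| + 1)) := by
  intro n hn t h0 h1
  have hn1 : (1 : ℝ) ≤ n := by exact_mod_cast hn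
  have hp := Real.pi_gt_three
  have hp4 := Real.pi_lt_d2
  have hT1 : (n : ℝ) ≤ 2 * Real.pi * n + t := by nlinarith
  have hT2 : 2 * Real.pi * n + t ≤ 4 * Real.pi * n := by nlinarith
  have hlogn : 0 ≤ Real.log n := Real.log_nonneg hn1
  have hT0 : 0 < 2 * Real.pi * n + t := by linarith
  have hlog : Real.log (2 * Real.pi * n + t) ≤ 3 + Real.log n := by
    have h2 : Real.log (2 * Real.pi * n + t) ≤ Real.log (4 * Real.pi * n) := Real.log_le_log hT0 hT2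
    have h3 : Real.log (4 * Real.pi * n) = Real.log (4 * Real.pi) + Real.log n :=
      Real.log_mul (by positivity) (by positivity)
    have h4 : Real.log (4 * Real.pi) ≤ 3 := by
      rw [Real.log_le_iff_le_exp (by positivity)]
      have h5 := Real.exp_one_gt_d9
      have h6 : Real.exp 3 = Real.exp 1 ^ 3 := by
        rw [← Real.exp_nat_mul]
        norm_num
      rw [h6]
      have h7 : (2.7 : ℝ) ^ 3 ≤ Real.exp 1 ^ 3 := pow_le_pow_left₀ (by norm_num) (by linarith) 3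
      have h8 : (13 : ℝ) ≤ (2.7 : ℝ) ^ 3 := by norm_num
      linarith
    linarith
  have hlog0 : 0 ≤ Real.log (2 * Real.pi * n + t) := Real.log_nonneg (by linarith)
  refine (h _ (by linarith)).trans ?_
  unfold Bw
  calc A * (1 + Real.log (2 * Real.pi * n + t)) / (2 * Real.pi * n + t)
      ≤ (|A| + 1) * (1 + Real.log (2 * Real.pi * n + t)) / (2 * Real.pi * n + t) := by
        apply div_le_div_of_nonneg_right _ hT0.le
        apply mul_le_mul_of_nonneg_right _ (by linarith)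
        linarith [le_abs_self A]
    _ ≤ (|A| + 1) * (4 * (1 + Real.log n)) / n := by
        have hA := abs_nonneg A
        apply div_le_div₀ _ _ (by linarith) hT1
        · exact mul_nonneg (by linarith) (by linarith)
        · exact mul_le_mul_of_nonneg_left (by linarith) (by linarith)
    _ = _ := by ring

lemma mh_bw (b : ℝ → ℂ) (n : ℕ) (u : ℝ) :
    mh (bw b n u) = (1 / (2 * Real.pi) : ℝ) *
      ∫ t in (2 * Real.pi * n)..(2 * Real.pi * (n + 1)), Complex.exp ((u * t : ℝ) * Complex.I) * b t := by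
  have hp := two_pi_pos'
  unfold mh unif
  rw [integral_smul_measure, integral_Ico_eq_integral_Ioc, ← intervalIntegral.integral_of_le hp.le]
  rw [ENNReal.toReal_inv, ENNReal.toReal_ofReal hp.le, Complex.real_smul]
  congr 1
  · push_cast
    ring
  · unfold bw
    have h := intervalIntegral.integral_comp_add_left (a := 0) (b := 2 * Real.pi)
      (fun t : ℝ => Complex.exp ((u * t : ℝ) * Complex.I) * b t) (2 * Real.pi * n)
    rw [show 2 * Real.pi * (n : ℝ) + 0 = 2 * Real.pi * n by ring,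
      show 2 * Real.pi * (n : ℝ) + 2 * Real.pi = 2 * Real.pi * (n + 1) by ring] at h
    exact h

lemma fh_bw (b : ℝ → ℂ) (x : (n : ℕ) → Fin (sz n) → ℝ) (n : ℕ) (u : ℝ) :
    fh (bw b n u) (x n) = ∑ j, b (ord x n j) * Complex.exp ((u * ord x n j : ℝ) * Complex.I) / dz (x n) j := by
  unfold fh bw ord
  refine Finset.sum_congr rfl fun j _ => ?_
  ring

section assembly

variable {Ω : Type*} [MeasurableSpace Ω] (P : Measure Ω) [IsProbabilityMeasure P]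
  (θ : (n : ℕ) → Ω → (Fin (sz n) → ℝ)) (hm : ∀ n, Measurable (θ n)) (hi : iIndepFun θ P)
  (hl : ∀ n, P.map (θ n) = cue (sz n))

include hm hi hl

/-- block B3 with a weight -/
theorem tw_tail {b : ℝ → ℂ} (hb : Measurable b) {A : ℝ} (hA0 : 0 < A) (hA : HasBw b A) (hsq : ∀ ε : ℝ, 0 < ε →
      ∀ᵐ ω ∂P, Summable fun n : ℕ => amp (θ n ω) ^ 2 / (n : ℝ) ^ (1 + ε)) (ε : ℝ) (hε : 0 < ε) (hε1 : ε < 1) :
    ∀ᵐ ω ∂P, ∃ k₀ : ℕ, ∀ k ≥ k₀, ∀ K : ℕ, K ≤ 2 ^ (k + 1) → ∀ u : ℝ, (2 : ℝ) ^ (-(k : ℝ)) ≤ u →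
      u ≤ Real.exp ((2 : ℝ) ^ ((k : ℝ) * (1 - ε))) →
      ‖∑ n ∈ Ico (2 ^ k) K, tw b (θ n ω) n u‖ ≤ (2 : ℝ) ^ (-(k : ℝ) * ε / 8) := by
  classical
  -- parameters
  let t : ℕ → ℝ := fun k => (2 : ℝ) ^ (-(k : ℝ) * ε / 8) / 4
  let v : ℕ → ℝ := fun k => (2 : ℝ) ^ (-((k : ℝ) * (1 - ε / 2)))
  let Mk : ℕ → ℕ := fun k => ⌈Real.exp ((2 : ℝ) ^ ((k : ℝ) * (1 - ε))) * 2 ^ (5 * k)⌉₊ + 1
  let V : ℕ → Ω → ℝ := fun k ω => ∑ n ∈ Ico (2 ^ k) (2 ^ (k + 1)), (Bw A n * amp (θ n ω)) ^ 2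
  let Bad : ℕ → Set Ω := fun k => ⋃ K ∈ Icc (2 ^ k) (2 ^ (k + 1)), ⋃ i ∈ range (Mk k),
    {ω | 2 * t k < ‖∑ n ∈ Ico (2 ^ k) K, tw b (θ n ω) n (((i : ℝ) + 1) / 2 ^ (5 * k))‖ ∧ V k ω ≤ v k}
  have ht0 : ∀ k, 0 < t k := fun k => by positivity
  have hv0 : ∀ k, 0 < v k := fun k => by positivity
  have hBad : ∀ k, 2 ≤ k → P (Bad k) ≤ ENNReal.ofReal (24 * (2 : ℝ) ^ (6 * k) * Real.exp ((2 : ℝ) ^ ((k : ℝ) * (1 - ε)) -
      (2 : ℝ) ^ ((k : ℝ) * (1 - 3 * ε / 4)) / 128)) := by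
    intro k hk
    have h1 : P (Bad k) ≤ ∑ K ∈ Icc (2 ^ k) (2 ^ (k + 1)), ∑ i ∈ range (Mk k),
        4 * ENNReal.ofReal (Real.exp (-(t k ^ 2 / (8 * v k)))) := by
      refine (measure_biUnion_finset_le _ _).trans (Finset.sum_le_sum fun K hK => ?_)
      refine (measure_biUnion_finset_le _ _).trans (Finset.sum_le_sum fun i _ => ?_)
      exact pointW_norm P θ hm hi hl hb hA hk (Finset.mem_Icc.1 hK).2 _ (ht0 k) (hv0 k)
    refine h1.trans ?_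
    rw [Finset.sum_const, Finset.sum_const, Nat.card_Icc, Finset.card_range, nsmul_eq_mul, nsmul_eq_mul]
    have h2 : ((2 ^ (k + 1) + 1 - 2 ^ k : ℕ) : ENNReal) * ((Mk k : ℕ) * (4 * ENNReal.ofReal (Real.exp (-(t k ^ 2 / (8 * v k)))))) =
        ENNReal.ofReal (((2 ^ (k + 1) + 1 - 2 ^ k : ℕ) : ℝ) * ((Mk k : ℕ) * (4 * Real.exp (-(t k ^ 2 / (8 * v k)))))) := by
      rw [ENNReal.ofReal_mul (by positivity), ENNReal.ofReal_mul (by positivity), ENNReal.ofReal_mul (by positivity),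
        ENNReal.ofReal_natCast, ENNReal.ofReal_natCast]
      norm_num
    rw [h2]
    apply ENNReal.ofReal_le_ofReal
    have h3 : ((2 ^ (k + 1) + 1 - 2 ^ k : ℕ) : ℝ) ≤ 2 * 2 ^ k := by
      have : 2 ^ (k + 1) + 1 - 2 ^ k ≤ 2 * 2 ^ k := by
        have h4 : 1 ≤ 2 ^ k := Nat.one_le_two_pow
        rw [pow_succ]
        omega
      calc ((2 ^ (k + 1) + 1 - 2 ^ k : ℕ) : ℝ) ≤ ((2 * 2 ^ k : ℕ) : ℝ) := by exact_mod_cast this
        _ = 2 * 2 ^ k := by push_cast; ring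
    have h5 : (1 : ℝ) ≤ Real.exp ((2 : ℝ) ^ ((k : ℝ) * (1 - ε))) * 2 ^ (5 * k) := by
      have h6 : (1 : ℝ) ≤ Real.exp ((2 : ℝ) ^ ((k : ℝ) * (1 - ε))) := Real.one_le_exp (by positivity)
      have h7 : (1 : ℝ) ≤ 2 ^ (5 * k) := one_le_pow₀ (by norm_num)
      nlinarith
    have h8 : ((Mk k : ℕ) : ℝ) ≤ 3 * (Real.exp ((2 : ℝ) ^ ((k : ℝ) * (1 - ε))) * 2 ^ (5 * k)) := by
      simp only [Mk]
      push_cast
      have := Nat.ceil_lt_add_one (a := Real.exp ((2 : ℝ) ^ ((k : ℝ) * (1 - ε))) * 2 ^ (5 * k)) (by positivity)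
      linarith
    have h9 : t k ^ 2 / (8 * v k) = (2 : ℝ) ^ ((k : ℝ) * (1 - 3 * ε / 4)) / 128 := by
      simp only [t, v]
      rw [div_pow, ← Real.rpow_natCast ((2 : ℝ) ^ (-(k : ℝ) * ε / 8)) 2, ← Real.rpow_mul (by norm_num),
        Real.rpow_neg (by norm_num)]
      have h10 : (2 : ℝ) ^ ((k : ℝ) * (1 - 3 * ε / 4)) = (2 : ℝ) ^ (-(k : ℝ) * ε / 8 * ((2 : ℕ) : ℝ)) *
          (2 : ℝ) ^ ((k : ℝ) * (1 - ε / 2)) := by
        rw [← Real.rpow_add (by norm_num)]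
        congr 1
        push_cast
        ring
      rw [h10]
      field_simp
      ring
    calc ((2 ^ (k + 1) + 1 - 2 ^ k : ℕ) : ℝ) * ((Mk k : ℕ) * (4 * Real.exp (-(t k ^ 2 / (8 * v k)))))
        ≤ (2 * 2 ^ k) * (3 * (Real.exp ((2 : ℝ) ^ ((k : ℝ) * (1 - ε))) * 2 ^ (5 * k)) *
            (4 * Real.exp (-(t k ^ 2 / (8 * v k))))) := by
          gcongr
      _ = 24 * (2 : ℝ) ^ (6 * k) * Real.exp ((2 : ℝ) ^ ((k : ℝ) * (1 - ε)) -
            (2 : ℝ) ^ ((k : ℝ) * (1 - 3 * ε / 4)) / 128) := by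
          have hex : ∀ a b : ℝ, Real.exp (a - b) = Real.exp a * Real.exp (-b) := fun a b => by
            rw [← Real.exp_add, sub_eq_add_neg]
          rw [h9, hex]
          have : (2 : ℝ) ^ (6 * k) = 2 ^ k * 2 ^ (5 * k) := by
            rw [← pow_add]
            congr 1
            ring
          rw [this]
          ring
  obtain ⟨k1, hk1⟩ := eventually_atTop.1 (tail_num hε hε1)
  have hsum : ∑' r, P (Bad (r + (k1 + 2))) ≠ ⊤ := by
    have hb : ∀ r, P (Bad (r + (k1 + 2))) ≤ ENNReal.ofReal (Real.exp (-1) ^ r) := by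
      intro r
      refine (hBad _ (by omega)).trans (ENNReal.ofReal_le_ofReal ?_)
      refine (hk1 _ (by omega)).trans ?_
      rw [← Real.exp_nat_mul]
      apply Real.exp_le_exp.2
      push_cast
      have : (0 : ℝ) ≤ k1 := by positivity
      linarith
    have hsm : Summable (fun r : ℕ => Real.exp (-1) ^ r) :=
      summable_geometric_of_lt_one (Real.exp_pos _).le (by rw [Real.exp_lt_one_iff]; norm_num)
    exact ne_top_of_le_ne_top hsm.tsum_ofReal_ne_top (ENNReal.tsum_le_tsum hb)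
  have hbc := ae_eventually_notMem hsum
  filter_upwards [hbc, hsq (ε / 8) (by positivity), ae_box P θ hm hi hl] with ω hev hS hbox
  obtain ⟨r0, hr0⟩ := eventually_atTop.1 hev
  obtain ⟨S, hSdef⟩ : ∃ S : ℝ, S = ∑' n : ℕ, amp (θ n ω) ^ 2 / (n : ℝ) ^ (1 + ε / 8) := ⟨_, rfl⟩
  have hS0 : 0 ≤ S := by
    rw [hSdef]
    exact tsum_nonneg fun n => by positivity
  have hge : ∀ᶠ k : ℕ in atTop, S * (A * ((k : ℝ) + 2)) ^ 2 ≤ (2 : ℝ) ^ ((k : ℝ) * (3 * ε / 8)) := by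
    have hr : (1 : ℝ) < (2 : ℝ) ^ (3 * ε / 8) := Real.one_lt_rpow (by norm_num) (by positivity)
    have h1 : Tendsto (fun k : ℕ => (k : ℝ) ^ 2 / ((2 : ℝ) ^ (3 * ε / 8)) ^ k) atTop (nhds 0) :=
      tendsto_pow_const_div_const_pow_of_one_lt 2 hr
    have h2 : ∀ᶠ k : ℕ in atTop, (k : ℝ) ^ 2 / ((2 : ℝ) ^ (3 * ε / 8)) ^ k ≤ 1 / (9 * (S * A ^ 2 + 1)) :=
      h1.eventually_le_const (by positivity)
    filter_upwards [h2, eventually_ge_atTop 1] with k hk hk1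
    have hk1' : (1 : ℝ) ≤ k := by exact_mod_cast hk1
    have hpos : 0 < ((2 : ℝ) ^ (3 * ε / 8)) ^ k := by positivity
    have e : (2 : ℝ) ^ ((k : ℝ) * (3 * ε / 8)) = ((2 : ℝ) ^ (3 * ε / 8)) ^ k := by
      rw [← Real.rpow_natCast, ← Real.rpow_mul (by norm_num)]
      congr 1
      ring
    rw [e]
    rw [div_le_div_iff₀ hpos (by positivity)] at hk
    have h3 : ((k : ℝ) + 2) ^ 2 ≤ 9 * (k : ℝ) ^ 2 := by nlinarith
    have h4 : S * (A * ((k : ℝ) + 2)) ^ 2 ≤ (k : ℝ) ^ 2 * (9 * (S * A ^ 2 + 1)) := by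
      calc S * (A * ((k : ℝ) + 2)) ^ 2 = S * A ^ 2 * ((k : ℝ) + 2) ^ 2 := by ring
        _ ≤ S * A ^ 2 * (9 * (k : ℝ) ^ 2) := mul_le_mul_of_nonneg_left h3 (by positivity)
        _ ≤ _ := by nlinarith
    linarith
  have hge2 : ∀ᶠ k : ℕ in atTop, 256 * (A * ((k : ℝ) + 2)) * (S + 2) ≤ (2 : ℝ) ^ (2 * k) := by
    have h1 : Tendsto (fun k : ℕ => (k : ℝ) ^ 1 / (4 : ℝ) ^ k) atTop (nhds 0) :=
      tendsto_pow_const_div_const_pow_of_one_lt 1 (by norm_num)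
    have h2 : ∀ᶠ k : ℕ in atTop, (k : ℝ) ^ 1 / (4 : ℝ) ^ k ≤ 1 / (256 * A * 3 * (S + 2)) :=
      h1.eventually_le_const (by positivity)
    filter_upwards [h2, eventually_ge_atTop 1] with k hk hk1
    have hk1' : (1 : ℝ) ≤ k := by exact_mod_cast hk1
    rw [pow_one, div_le_div_iff₀ (by positivity) (by positivity)] at hk
    have e : (2 : ℝ) ^ (2 * k) = (4 : ℝ) ^ k := by
      rw [pow_mul]
      norm_num
    rw [e]
    have h3 : (k : ℝ) + 2 ≤ 3 * k := by linarith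
    calc 256 * (A * ((k : ℝ) + 2)) * (S + 2) ≤ 256 * (A * (3 * k)) * (S + 2) := by gcongr
      _ = k * (256 * A * 3 * (S + 2)) := by ring
      _ ≤ 1 * 4 ^ k := hk
      _ = 4 ^ k := one_mul _
  obtain ⟨k2, hk2⟩ := eventually_atTop.1 hge
  obtain ⟨k3, hk3⟩ := eventually_atTop.1 hge2
  refine ⟨max (max (r0 + (k1 + 2)) k2) (max 4 k3), fun k hk K hK u hu1 hu2 => ?_⟩
  have hk_a : r0 + (k1 + 2) ≤ k := le_trans (le_trans (le_max_left _ _) (le_max_left _ _)) hk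
  have hk_b : k2 ≤ k := le_trans (le_trans (le_max_right _ _) (le_max_left _ _)) hk
  have hk_c : 4 ≤ k := le_trans (le_trans (le_max_left _ _) (le_max_right _ _)) hk
  have hk_d : k3 ≤ k := le_trans (le_trans (le_max_right _ _) (le_max_right _ _)) hk
  have hkr : (4 : ℝ) ≤ k := by exact_mod_cast hk_c
  by_cases hKk : K < 2 ^ k
  · rw [Finset.Ico_eq_empty_of_le hKk.le, Finset.sum_empty, norm_zero]
    positivity
  push Not at hKk
  have hu0 : 0 < u := lt_of_lt_of_le (by positivity) hu1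
  -- facts about n in the block
  have hblk : ∀ n : ℕ, n ∈ Ico (2 ^ k) (2 ^ (k + 1)) → (1 : ℝ) ≤ n ∧ (2 : ℝ) ^ k ≤ n ∧ (n : ℝ) ≤ 2 ^ (k + 1) ∧
      0 ≤ 1 + Real.log n ∧ 1 + Real.log n ≤ (k : ℝ) + 2 := by
    intro n hn
    have hn1 : (2 : ℝ) ^ k ≤ n := by exact_mod_cast (Finset.mem_Ico.1 hn).1
    have hn2 : (n : ℝ) ≤ 2 ^ (k + 1) := by exact_mod_cast (Finset.mem_Ico.1 hn).2.le
    have h1 : (1 : ℝ) ≤ 2 ^ k := one_le_pow₀ (by norm_num)
    have hn0 : (1 : ℝ) ≤ n := h1.trans hn1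
    refine ⟨hn0, hn1, hn2, by linarith [Real.log_nonneg hn0], ?_⟩
    have h2 : Real.log n ≤ Real.log (2 ^ (k + 1)) := Real.log_le_log (by linarith) hn2
    rw [Real.log_pow] at h2
    have h3 := Real.log_two_lt_d9
    push_cast at h2
    nlinarith
  -- V ≤ v
  have hV : V k ω ≤ v k := by
    have h1 : V k ω ≤ ∑ n ∈ Ico (2 ^ k) (2 ^ (k + 1)), amp (θ n ω) ^ 2 / (n : ℝ) ^ (1 + ε / 8) *
        ((A * ((k : ℝ) + 2)) ^ 2 * (2 : ℝ) ^ (-((k : ℝ) * (1 - ε / 8)))) := by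
      refine Finset.sum_le_sum fun n hn => ?_
      obtain ⟨hn1, hn2, hn3, hn4, hn5⟩ := hblk n hn
      have hn0 : (0 : ℝ) < n := by linarith
      have h2 : (n : ℝ) ^ 2 = (n : ℝ) ^ (1 + ε / 8) * (n : ℝ) ^ (1 - ε / 8) := by
        rw [← Real.rpow_add hn0, ← Real.rpow_natCast]
        congr 1
        push_cast
        ring
      have h3 : (2 : ℝ) ^ ((k : ℝ) * (1 - ε / 8)) ≤ (n : ℝ) ^ (1 - ε / 8) := by
        rw [← two_rpow_nat]
        exact Real.rpow_le_rpow (by positivity) hn2 (by linarith)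
      have h4 : (Bw A n * amp (θ n ω)) ^ 2 = (A * (1 + Real.log n)) ^ 2 * (amp (θ n ω) ^ 2 / (n : ℝ) ^ 2) := by
        unfold Bw
        ring
      have h5 : (A * (1 + Real.log n)) ^ 2 ≤ (A * ((k : ℝ) + 2)) ^ 2 :=
        pow_le_pow_left₀ (mul_nonneg hA0.le hn4) (mul_le_mul_of_nonneg_left hn5 hA0.le) 2
      have h6 : amp (θ n ω) ^ 2 / (n : ℝ) ^ 2 ≤ amp (θ n ω) ^ 2 / (n : ℝ) ^ (1 + ε / 8) *
          (2 : ℝ) ^ (-((k : ℝ) * (1 - ε / 8))) := by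
        rw [h2, Real.rpow_neg (by norm_num), ← div_eq_mul_inv, div_div]
        apply div_le_div_of_nonneg_left (by positivity) (by positivity)
        exact mul_le_mul_of_nonneg_left h3 (by positivity)
      rw [h4]
      calc (A * (1 + Real.log n)) ^ 2 * (amp (θ n ω) ^ 2 / (n : ℝ) ^ 2)
          ≤ (A * ((k : ℝ) + 2)) ^ 2 * (amp (θ n ω) ^ 2 / (n : ℝ) ^ (1 + ε / 8) *
            (2 : ℝ) ^ (-((k : ℝ) * (1 - ε / 8)))) := mul_le_mul h5 h6 (by positivity) (by positivity)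
        _ = _ := by ring
    rw [← Finset.sum_mul] at h1
    have h4 : ∑ n ∈ Ico (2 ^ k) (2 ^ (k + 1)), amp (θ n ω) ^ 2 / (n : ℝ) ^ (1 + ε / 8) ≤ S := by
      rw [hSdef]
      exact hS.sum_le_tsum _ fun n _ => by positivity
    have h5 := hk2 k hk_b
    calc V k ω ≤ (∑ n ∈ Ico (2 ^ k) (2 ^ (k + 1)), amp (θ n ω) ^ 2 / (n : ℝ) ^ (1 + ε / 8)) *
          ((A * ((k : ℝ) + 2)) ^ 2 * (2 : ℝ) ^ (-((k : ℝ) * (1 - ε / 8)))) := h1
      _ ≤ S * ((A * ((k : ℝ) + 2)) ^ 2 * (2 : ℝ) ^ (-((k : ℝ) * (1 - ε / 8)))) :=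
          mul_le_mul_of_nonneg_right h4 (by positivity)
      _ = (S * (A * ((k : ℝ) + 2)) ^ 2) * (2 : ℝ) ^ (-((k : ℝ) * (1 - ε / 8))) := by ring
      _ ≤ (2 : ℝ) ^ ((k : ℝ) * (3 * ε / 8)) * (2 : ℝ) ^ (-((k : ℝ) * (1 - ε / 8))) :=
          mul_le_mul_of_nonneg_right h5 (by positivity)
      _ = v k := by
          simp only [v]
          rw [← Real.rpow_add (by norm_num)]
          congr 1
          ring
  -- the net point
  obtain ⟨i, hi1⟩ : ∃ i : ℕ, i + 1 = ⌈u * 2 ^ (5 * k)⌉₊ := by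
    have : 0 < ⌈u * 2 ^ (5 * k)⌉₊ := Nat.ceil_pos.2 (by positivity)
    exact ⟨⌈u * 2 ^ (5 * k)⌉₊ - 1, by omega⟩
  have hiM : i ∈ range (Mk k) := by
    rw [Finset.mem_range]
    have : ⌈u * 2 ^ (5 * k)⌉₊ ≤ ⌈Real.exp ((2 : ℝ) ^ ((k : ℝ) * (1 - ε))) * 2 ^ (5 * k)⌉₊ :=
      Nat.ceil_le_ceil (mul_le_mul_of_nonneg_right hu2 (by positivity))
    simp only [Mk]
    omega
  obtain ⟨w, hw⟩ : ∃ w : ℝ, w = ((i : ℝ) + 1) / 2 ^ (5 * k) := ⟨_, rfl⟩
  have hir : (i : ℝ) + 1 = (⌈u * 2 ^ (5 * k)⌉₊ : ℝ) := by exact_mod_cast hi1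
  have huw : |u - w| ≤ 1 / 2 ^ (5 * k) := by
    have h1 : u * 2 ^ (5 * k) ≤ (i : ℝ) + 1 := by rw [hir]; exact Nat.le_ceil _
    have h2 : (i : ℝ) + 1 ≤ u * 2 ^ (5 * k) + 1 := by
      rw [hir]
      exact (Nat.ceil_lt_add_one (by positivity)).le
    have hp : (0 : ℝ) < 2 ^ (5 * k) := by positivity
    rw [abs_le, hw]
    constructor
    · have : ((i : ℝ) + 1) / 2 ^ (5 * k) ≤ (u * 2 ^ (5 * k) + 1) / 2 ^ (5 * k) := div_le_div_of_nonneg_right h2 hp.le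
      have h3 : (u * 2 ^ (5 * k) + 1) / 2 ^ (5 * k) = u + 1 / 2 ^ (5 * k) := by field_simp
      linarith
    · have : u * 2 ^ (5 * k) / 2 ^ (5 * k) ≤ ((i : ℝ) + 1) / 2 ^ (5 * k) := div_le_div_of_nonneg_right h1 hp.le
      have h3 : u * 2 ^ (5 * k) / 2 ^ (5 * k) = u := by field_simp
      have h4 : (0 : ℝ) ≤ 1 / 2 ^ (5 * k) := by positivity
      linarith
  have hnet : ‖∑ n ∈ Ico (2 ^ k) K, tw b (θ n ω) n w‖ ≤ 2 * t k := by
    have h1 := hr0 (k - (k1 + 2)) (by omega)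
    rw [show k - (k1 + 2) + (k1 + 2) = k by omega] at h1
    by_contra hcon
    push Not at hcon
    apply h1
    simp only [Bad, Set.mem_iUnion]
    refine ⟨K, Finset.mem_Icc.2 ⟨hKk, hK⟩, i, hiM, ?_, hV⟩
    rw [← hw]
    exact hcon
  -- continuity
  have hamp : ∀ n ∈ Ico (2 ^ k) K, amp (θ n ω) + 1 ≤ (S + 2) * 2 ^ (k + 1) := by
    intro n hn
    have hnK := Finset.mem_Ico.1 hn
    have hn2 : n ∈ Ico (2 ^ k) (2 ^ (k + 1)) := Finset.mem_Ico.2 ⟨hnK.1, lt_of_lt_of_le hnK.2 hK⟩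
    obtain ⟨g1, g2, g3, g4, g5⟩ := hblk n hn2
    have hn0 : (0 : ℝ) < n := by linarith
    have h1 : amp (θ n ω) ^ 2 / (n : ℝ) ^ (1 + ε / 8) ≤ S := by
      rw [hSdef]
      exact hS.le_tsum n fun i _ => by positivity
    rw [div_le_iff₀ (by positivity)] at h1
    have h2 : (n : ℝ) ^ (1 + ε / 8) ≤ (n : ℝ) ^ 2 := by
      rw [← Real.rpow_natCast]
      apply Real.rpow_le_rpow_of_exponent_le g1
      push_cast
      linarith
    have h3 : amp (θ n ω) ^ 2 ≤ ((S + 1) * n) ^ 2 := by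
      calc amp (θ n ω) ^ 2 ≤ S * (n : ℝ) ^ 2 := h1.trans (mul_le_mul_of_nonneg_left h2 hS0)
        _ ≤ (S + 1) ^ 2 * (n : ℝ) ^ 2 := mul_le_mul_of_nonneg_right (by nlinarith) (by positivity)
        _ = _ := by ring
    have hAm : 0 ≤ amp (θ n ω) := Finset.sum_nonneg fun j _ => by positivity
    have h4 : amp (θ n ω) ≤ (S + 1) * n :=
      (pow_le_pow_iff_left₀ hAm (by positivity) (by norm_num)).1 h3
    have h5 : (1 : ℝ) ≤ 2 ^ (k + 1) := one_le_pow₀ (by norm_num)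
    have h6 : (S + 1) * n ≤ (S + 1) * 2 ^ (k + 1) := mul_le_mul_of_nonneg_left g3 (by linarith)
    nlinarith
  have hdiff : ‖∑ n ∈ Ico (2 ^ k) K, tw b (θ n ω) n u - ∑ n ∈ Ico (2 ^ k) K, tw b (θ n ω) n w‖ ≤
      (2 : ℝ) ^ (-(k : ℝ) * ε / 8) / 2 := by
    rw [← Finset.sum_sub_distrib]
    have h1 : ∀ n ∈ Ico (2 ^ k) K, ‖tw b (θ n ω) n u - tw b (θ n ω) n w‖ ≤
        (1 / 2 ^ (5 * k)) * (16 * (A * ((k : ℝ) + 2))) * ((S + 2) * 2 ^ (k + 1)) := by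
      intro n hn
      have hnK := Finset.mem_Ico.1 hn
      have hn2 : n ∈ Ico (2 ^ k) (2 ^ (k + 1)) := Finset.mem_Ico.2 ⟨hnK.1, lt_of_lt_of_le hnK.2 hK⟩
      obtain ⟨g1, g2, g3, g4, g5⟩ := hblk n hn2
      have hn1 : 1 ≤ n := le_trans Nat.one_le_two_pow (Finset.mem_Ico.1 hn).1
      refine (tw_lip hb hA hn1 u w (θ n ω) (hbox n)).trans ?_
      have hAm : 0 ≤ amp (θ n ω) := Finset.sum_nonneg fun j _ => by positivity
      have h2 : 4 * Real.pi * n * Bw A n ≤ 16 * (A * ((k : ℝ) + 2)) := by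
        have h3 : 4 * Real.pi * n * Bw A n = 4 * Real.pi * (A * (1 + Real.log n)) := by
          unfold Bw
          field_simp
        rw [h3]
        have h4 : A * (1 + Real.log n) ≤ A * ((k : ℝ) + 2) := mul_le_mul_of_nonneg_left g5 hA0.le
        have h5 : 0 ≤ A * (1 + Real.log n) := mul_nonneg hA0.le g4
        have h6 := Real.pi_lt_four
        have h7 := Real.pi_pos
        nlinarith
      have h8 : 0 ≤ 4 * Real.pi * n * Bw A n := by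
        unfold Bw
        have : 0 ≤ A * (1 + Real.log n) := mul_nonneg hA0.le g4
        positivity
      exact mul_le_mul (mul_le_mul huw h2 h8 (by positivity)) (hamp n hn) (by linarith) (by positivity)
    refine (norm_sum_le _ _).trans ((Finset.sum_le_sum h1).trans ?_)
    rw [Finset.sum_const, Nat.card_Ico, nsmul_eq_mul]
    have h2 : ((K - 2 ^ k : ℕ) : ℝ) ≤ 2 ^ k := by
      have : K - 2 ^ k ≤ 2 ^ k := by
        rw [pow_succ] at hK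
        omega
      exact_mod_cast this
    have h3 : ((K - 2 ^ k : ℕ) : ℝ) * ((1 / 2 ^ (5 * k)) * (16 * (A * ((k : ℝ) + 2))) * ((S + 2) * 2 ^ (k + 1))) ≤
        2 ^ k * ((1 / 2 ^ (5 * k)) * (16 * (A * ((k : ℝ) + 2))) * ((S + 2) * 2 ^ (k + 1))) :=
      mul_le_mul_of_nonneg_right h2 (by positivity)
    have h4 : (2 : ℝ) ^ k * ((1 / 2 ^ (5 * k)) * (16 * (A * ((k : ℝ) + 2))) * ((S + 2) * 2 ^ (k + 1))) =
        256 * (A * ((k : ℝ) + 2)) * (S + 2) / (8 * 2 ^ (3 * k)) := by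
      have : (2 : ℝ) ^ (5 * k) = 2 ^ (3 * k) * (2 ^ k * 2 ^ k) := by
        rw [← pow_add, ← pow_add]
        congr 1
        ring
      rw [this, pow_succ]
      field_simp
      norm_num
    have h5 : 256 * (A * ((k : ℝ) + 2)) * (S + 2) / (8 * 2 ^ (3 * k)) ≤ 1 / 2 ^ k / 2 := by
      have h6 := hk3 k hk_d
      rw [div_div, div_le_div_iff₀ (by positivity) (by positivity)]
      have h7 : (2 : ℝ) ^ (3 * k) = 2 ^ k * 2 ^ (2 * k) := by
        rw [← pow_add]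
        congr 1
        ring
      rw [h7]
      have h8 : (0 : ℝ) < 2 ^ k := by positivity
      have h9 : 256 * (A * ((k : ℝ) + 2)) * (S + 2) * (2 ^ k * 2) ≤ 2 ^ (2 * k) * (2 ^ k * 2) :=
        mul_le_mul_of_nonneg_right h6 (by positivity)
      nlinarith [show (0 : ℝ) ≤ 2 ^ (2 * k) * 2 ^ k by positivity]
    have h6 : (1 : ℝ) / 2 ^ k ≤ (2 : ℝ) ^ (-(k : ℝ) * ε / 8) := by
      have h7 : (1 : ℝ) / 2 ^ k = (2 : ℝ) ^ (-(k : ℝ)) := by
        rw [Real.rpow_neg (by norm_num), Real.rpow_natCast, one_div]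
      rw [h7]
      apply Real.rpow_le_rpow_of_exponent_le (by norm_num)
      nlinarith
    rw [h4] at h3
    linarith
  have hfin : ‖∑ n ∈ Ico (2 ^ k) K, tw b (θ n ω) n u‖ ≤
      ‖∑ n ∈ Ico (2 ^ k) K, tw b (θ n ω) n u - ∑ n ∈ Ico (2 ^ k) K, tw b (θ n ω) n w‖ +
        ‖∑ n ∈ Ico (2 ^ k) K, tw b (θ n ω) n w‖ := by
    have := norm_add_le (∑ n ∈ Ico (2 ^ k) K, tw b (θ n ω) n u - ∑ n ∈ Ico (2 ^ k) K, tw b (θ n ω) n w)
      (∑ n ∈ Ico (2 ^ k) K, tw b (θ n ω) n w)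
    rwa [sub_add_cancel] at this
  have ht : 2 * t k = (2 : ℝ) ^ (-(k : ℝ) * ε / 8) / 2 := by simp only [t]; ring
  linarith

/-- block B3 with a weight, in the notation of the project -/
theorem tailW_of {b : ℝ → ℂ} {m : ℝ} (hW : IsW b m) (hsq : ∀ ε : ℝ, 0 < ε →
      ∀ᵐ ω ∂P, Summable fun n : ℕ => amp (θ n ω) ^ 2 / (n : ℝ) ^ (1 + ε)) (ε : ℝ) (hε : 0 < ε) (hε1 : ε < 1) :
    ∀ᵐ ω ∂P, ∃ k₀ : ℕ, ∀ k ≥ k₀, ∀ K : ℕ, K ≤ 2 ^ (k + 1) → ∀ u : ℝ, (2 : ℝ) ^ (-(k : ℝ)) ≤ u →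
      u ≤ Real.exp ((2 : ℝ) ^ ((k : ℝ) * (1 - ε))) →
      ‖∑ n ∈ Ico (2 ^ k) K, (∑ j, b (ord (fun n => θ n ω) n j) *
          Complex.exp ((u * ord (fun n => θ n ω) n j : ℝ) * Complex.I) / dz (θ n ω) j -
        (1 / (2 * Real.pi) : ℝ) * ∫ t in (2 * Real.pi * n)..(2 * Real.pi * (n + 1)),
          Complex.exp ((u * t : ℝ) * Complex.I) * b t)‖ ≤ (2 : ℝ) ^ (-(k : ℝ) * ε / 8) := by
  obtain ⟨A, hA⟩ := hW.bd
  have h1 := tw_tail P θ hm hi hl hW.meas (A := 4 * (|A| + 1)) (by positivity) (hasBw_of_bd hA) hsq ε hε hε1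
  filter_upwards [h1] with ω hω
  obtain ⟨k₀, hk₀⟩ := hω
  refine ⟨k₀, fun k hk K hK u hu1 hu2 => ?_⟩
  refine le_trans (le_of_eq ?_) (hk₀ k hk K hK u hu1 hu2)
  congr 1
  refine Finset.sum_congr rfl fun n _ => ?_
  unfold tw
  rw [mh_bw, fh_bw b (fun n => θ n ω) n u]

end assembly

end Pool.Agent.Helper66.RMT
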