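import Pool.Agent.Helper96.RMT.Tail2
import Pool.Agent.Helper95.RMT.Mean
import Pool.Agent.Helper11.RMT.A4

/-!
# Project RMT (MP_a499ba_nt): A4c and B3 without hypotheses
-/

set_option autoImplicit false

namespace Pool.Agent.Helper66.RMT

open MeasureTheory ProbabilityTheory Filter Finset

theorem mgf_all : MGF := fun N hN u hu α l =>
  block_mgf_of (cue_prob N) (ae_distinct N) (fun θ h => lagr hN θ h) u hu α l

end Pool.Agent.Helper66.RMT
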