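import Pool.Agent.Helper96.RMT.RotW
import Pool.Agent.Helper96.RMT.Mgf

/-!
# Project RMT (MP_a499ba_nt), step 2: fluctuations of the tail, with a weight
-/

set_option autoImplicit false

namespace Pool.Agent.Helper66.RMT

open MeasureTheory ProbabilityTheory Filter Finset

/-- the weight on the block `n` -/
noncomputable def bw (b : ℝ → ℂ) (n : ℕ) (u t : ℝ) : ℂ :=
  Complex.exp ((u * (2 * Real.pi * n + t) : ℝ) * Complex.I) * b (2 * Real.pi * n + t)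

/-- one centred term -/
noncomputable def tw (b : ℝ → ℂ) {N : ℕ} (θ : Fin N → ℝ) (n : ℕ) (u : ℝ) : ℂ :=
  fh (bw b n u) θ - mh (bw b n u)

/-- the bound for the weight -/
noncomputable def Bw (A : ℝ) (n : ℕ) : ℝ := A * (1 + Real.log n) / n

/-- the bound holds -/
def HasBw (b : ℝ → ℂ) (A : ℝ) : Prop :=
  ∀ n : ℕ, 1 ≤ n → ∀ t, 0 ≤ t → t < 2 * Real.pi → ‖b (2 * Real.pi * n + t)‖ ≤ Bw A n

lemma meas_bw {b : ℝ → ℂ} (hb : Measurable b) (n : ℕ) (u : ℝ) : Measurable (bw b n u) := by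
  unfold bw
  have h1 : Measurable fun t : ℝ => b (2 * Real.pi * n + t) := hb.comp (measurable_id.const_add _)
  have h2 : Measurable fun t : ℝ => Complex.exp ((u * (2 * Real.pi * n + t) : ℝ) * Complex.I) := by fun_prop
  exact h2.mul h1

lemma norm_bw (b : ℝ → ℂ) (n : ℕ) (u t : ℝ) : ‖bw b n u t‖ = ‖b (2 * Real.pi * n + t)‖ := by
  unfold bw
  rw [norm_mul, Complex.norm_exp_ofReal_mul_I, one_mul]

theorem mgfW {N : ℕ} (hN : 1 ≤ N) {h : ℝ → ℂ} (hh : Measurable h) {A : ℝ}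
    (hA : ∀ x, 0 ≤ x → x < 2 * Real.pi → ‖h x‖ ≤ A) (α l : ℝ) :
    ∫⁻ θ, ENNReal.ofReal (Real.exp (l * (Complex.exp (α * Complex.I) * (fh h θ - mh h)).re -
      2 * l ^ 2 * (A * amp θ) ^ 2)) ∂(cue N) ≤ 1 :=
  block_mgfW_of (cue_prob N) (ae_distinct N) (fun θ h => lagr hN θ h) hh hA α l

section assembly

variable {Ω : Type*} [MeasurableSpace Ω] (P : Measure Ω) [IsProbabilityMeasure P]
  (θ : (n : ℕ) → Ω → (Fin (sz n) → ℝ)) (hm : ∀ n, Measurable (θ n)) (hi : iIndepFun θ P)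
  (hl : ∀ n, P.map (θ n) = cue (sz n))

include hm hi hl

lemma pointW {b : ℝ → ℂ} (hb : Measurable b) {A : ℝ} (hA : HasBw b A) {k K : ℕ} (hk : 2 ≤ k)
    (hK : K ≤ 2 ^ (k + 1)) (u α : ℝ) {t v : ℝ} (ht : 0 < t) (hv : 0 < v) :
    P {ω | t ≤ (Complex.exp (α * Complex.I) * ∑ n ∈ Ico (2 ^ k) K, tw b (θ n ω) n u).re ∧
      ∑ n ∈ Ico (2 ^ k) (2 ^ (k + 1)), (Bw A n * amp (θ n ω)) ^ 2 ≤ v} ≤
      ENNReal.ofReal (Real.exp (-(t ^ 2 / (8 * v)))) := by
  have h4 : ∀ n ∈ Ico (2 ^ k) K, 4 ≤ n := by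
    intro n hn
    have h1 := (Finset.mem_Ico.1 hn).1
    have h2 : 2 ^ 2 ≤ 2 ^ k := Nat.pow_le_pow_right (by norm_num) hk
    omega
  obtain ⟨l, hl0⟩ : ∃ l : ℝ, l = t / (4 * v) := ⟨_, rfl⟩
  let H : (n : ℕ) → (Fin (sz n) → ℝ) → ENNReal := fun n ϑ => ENNReal.ofReal (Real.exp (l *
    (Complex.exp (α * Complex.I) * (fh (bw b n u) ϑ - mh (bw b n u))).re - 2 * l ^ 2 * (Bw A n * amp ϑ) ^ 2))
  have hH : ∀ n, Measurable (H n) := by
    intro n
    have h1 := meas_fh (meas_bw hb n u) (sz n)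
    have h2 := meas_ampM (sz n)
    exact (Real.measurable_exp.comp (((Complex.measurable_re.comp ((h1.sub_const _).const_mul _)).const_mul _).sub
      (((h2.const_mul _).pow_const _).const_mul _))).ennreal_ofReal
  have hind := hi.comp H hH
  have hprod : ∫⁻ ω, ∏ n ∈ Ico (2 ^ k) K, (H n (θ n ω)) ∂P ≤ 1 := by
    have h1 := lintegral_prod_eq_prod_lintegral_of_indepFun (μ := P) (Ico (2 ^ k) K) (fun n => H n ∘ θ n) hind
      (fun n => (hH n).comp (hm n))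
    simp only [Function.comp] at h1
    rw [h1]
    refine Finset.prod_le_one' fun n hn => ?_
    rw [← lintegral_map (hH n) (hm n), hl n]
    exact mgfW (sz_pos (h4 n hn)) (meas_bw hb n u)
      (fun x hx0 hx1 => by rw [norm_bw]; exact hA n (by have := h4 n hn; omega) x hx0 hx1) α l
  have hPhi : Measurable (fun ω => ∏ n ∈ Ico (2 ^ k) K, (H n (θ n ω))) :=
    Finset.measurable_prod _ fun n _ => (hH n).comp (hm n)
  have hsub : {ω | t ≤ (Complex.exp (α * Complex.I) * ∑ n ∈ Ico (2 ^ k) K, tw b (θ n ω) n u).re ∧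
      ∑ n ∈ Ico (2 ^ k) (2 ^ (k + 1)), (Bw A n * amp (θ n ω)) ^ 2 ≤ v} ⊆
      {ω | ENNReal.ofReal (Real.exp (t ^ 2 / (8 * v))) ≤ ∏ n ∈ Ico (2 ^ k) K, (H n (θ n ω))} := by
    rintro ω ⟨h1, h2⟩
    change ENNReal.ofReal (Real.exp (t ^ 2 / (8 * v))) ≤ ∏ n ∈ Ico (2 ^ k) K, (H n (θ n ω))
    simp only [H]
    rw [← ENNReal.ofReal_prod_of_nonneg (fun n _ => (Real.exp_pos _).le), ← Real.exp_sum]
    apply ENNReal.ofReal_le_ofReal
    apply Real.exp_le_exp.2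
    rw [Finset.sum_sub_distrib]
    have h3 : ∑ n ∈ Ico (2 ^ k) K, l *
        (Complex.exp (α * Complex.I) * (fh (bw b n u) (θ n ω) - mh (bw b n u))).re =
        l * (Complex.exp (α * Complex.I) * ∑ n ∈ Ico (2 ^ k) K, tw b (θ n ω) n u).re := by
      rw [Finset.mul_sum, Complex.re_sum, Finset.mul_sum]
      rfl
    have h5 : ∑ n ∈ Ico (2 ^ k) K, 2 * l ^ 2 * (Bw A n * amp (θ n ω)) ^ 2 ≤ 2 * l ^ 2 * v := by
      rw [← Finset.mul_sum]
      refine mul_le_mul_of_nonneg_left (le_trans ?_ h2) (by positivity)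
      exact Finset.sum_le_sum_of_subset_of_nonneg (Finset.Ico_subset_Ico_right hK) fun n _ _ => by positivity
    rw [h3]
    have hl1 : 0 < l := by rw [hl0]; positivity
    have h6 : l * t ≤ l * (Complex.exp (α * Complex.I) * ∑ n ∈ Ico (2 ^ k) K, tw b (θ n ω) n u).re :=
      mul_le_mul_of_nonneg_left h1 hl1.le
    have h7 : t ^ 2 / (8 * v) = l * t - 2 * l ^ 2 * v := by
      rw [hl0]
      field_simp
      ring
    linarith
  refine (measure_mono hsub).trans ?_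
  have h8 := mul_meas_ge_le_lintegral (μ := P) hPhi (ENNReal.ofReal (Real.exp (t ^ 2 / (8 * v))))
  have h9 := h8.trans hprod
  have hne : ENNReal.ofReal (Real.exp (t ^ 2 / (8 * v))) ≠ 0 := by
    rw [Ne, ENNReal.ofReal_eq_zero, not_le]
    exact Real.exp_pos _
  rw [Real.exp_neg, ENNReal.ofReal_inv_of_pos (Real.exp_pos _)]
  rw [ENNReal.le_inv_iff_mul_le, mul_comm]
  exact h9

lemma pointW_norm {b : ℝ → ℂ} (hb : Measurable b) {A : ℝ} (hA : HasBw b A) {k K : ℕ} (hk : 2 ≤ k)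
    (hK : K ≤ 2 ^ (k + 1)) (u : ℝ) {t v : ℝ} (ht : 0 < t) (hv : 0 < v) :
    P {ω | 2 * t < ‖∑ n ∈ Ico (2 ^ k) K, tw b (θ n ω) n u‖ ∧
      ∑ n ∈ Ico (2 ^ k) (2 ^ (k + 1)), (Bw A n * amp (θ n ω)) ^ 2 ≤ v} ≤
      4 * ENNReal.ofReal (Real.exp (-(t ^ 2 / (8 * v)))) := by
  let E : ℝ → Set Ω := fun α => {ω | t ≤ (Complex.exp (α * Complex.I) * ∑ n ∈ Ico (2 ^ k) K, tw b (θ n ω) n u).re ∧
      ∑ n ∈ Ico (2 ^ k) (2 ^ (k + 1)), (Bw A n * amp (θ n ω)) ^ 2 ≤ v}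
  have hE : ∀ α, P (E α) ≤ ENNReal.ofReal (Real.exp (-(t ^ 2 / (8 * v)))) := fun α =>
    pointW P θ hm hi hl hb hA hk hK u α ht hv
  have hsub : {ω | 2 * t < ‖∑ n ∈ Ico (2 ^ k) K, tw b (θ n ω) n u‖ ∧
      ∑ n ∈ Ico (2 ^ k) (2 ^ (k + 1)), (Bw A n * amp (θ n ω)) ^ 2 ≤ v} ⊆
      (E 0 ∪ E Real.pi) ∪ (E (Real.pi / 2) ∪ E (-(Real.pi / 2))) := by
    rintro ω ⟨h1, h2⟩
    obtain ⟨z, hz⟩ : ∃ z : ℂ, z = ∑ n ∈ Ico (2 ^ k) K, tw b (θ n ω) n u := ⟨_, rfl⟩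
    rw [← hz] at h1
    have h3 := Complex.norm_le_abs_re_add_abs_im z
    have e0 : (Complex.exp ((0 : ℝ) * Complex.I) * z).re = z.re := by simp
    have e1 : (Complex.exp ((Real.pi : ℝ) * Complex.I) * z).re = -z.re := by
      rw [Complex.exp_pi_mul_I]
      simp
    have e2 : (Complex.exp (((Real.pi / 2 : ℝ) : ℂ) * Complex.I) * z).re = -z.im := by
      have : Complex.exp (((Real.pi / 2 : ℝ) : ℂ) * Complex.I) = Complex.I := by
        rw [Complex.exp_mul_I, ← Complex.ofReal_cos, ← Complex.ofReal_sin, Real.cos_pi_div_two, Real.sin_pi_div_two]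
        simp
      rw [this]
      simp
    have e3 : (Complex.exp (((-(Real.pi / 2) : ℝ) : ℂ) * Complex.I) * z).re = z.im := by
      have : Complex.exp (((-(Real.pi / 2) : ℝ) : ℂ) * Complex.I) = -Complex.I := by
        rw [Complex.exp_mul_I, ← Complex.ofReal_cos, ← Complex.ofReal_sin, Real.cos_neg, Real.sin_neg,
          Real.cos_pi_div_two, Real.sin_pi_div_two]
        simp
      rw [this]
      simp
    have h4 : t < |z.re| ∨ t < |z.im| := by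
      by_contra hcon
      push Not at hcon
      linarith [hcon.1, hcon.2]
    rcases h4 with h4 | h4
    · left
      rcases lt_abs.1 h4 with h5 | h5
      · left
        refine ⟨?_, h2⟩
        rw [← hz, e0]
        exact h5.le
      · right
        refine ⟨?_, h2⟩
        rw [← hz, e1]
        exact h5.le
    · right
      rcases lt_abs.1 h4 with h5 | h5
      · right
        refine ⟨?_, h2⟩
        rw [← hz, e3]
        exact h5.le
      · left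
        refine ⟨?_, h2⟩
        rw [← hz, e2]
        exact h5.le
  refine (measure_mono hsub).trans ?_
  refine (measure_union_le _ _).trans ?_
  refine (add_le_add (measure_union_le _ _) (measure_union_le _ _)).trans ?_
  refine (add_le_add (add_le_add (hE _) (hE _)) (add_le_add (hE _) (hE _))).trans (le_of_eq ?_)
  ring

end assembly

/-! ### Deterministic continuity -/

lemma bw_lip (b : ℝ → ℂ) {A : ℝ} (hA : HasBw b A) {n : ℕ} (hn : 1 ≤ n) (u u' : ℝ) {t : ℝ} (h0 : 0 ≤ t)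
    (h1 : t < 2 * Real.pi) :
    ‖bw b n u t - bw b n u' t‖ ≤ |u - u'| * (4 * Real.pi * n * Bw A n) := by
  unfold bw
  rw [← sub_mul, norm_mul]
  have hn1 : (1 : ℝ) ≤ n := by exact_mod_cast hn
  have h2 := norm_exp_sub_le (u * (2 * Real.pi * n + t)) (u' * (2 * Real.pi * n + t))
  have hp := two_pi_pos'
  have hs : (0 : ℝ) ≤ 2 * Real.pi * n + t := by positivity
  rw [← sub_mul, abs_mul, abs_of_nonneg hs] at h2
  have h3 : 2 * Real.pi * n + t ≤ 4 * Real.pi * n := by nlinarith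
  have h4 := hA n hn t h0 h1
  calc ‖Complex.exp ((u * (2 * Real.pi * n + t) : ℝ) * Complex.I) -
        Complex.exp ((u' * (2 * Real.pi * n + t) : ℝ) * Complex.I)‖ * ‖b (2 * Real.pi * n + t)‖
      ≤ (|u - u'| * (4 * Real.pi * n)) * Bw A n :=
        mul_le_mul (h2.trans (mul_le_mul_of_nonneg_left h3 (abs_nonneg _))) h4 (norm_nonneg _) (by positivity)
    _ = _ := by ring

lemma fh_sub_le {h h' : ℝ → ℂ} {c : ℝ} (hc : ∀ t, 0 ≤ t → t < 2 * Real.pi → ‖h t - h' t‖ ≤ c) {N : ℕ}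
    (θ : Fin N → ℝ) (hθ : ∀ j, 0 ≤ θ j ∧ θ j < 2 * Real.pi) : ‖fh h θ - fh h' θ‖ ≤ c * amp θ := by
  unfold fh amp
  rw [← Finset.sum_sub_distrib, Finset.mul_sum]
  refine (norm_sum_le _ _).trans (Finset.sum_le_sum fun j _ => ?_)
  rw [← sub_div, norm_div, mul_one_div]
  exact div_le_div_of_nonneg_right (hc _ (hθ j).1 (hθ j).2) (norm_nonneg _)

lemma int_bdd {h : ℝ → ℂ} (hh : Measurable h) {A : ℝ} (hA : ∀ x, 0 ≤ x → x < 2 * Real.pi → ‖h x‖ ≤ A) :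
    Integrable h unif := by
  refine Integrable.of_bound (C := A) hh.aestronglyMeasurable ?_
  filter_upwards [ae_unif] with x hx
  exact hA x hx.1 hx.2

lemma mh_sub_le {h h' : ℝ → ℂ} (hh : Measurable h) (hh' : Measurable h') {A : ℝ}
    (hA : ∀ x, 0 ≤ x → x < 2 * Real.pi → ‖h x‖ ≤ A) (hA' : ∀ x, 0 ≤ x → x < 2 * Real.pi → ‖h' x‖ ≤ A) {c : ℝ}
    (hc : ∀ t, 0 ≤ t → t < 2 * Real.pi → ‖h t - h' t‖ ≤ c) : ‖mh h - mh h'‖ ≤ c := by
  unfold mh
  rw [← integral_sub (int_bdd hh hA) (int_bdd hh' hA')]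
  refine (norm_integral_le_of_norm_le_const (C := c) ?_).trans ?_
  · filter_upwards [ae_unif] with x hx
    exact hc x hx.1 hx.2
  · simp

lemma tw_lip {b : ℝ → ℂ} (hb : Measurable b) {A : ℝ} (hA : HasBw b A) {n : ℕ} (hn : 1 ≤ n) (u u' : ℝ) {N : ℕ}
    (θ : Fin N → ℝ) (hθ : ∀ j, 0 ≤ θ j ∧ θ j < 2 * Real.pi) :
    ‖tw b θ n u - tw b θ n u'‖ ≤ |u - u'| * (4 * Real.pi * n * Bw A n) * (amp θ + 1) := by
  unfold tw
  have hc : ∀ t, 0 ≤ t → t < 2 * Real.pi → ‖bw b n u t - bw b n u' t‖ ≤ |u - u'| * (4 * Real.pi * n * Bw A n) :=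
    fun t h0 h1 => bw_lip b hA hn u u' h0 h1
  have hb1 : ∀ w x, 0 ≤ x → x < 2 * Real.pi → ‖bw b n w x‖ ≤ Bw A n := fun w x h0 h1 => by
    rw [norm_bw]
    exact hA n hn x h0 h1
  have h1 := fh_sub_le hc θ hθ
  have h2 := mh_sub_le (meas_bw hb n u) (meas_bw hb n u') (hb1 u) (hb1 u') hc
  have e : fh (bw b n u) θ - mh (bw b n u) - (fh (bw b n u') θ - mh (bw b n u')) =
      (fh (bw b n u) θ - fh (bw b n u') θ) - (mh (bw b n u) - mh (bw b n u')) := by ring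
  rw [e]
  refine (norm_sub_le _ _).trans ?_
  linarith

end Pool.Agent.Helper66.RMT
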