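import Mathlib

/-!
# Project RMT (MP_a499ba_nt), step 3: choice of phases

A point below the support function of the sums `(Re ∑ c z, Re ∑ c w z)`, `|z_i| ≤ 1`, is almost reached with
`|z_i| = 1`.
-/

set_option autoImplicit false

namespace Pool.Agent.Helper66.RMT

open Finset

/-- signs -/
lemma signs {ι : Type*} [DecidableEq ι] (V : ι → ℂ) (S : Finset ι) :
    ∃ s : ι → ℝ, (∀ i, s i = 1 ∨ s i = -1) ∧
      Complex.normSq (∑ i ∈ S, (s i : ℂ) * V i) ≤ ∑ i ∈ S, Complex.normSq (V i) := by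
  induction S using Finset.induction_on with
  | empty => exact ⟨fun _ => 1, fun _ => Or.inl rfl, by simp⟩
  | insert j S hj ih =>
    obtain ⟨s, hs, hle⟩ := ih
    set W : ℂ := ∑ i ∈ S, (s i : ℂ) * V i with hW
    have hsum : ∀ e : ℝ, ∑ i ∈ insert j S, ((Function.update s j e i : ℝ) : ℂ) * V i = (e : ℂ) * V j + W := by
      intro e
      rw [Finset.sum_insert hj, Function.update_self, hW]
      congr 1
      refine Finset.sum_congr rfl fun i hi => ?_
      have hne : i ≠ j := by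
        intro h
        rw [h] at hi
        exact hj hi
      rw [Function.update_of_ne hne]
    have key : ∀ e : ℝ, e = 1 ∨ e = -1 → e * (V j * (starRingEnd ℂ) W).re ≤ 0 →
        Complex.normSq ((e : ℂ) * V j + W) ≤ Complex.normSq (V j) + ∑ i ∈ S, Complex.normSq (V i) := by
      intro e he hn
      rw [Complex.normSq_add, Complex.normSq_mul, Complex.normSq_ofReal]
      have h1 : e * e = 1 := by rcases he with h | h <;> rw [h] <;> norm_num
      have h2 : ((e : ℂ) * V j * (starRingEnd ℂ) W).re = e * (V j * (starRingEnd ℂ) W).re := by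
        rw [mul_assoc, Complex.re_ofReal_mul]
      rw [h1, one_mul, h2]
      linarith
    rw [Finset.sum_insert hj]
    rcases le_total ((V j * (starRingEnd ℂ) W).re) 0 with h | h
    · refine ⟨Function.update s j 1, fun i => ?_, ?_⟩
      · by_cases hi : i = j
        · subst hi; left; simp
        · rw [Function.update_of_ne hi]; exact hs i
      · rw [hsum]
        exact key 1 (Or.inl rfl) (by linarith)
    · refine ⟨Function.update s j (-1), fun i => ?_, ?_⟩
      · by_cases hi : i = j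
        · subst hi; right; simp
        · rw [Function.update_of_ne hi]; exact hs i
      · rw [hsum]
        exact key (-1) (Or.inr rfl) (by linarith)

/-- a point of the disc is the middle of two points of the circle -/
lemma chord (z : ℂ) (hz : ‖z‖ ≤ 1) : ∃ d : ℂ, ‖d‖ ≤ 1 ∧ ‖z + d‖ = 1 ∧ ‖z - d‖ = 1 := by
  by_cases h0 : z = 0
  · exact ⟨1, by simp, by simp [h0], by simp [h0]⟩
  · have hn : 0 < ‖z‖ := norm_pos_iff.2 h0
    have hr : 0 ≤ 1 - ‖z‖ ^ 2 := by nlinarith
    have hs : Real.sqrt (1 - ‖z‖ ^ 2) ^ 2 = 1 - ‖z‖ ^ 2 := Real.sq_sqrt hr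
    have e1 : ∀ t : ℝ, ‖(1 : ℂ) + (t : ℂ) * Complex.I‖ ^ 2 = 1 + t ^ 2 := by
      intro t
      rw [← Complex.normSq_eq_norm_sq]
      simp [Complex.normSq_apply]
      ring
    obtain ⟨r, hr0⟩ : ∃ r : ℝ, r = Real.sqrt (1 - ‖z‖ ^ 2) / ‖z‖ := ⟨_, rfl⟩
    have hr2 : ‖z‖ ^ 2 * (1 + r ^ 2) = 1 := by
      rw [hr0, div_pow, hs]
      field_simp
      ring
    refine ⟨z * ((r : ℂ) * Complex.I), ?_, ?_, ?_⟩
    · rw [norm_mul, norm_mul, Complex.norm_I, mul_one, Complex.norm_real, Real.norm_eq_abs]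
      have h1 : (‖z‖ * |r|) ^ 2 ≤ 1 := by
        rw [mul_pow, sq_abs]
        nlinarith [sq_nonneg ‖z‖]
      exact (sq_le_one_iff₀ (by positivity)).1 h1
    · have e2 : z + z * ((r : ℂ) * Complex.I) = z * (1 + (r : ℂ) * Complex.I) := by ring
      have h1 : ‖z + z * ((r : ℂ) * Complex.I)‖ ^ 2 = 1 := by
        rw [e2, norm_mul, mul_pow, e1, hr2]
      exact (pow_eq_one_iff_of_nonneg (norm_nonneg _) two_ne_zero).1 h1
    · have e2 : z - z * ((r : ℂ) * Complex.I) = z * (1 + ((-r : ℝ) : ℂ) * Complex.I) := by push_cast; ring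
      have h1 : ‖z - z * ((r : ℂ) * Complex.I)‖ ^ 2 = 1 := by
        rw [e2, norm_mul, mul_pow, e1, neg_sq, hr2]
      exact (pow_eq_one_iff_of_nonneg (norm_nonneg _) two_ne_zero).1 h1

/-- a phase -/
lemma phase (v : ℂ) : ∃ z : ℂ, ‖z‖ ≤ 1 ∧ (v * z).re = ‖v‖ := by
  by_cases h0 : v = 0
  · exact ⟨1, by simp, by simp [h0]⟩
  · have hn : 0 < ‖v‖ := norm_pos_iff.2 h0
    refine ⟨(starRingEnd ℂ) v / ‖v‖, ?_, ?_⟩
    · rw [norm_div, RCLike.norm_conj, Complex.norm_real, norm_norm, div_self hn.ne']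
    · have : v * ((starRingEnd ℂ) v / ‖v‖) = ((‖v‖ : ℝ) : ℂ) := by
        rw [← mul_div_assoc, Complex.mul_conj, Complex.normSq_eq_norm_sq]
        push_cast
        have : (‖v‖ : ℂ) ≠ 0 := by exact_mod_cast hn.ne'
        field_simp
      rw [this, Complex.ofReal_re]

theorem phases {ι : Type*} [Fintype ι] (c w : ι → ℂ) (y₁ y₂ δ : ℝ) (hδ : 0 ≤ δ)
    (h : ∀ a b : ℝ, a * y₁ + b * y₂ ≤ ∑ i, ‖c i‖ * ‖(a : ℂ) + b * w i‖ + δ * (|a| + |b|)) :
    ∃ z : ι → ℂ, (∀ i, ‖z i‖ = 1) ∧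
      |(∑ i, c i * z i).re - y₁| ≤ 2 * δ + 2 * Real.sqrt (∑ i, ‖c i‖ ^ 2 * (1 + ‖w i‖ ^ 2)) ∧
      |(∑ i, c i * w i * z i).re - y₂| ≤ 2 * δ + 2 * Real.sqrt (∑ i, ‖c i‖ ^ 2 * (1 + ‖w i‖ ^ 2)) := by
  classical
  -- the two coordinates
  let f : (ι → ℂ) → ℝ := fun z => (∑ i, c i * z i).re
  let g : (ι → ℂ) → ℝ := fun z => (∑ i, c i * w i * z i).re
  have hfc : Continuous f := Complex.continuous_re.comp
    (continuous_finsetSum _ fun i _ => continuous_const.mul (continuous_apply i))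
  have hgc : Continuous g := Complex.continuous_re.comp
    (continuous_finsetSum _ fun i _ => continuous_const.mul (continuous_apply i))
  have hfa : ∀ (z z' : ι → ℂ) (t : ℝ), f (fun i => z i + t * (z' i - z i)) = f z + t * (f z' - f z) := by
    intro z z' t
    simp only [f]
    have : ∑ i, c i * (z i + t * (z' i - z i)) = ∑ i, c i * z i + (t : ℂ) * (∑ i, c i * z' i - ∑ i, c i * z i) := by
      rw [← Finset.sum_sub_distrib, Finset.mul_sum, ← Finset.sum_add_distrib]
      exact Finset.sum_congr rfl fun i _ => by ring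
    rw [this, Complex.add_re, Complex.re_ofReal_mul, Complex.sub_re]
  have hga : ∀ (z z' : ι → ℂ) (t : ℝ), g (fun i => z i + t * (z' i - z i)) = g z + t * (g z' - g z) := by
    intro z z' t
    simp only [g]
    have : ∑ i, c i * w i * (z i + t * (z' i - z i)) =
        ∑ i, c i * w i * z i + (t : ℂ) * (∑ i, c i * w i * z' i - ∑ i, c i * w i * z i) := by
      rw [← Finset.sum_sub_distrib, Finset.mul_sum, ← Finset.sum_add_distrib]
      exact Finset.sum_congr rfl fun i _ => by ring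
    rw [this, Complex.add_re, Complex.re_ofReal_mul, Complex.sub_re]
  -- the nearest point
  let B : Set (ι → ℂ) := Set.pi Set.univ fun _ => Metric.closedBall 0 1
  have hB : ∀ z : ι → ℂ, z ∈ B ↔ ∀ i, ‖z i‖ ≤ 1 := by
    intro z
    simp [B, Set.mem_pi]
  have hBc : IsCompact B := isCompact_univ_pi fun _ => isCompact_closedBall 0 1
  obtain ⟨z, hzB, hzmin⟩ := hBc.exists_isMinOn (f := fun z => (y₁ - f z) ^ 2 + (y₂ - g z) ^ 2)
    ⟨0, (hB 0).2 fun i => by simp⟩ (by fun_prop)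
  rw [hB] at hzB
  obtain ⟨a, ha⟩ : ∃ a : ℝ, a = y₁ - f z := ⟨_, rfl⟩
  obtain ⟨b, hb⟩ : ∃ b : ℝ, b = y₂ - g z := ⟨_, rfl⟩
  have hvar : ∀ z' ∈ B, a * (f z' - f z) + b * (g z' - g z) ≤ 0 := by
    intro z' hz'
    rw [hB] at hz'
    by_contra hcon
    push Not at hcon
    obtain ⟨p, hp⟩ : ∃ p : ℝ, p = a * (f z' - f z) + b * (g z' - g z) := ⟨_, rfl⟩
    obtain ⟨q, hq⟩ : ∃ q : ℝ, q = (f z' - f z) ^ 2 + (g z' - g z) ^ 2 := ⟨_, rfl⟩
    rw [← hp] at hcon
    have hq0 : 0 ≤ q := by rw [hq]; positivity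
    -- the step
    obtain ⟨t, ht⟩ : ∃ t : ℝ, t = p / (p + q) := ⟨_, rfl⟩
    have hpq : 0 < p + q := by linarith
    have ht0 : 0 < t := by rw [ht]; positivity
    have ht1 : t ≤ 1 := by rw [ht, div_le_one hpq]; linarith
    have hmem : (fun i => z i + t * (z' i - z i)) ∈ B := by
      rw [hB]
      intro i
      have e : z i + t * (z' i - z i) = ((1 - t : ℝ) : ℂ) * z i + (t : ℂ) * z' i := by
        push_cast
        ring
      rw [e]
      refine (norm_add_le _ _).trans ?_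
      rw [norm_mul, norm_mul, Complex.norm_real, Complex.norm_real, Real.norm_eq_abs, Real.norm_eq_abs,
        abs_of_nonneg (by linarith), abs_of_pos ht0]
      have h1 := mul_le_mul_of_nonneg_left (hzB i) (by linarith : 0 ≤ 1 - t)
      have h2 := mul_le_mul_of_nonneg_left (hz' i) ht0.le
      linarith
    have h1 := isMinOn_iff.1 hzmin _ hmem
    rw [hfa, hga] at h1
    have h2 : (y₁ - (f z + t * (f z' - f z))) ^ 2 + (y₂ - (g z + t * (g z' - g z))) ^ 2 =
        (y₁ - f z) ^ 2 + (y₂ - g z) ^ 2 - 2 * t * p + t ^ 2 * q := by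
      rw [hp, hq, ha, hb]
      ring
    rw [h2] at h1
    have h3 : 2 * p ≤ t * q := by
      by_contra hc
      push Not at hc
      nlinarith
    have h4 : t * q < p := by
      rw [ht, div_mul_eq_mul_div, div_lt_iff₀ hpq]
      nlinarith
    linarith
  -- the support function
  have hsupp : ∑ i, ‖c i‖ * ‖(a : ℂ) + b * w i‖ ≤ a * f z + b * g z := by
    choose ζ hζ1 hζ2 using fun i => phase (c i * ((a : ℂ) + b * w i))
    have h1 := hvar ζ ((hB ζ).2 hζ1)
    have h2 : a * f ζ + b * g ζ = ∑ i, ‖c i‖ * ‖(a : ℂ) + b * w i‖ := by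
      simp only [f, g]
      rw [← Complex.re_ofReal_mul, ← Complex.re_ofReal_mul, ← Complex.add_re, Finset.mul_sum, Finset.mul_sum,
        ← Finset.sum_add_distrib, Complex.re_sum]
      refine Finset.sum_congr rfl fun i _ => ?_
      rw [← norm_mul, ← hζ2 i]
      congr 1
      ring
    linarith
  have hab : a ^ 2 + b ^ 2 ≤ δ * (|a| + |b|) := by
    have h1 := h a b
    have h2 : a * y₁ + b * y₂ = a ^ 2 + b ^ 2 + (a * f z + b * g z) := by
      rw [ha, hb]
      ring
    linarith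
  have hae : |a| ≤ 2 * δ ∧ |b| ≤ 2 * δ := by
    have h1 : a ^ 2 = |a| ^ 2 := (sq_abs a).symm
    have h2 : b ^ 2 = |b| ^ 2 := (sq_abs b).symm
    rw [h1, h2] at hab
    have h3 := abs_nonneg a
    have h4 := abs_nonneg b
    constructor
    · by_contra hc
      push Not at hc
      nlinarith [sq_nonneg (|b| - δ / 2), sq_nonneg (|a| - 2 * δ)]
    · by_contra hc
      push Not at hc
      nlinarith [sq_nonneg (|a| - δ / 2), sq_nonneg (|b| - 2 * δ)]
  -- rounding
  choose d hd1 hd2 hd3 using fun i => chord (z i) (hzB i)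
  let V : ι → ℂ := fun i => ((c i * d i).re : ℂ) + ((c i * w i * d i).re : ℂ) * Complex.I
  obtain ⟨s, hs, hsV⟩ := signs V Finset.univ
  have hV : ∀ i, Complex.normSq (V i) ≤ ‖c i‖ ^ 2 * (1 + ‖w i‖ ^ 2) := by
    intro i
    simp only [V]
    rw [Complex.normSq_add_mul_I]
    have h1 : (c i * d i).re ^ 2 ≤ ‖c i‖ ^ 2 := by
      rw [← sq_abs]
      apply pow_le_pow_left₀ (abs_nonneg _)
      refine (Complex.abs_re_le_norm _).trans ?_
      rw [norm_mul]
      exact mul_le_of_le_one_right (norm_nonneg _) (hd1 i)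
    have h2 : (c i * w i * d i).re ^ 2 ≤ (‖c i‖ * ‖w i‖) ^ 2 := by
      rw [← sq_abs]
      apply pow_le_pow_left₀ (abs_nonneg _)
      refine (Complex.abs_re_le_norm _).trans ?_
      rw [norm_mul, norm_mul]
      exact mul_le_of_le_one_right (by positivity) (hd1 i)
    calc (c i * d i).re ^ 2 + (c i * w i * d i).re ^ 2 ≤ ‖c i‖ ^ 2 + (‖c i‖ * ‖w i‖) ^ 2 := add_le_add h1 h2
      _ = _ := by ring
  obtain ⟨R, hR⟩ : ∃ R : ℝ, R = Real.sqrt (∑ i, ‖c i‖ ^ 2 * (1 + ‖w i‖ ^ 2)) := ⟨_, rfl⟩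
  have hR0 : 0 ≤ R := by rw [hR]; exact Real.sqrt_nonneg _
  have hW : ‖∑ i, (s i : ℂ) * V i‖ ≤ R := by
    rw [hR]
    apply Real.le_sqrt_of_sq_le
    rw [← Complex.normSq_eq_norm_sq]
    exact hsV.trans (Finset.sum_le_sum fun i _ => hV i)
  have hre : (∑ i, (s i : ℂ) * V i).re = ∑ i, s i * (c i * d i).re := by
    rw [Complex.re_sum]
    refine Finset.sum_congr rfl fun i _ => ?_
    rw [Complex.re_ofReal_mul]
    simp [V]
  have him : (∑ i, (s i : ℂ) * V i).im = ∑ i, s i * (c i * w i * d i).re := by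
    rw [Complex.im_sum]
    refine Finset.sum_congr rfl fun i _ => ?_
    rw [Complex.im_ofReal_mul]
    simp [V]
  refine ⟨fun i => z i + s i * d i, fun i => ?_, ?_, ?_⟩
  · rcases hs i with h1 | h1
    · simp only [h1, Complex.ofReal_one, one_mul]
      exact hd2 i
    · simp only [h1, Complex.ofReal_neg, Complex.ofReal_one, neg_mul, one_mul]
      rw [← sub_eq_add_neg]
      exact hd3 i
  · have h1 : (∑ i, c i * (z i + s i * d i)).re = f z + (∑ i, (s i : ℂ) * V i).re := by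
      rw [hre]
      simp only [f]
      rw [Complex.re_sum, Complex.re_sum, ← Finset.sum_add_distrib]
      refine Finset.sum_congr rfl fun i _ => ?_
      rw [← Complex.re_ofReal_mul, ← Complex.add_re]
      congr 1
      ring
    rw [h1]
    have h2 := (Complex.abs_re_le_norm (∑ i, (s i : ℂ) * V i)).trans hW
    have h3 : f z + (∑ i, (s i : ℂ) * V i).re - y₁ = (∑ i, (s i : ℂ) * V i).re - a := by
      rw [ha]
      ring
    rw [h3, ← hR]
    have h4 := abs_sub (∑ i, (s i : ℂ) * V i).re a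
    linarith [hae.1]
  · have h1 : (∑ i, c i * w i * (z i + s i * d i)).re = g z + (∑ i, (s i : ℂ) * V i).im := by
      rw [him]
      simp only [g]
      rw [Complex.re_sum, Complex.re_sum, ← Finset.sum_add_distrib]
      refine Finset.sum_congr rfl fun i _ => ?_
      rw [← Complex.re_ofReal_mul, ← Complex.add_re]
      congr 1
      ring
    rw [h1]
    have h2 := (Complex.abs_im_le_norm (∑ i, (s i : ℂ) * V i)).trans hW
    have h3 : g z + (∑ i, (s i : ℂ) * V i).im - y₂ = (∑ i, (s i : ℂ) * V i).im - b := by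
      rw [hb]
      ring
    rw [h3, ← hR]
    have h4 := abs_sub (∑ i, (s i : ℂ) * V i).im b
    linarith [hae.2]

end Pool.Agent.Helper66.RMT
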