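import Pool.Agent.Helper95.RMT.WM
import Pool.Agent.Helper96.RMT.ZApp

/-!
# Project RMT (MP_a499ba_nt), step 2: the drift of the weight `ζ(1 + 2it) / (1/2 + it)`
-/

set_option autoImplicit false

namespace Pool.Agent.Helper66.RMT

open MeasureTheory Filter Finset Topology Pool.Agent.Helper95.KS

/-- the weight of the summatory function of the Liouville function -/
noncomputable def bZ (t : ℝ) : ℂ := riemannZeta (1 + 2 * t * Complex.I) / (1 / 2 + t * Complex.I)

lemma bZ_eq (t : ℝ) : bZ t = riemannZeta (1 + 2 * t * Complex.I) * bM t := by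
  unfold bZ bM
  ring

lemma line_re (t : ℝ) : (1 + 2 * t * Complex.I : ℂ).re = 1 := by simp

lemma line_ne {t : ℝ} (ht : t ≠ 0) : (1 + 2 * t * Complex.I : ℂ) ≠ 1 := by
  intro h
  have := congrArg Complex.im h
  simp at this
  exact ht this

lemma cpow_line {m : ℕ} (hm : 1 ≤ m) (t : ℝ) : (m : ℂ) ^ (-(1 + 2 * t * Complex.I : ℂ)) =
    (1 / m : ℝ) * Complex.exp ((-(2 * Real.log m) * t : ℝ) * Complex.I) := by
  have hm0 : (0 : ℝ) < m := by exact_mod_cast hm
  have hmc : (m : ℂ) ≠ 0 := by exact_mod_cast hm0.ne'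
  rw [Complex.cpow_def_of_ne_zero hmc, ← Complex.natCast_log]
  have e1 : ((Real.log m : ℝ) : ℂ) * -(1 + 2 * t * Complex.I) =
      ((-Real.log m : ℝ) : ℂ) + ((-(2 * Real.log m) * t : ℝ) : ℂ) * Complex.I := by
    push_cast
    ring
  rw [e1, Complex.exp_add]
  congr 1
  rw [← Complex.ofReal_exp, Real.exp_neg, Real.exp_log hm0, one_div]

lemma norm_top {M : ℕ} (hM : 1 ≤ M) {t : ℝ} (ht : 0 < t) :
    ‖(M : ℂ) ^ (1 - (1 + 2 * t * Complex.I) : ℂ) / ((1 + 2 * t * Complex.I) - 1)‖ = 1 / (2 * t) := by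
  have hM0 : (0 : ℝ) < M := by exact_mod_cast hM
  rw [norm_div]
  have h1 : ‖(M : ℂ) ^ (1 - (1 + 2 * t * Complex.I) : ℂ)‖ = 1 := by
    have := Complex.norm_cpow_eq_rpow_re_of_pos hM0 (1 - (1 + 2 * t * Complex.I) : ℂ)
    rw [show (((M : ℕ) : ℝ) : ℂ) = (M : ℂ) by push_cast; rfl] at this
    rw [this]
    simp
  have h2 : ‖((1 + 2 * t * Complex.I) - 1 : ℂ)‖ = 2 * t := by
    have : ((1 + 2 * t * Complex.I) - 1 : ℂ) = ((2 * t : ℝ) : ℂ) * Complex.I := by
      push_cast
      ring
    rw [this, norm_mul, Complex.norm_I, mul_one, Complex.norm_real, Real.norm_eq_abs, abs_of_pos (by linarith)]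
  rw [h1, h2]

lemma norm_line {t : ℝ} (ht : 0 ≤ t) : ‖(1 + 2 * t * Complex.I : ℂ)‖ ≤ 1 + 2 * t := by
  have h1 : ‖(2 * t * Complex.I : ℂ)‖ = 2 * t := by
    have : (2 * t * Complex.I : ℂ) = ((2 * t : ℝ) : ℂ) * Complex.I := by
      push_cast
      ring
    rw [this, norm_mul, Complex.norm_I, mul_one, Complex.norm_real, Real.norm_eq_abs, abs_of_nonneg (by linarith)]
  refine (norm_add_le _ _).trans ?_
  rw [h1, norm_one]

/-- the approximation used in all estimates -/
lemma zeta_sum {M : ℕ} (hM : 1 ≤ M) {t : ℝ} (ht : 0 < t) :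
    ‖riemannZeta (1 + 2 * t * Complex.I) - ∑ m ∈ Finset.Icc 1 M, (m : ℂ) ^ (-(1 + 2 * t * Complex.I : ℂ))‖ ≤
      (1 + 2 * t) / M + 1 / (2 * t) := by
  have hM0 : (0 : ℝ) < M := by exact_mod_cast hM
  have h1 := zeta_app (line_re t) (line_ne ht.ne') hM
  have h2 := norm_top hM ht
  have h3 : ‖(1 + 2 * t * Complex.I : ℂ)‖ / M ≤ (1 + 2 * t) / M :=
    div_le_div_of_nonneg_right (norm_line ht.le) hM0.le
  have e : riemannZeta (1 + 2 * t * Complex.I) - ∑ m ∈ Finset.Icc 1 M, (m : ℂ) ^ (-(1 + 2 * t * Complex.I : ℂ)) =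
      (riemannZeta (1 + 2 * t * Complex.I) - ∑ m ∈ Finset.Icc 1 M, (m : ℂ) ^ (-(1 + 2 * t * Complex.I : ℂ)) -
        (M : ℂ) ^ (1 - (1 + 2 * t * Complex.I) : ℂ) / ((1 + 2 * t * Complex.I) - 1)) +
      (M : ℂ) ^ (1 - (1 + 2 * t * Complex.I) : ℂ) / ((1 + 2 * t * Complex.I) - 1) := by ring
  rw [e]
  refine (norm_add_le _ _).trans ?_
  rw [h2]
  linarith

lemma cont_line {t : ℝ} (ht : t ≠ 0) : ContinuousAt (fun t : ℝ => riemannZeta (1 + 2 * t * Complex.I)) t := by
  have h1 : ContinuousAt riemannZeta (1 + 2 * t * Complex.I) := (differentiableAt_riemannZeta (line_ne ht)).continuousAt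
  have h2 : Continuous fun t : ℝ => (1 + 2 * t * Complex.I : ℂ) := by fun_prop
  exact ContinuousAt.comp (f := fun t : ℝ => (1 + 2 * t * Complex.I : ℂ)) h1 h2.continuousAt

lemma bZ_cont {t : ℝ} (ht : t ≠ 0) : ContinuousAt bZ t := by
  have : bZ = fun t : ℝ => riemannZeta (1 + 2 * t * Complex.I) * bM t := funext bZ_eq
  rw [this]
  exact (cont_line ht).mul bM_cont.continuousAt

lemma bZ_meas : Measurable bZ := by
  refine measurable_of_continuousOn_compl_singleton 0 fun t ht => ?_
  exact (bZ_cont (by simpa using ht)).continuousWithinAt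

/-! ### Oscillatory integrals -/

lemma J_far {v : ℝ} (hv : v ≠ 0) {a b : ℝ} (ha : 0 < a) (hab : a ≤ b) :
    ‖∫ t in a..b, Complex.exp ((v * t : ℝ) * Complex.I) * bM t‖ ≤ 2 / (a * |v|) := by
  have hv0 : 0 < |v| := abs_pos.2 hv
  have hb : 0 < b := lt_of_lt_of_le ha hab
  rw [bM_parts hv]
  have h1 : ∀ t : ℝ, 0 < t → ‖Complex.exp ((v * t : ℝ) * Complex.I) / (v * Complex.I) * bM t‖ ≤ 1 / |v| * (1 / t) := by
    intro t ht
    rw [norm_mul, E_norm]
    exact mul_le_mul_of_nonneg_left (bM_le ht) (by positivity)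
  have h2 : ‖∫ t in a..b, Complex.exp ((v * t : ℝ) * Complex.I) / (v * Complex.I) * bM' t‖ ≤ 1 / |v| * (1 / a - 1 / b) := by
    have h3 : ‖∫ t in a..b, Complex.exp ((v * t : ℝ) * Complex.I) / (v * Complex.I) * bM' t‖ ≤
        ∫ t in a..b, 1 / |v| * t ^ (-2 : ℝ) := by
      refine intervalIntegral.norm_integral_le_of_norm_le hab ?_ ?_
      · refine ae_of_all _ fun t ht => ?_
        have ht0 : 0 < t := ha.trans ht.1
        rw [norm_mul, E_norm]
        refine mul_le_mul_of_nonneg_left ((bM'_norm ht0).trans (le_of_eq ?_)) (by positivity)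
        rw [Real.rpow_neg ht0.le, one_div]
        congr 1
        exact (Real.rpow_natCast t 2).symm
      · refine IntervalIntegrable.const_mul ?_ _
        apply intervalIntegral.intervalIntegrable_rpow
        right
        rw [Set.uIcc_of_le hab]
        intro h
        linarith [h.1]
    refine h3.trans ?_
    rw [intervalIntegral.integral_const_mul, integral_rpow (by
      right
      refine ⟨by norm_num, ?_⟩
      rw [Set.uIcc_of_le hab]
      intro h
      linarith [h.1])]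
    have h6 : (-2 : ℝ) + 1 = -1 := by norm_num
    rw [h6, Real.rpow_neg_one, Real.rpow_neg_one]
    apply le_of_eq
    ring
  refine (norm_sub_le _ _).trans ?_
  have h3 := (norm_sub_le (Complex.exp ((v * b : ℝ) * Complex.I) / (v * Complex.I) * bM b)
    (Complex.exp ((v * a : ℝ) * Complex.I) / (v * Complex.I) * bM a)).trans (add_le_add (h1 b hb) (h1 a ha))
  have e : 2 / (a * |v|) = 1 / |v| * (1 / b) + 1 / |v| * (1 / a) + 1 / |v| * (1 / a - 1 / b) := by
    field_simp
    ring
  rw [e]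
  linarith

lemma J_near (v : ℝ) {a b : ℝ} (ha : 0 < a) (hab : a ≤ b) (hb : b ≤ 2 * a) :
    |(∫ t in a..b, Complex.exp ((v * t : ℝ) * Complex.I) * bM t).re| ≤ a * |v| + 1 / a := by
  have hcont : Continuous fun t : ℝ => Complex.exp ((v * t : ℝ) * Complex.I) * bM t := by
    have h1 := bM_cont
    have h2 : Continuous fun t : ℝ => Complex.exp ((v * t : ℝ) * Complex.I) := by fun_prop
    exact h2.mul h1
  have hre : (∫ t in a..b, Complex.exp ((v * t : ℝ) * Complex.I) * bM t).re =
      ∫ t in a..b, (Complex.exp ((v * t : ℝ) * Complex.I) * bM t).re := by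
    have := Complex.reCLM.intervalIntegral_comp_comm (hcont.intervalIntegrable (μ := volume) a b)
    simpa using this.symm
  rw [hre]
  have hpt : ∀ t ∈ Set.uIoc a b, ‖(Complex.exp ((v * t : ℝ) * Complex.I) * bM t).re‖ ≤ |v| + 1 / (2 * a ^ 2) := by
    intro t ht
    rw [Set.uIoc_of_le hab] at ht
    have ht0 : 0 < t := ha.trans ht.1
    have hta : a ≤ t := ht.1.le
    have hden : (0 : ℝ) < 1 / 4 + t ^ 2 := by positivity
    have hbM : bM t = ((1 / 2 / (1 / 4 + t ^ 2) : ℝ) : ℂ) - ((t / (1 / 4 + t ^ 2) : ℝ) : ℂ) * Complex.I := by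
      unfold bM
      rw [div_eq_iff (bM_ne t)]
      have hd : ((1 / 4 + t ^ 2 : ℝ) : ℂ) ≠ 0 := by exact_mod_cast hden.ne'
      obtain ⟨D, hD⟩ : ∃ D : ℂ, D = ((1 / 4 + t ^ 2 : ℝ) : ℂ) := ⟨_, rfl⟩
      rw [Complex.ofReal_div, Complex.ofReal_div _ (1 / 4 + t ^ 2), ← hD]
      rw [← hD] at hd
      have e : (((1 / 2 : ℝ) : ℂ) / D - (t : ℂ) / D * Complex.I) * (1 / 2 + t * Complex.I) =
          (1 / 4 - (t : ℂ) ^ 2 * Complex.I ^ 2) / D := by
        push_cast
        ring
      rw [e, Complex.I_sq, eq_comm, div_eq_one_iff_eq hd, hD]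
      push_cast
      ring
    have hval : (Complex.exp ((v * t : ℝ) * Complex.I) * bM t).re =
        (Real.cos (v * t) / 2 + t * Real.sin (v * t)) / (1 / 4 + t ^ 2) := by
      rw [hbM, Complex.mul_re, Complex.exp_ofReal_mul_I_re, Complex.exp_ofReal_mul_I_im]
      simp only [Complex.sub_re, Complex.ofReal_re, Complex.mul_re, Complex.I_re, mul_zero, Complex.ofReal_im,
        Complex.I_im, mul_one, sub_self, sub_zero, Complex.sub_im, Complex.mul_im, add_zero]
      field_simp
      ring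
    rw [hval, Real.norm_eq_abs, abs_div, abs_of_pos hden, div_le_iff₀ hden]
    have h1 : |Real.cos (v * t) / 2 + t * Real.sin (v * t)| ≤ 1 / 2 + |v| * t ^ 2 := by
      refine (abs_add_le _ _).trans ?_
      have h2 : |Real.cos (v * t) / 2| ≤ 1 / 2 := by
        rw [abs_div, abs_two]
        have := Real.abs_cos_le_one (v * t)
        linarith
      have h3 : |t * Real.sin (v * t)| ≤ |v| * t ^ 2 := by
        rw [abs_mul, abs_of_pos ht0]
        have h4 : |Real.sin (v * t)| ≤ |v * t| := Real.abs_sin_le_abs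
        rw [abs_mul, abs_of_pos ht0] at h4
        nlinarith
      linarith
    refine h1.trans ?_
    have h5 : (1 : ℝ) / 2 ≤ 1 / (2 * a ^ 2) * t ^ 2 := by
      have h6 : a ^ 2 ≤ t ^ 2 := pow_le_pow_left₀ ha.le hta 2
      rw [div_mul_eq_mul_div, one_mul, div_le_div_iff₀ (by norm_num) (by positivity)]
      linarith
    have h7 : 0 ≤ |v| * (1 / 4) := by positivity
    have h8 : 0 ≤ 1 / (2 * a ^ 2) * (1 / 4) := by positivity
    nlinarith
  have h := intervalIntegral.norm_integral_le_of_norm_le_const hpt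
  rw [Real.norm_eq_abs, abs_of_nonneg (by linarith : (0 : ℝ) ≤ b - a)] at h
  refine h.trans ?_
  have h9 : (|v| + 1 / (2 * a ^ 2)) * (b - a) ≤ (|v| + 1 / (2 * a ^ 2)) * a :=
    mul_le_mul_of_nonneg_left (by linarith) (by positivity)
  have h10 : (|v| + 1 / (2 * a ^ 2)) * a = a * |v| + 1 / (2 * a) := by field_simp
  have h11 : 1 / (2 * a) ≤ 1 / a := by
    apply one_div_le_one_div_of_le ha
    linarith
  linarith

/-- `min x (1/x)` -/
noncomputable def mn1 (x : ℝ) : ℝ := min x (1 / x)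

lemma J_min (v : ℝ) {a b : ℝ} (ha : 0 < a) (hab : a ≤ b) (hb : b ≤ 2 * a) :
    |(∫ t in a..b, Complex.exp ((v * t : ℝ) * Complex.I) * bM t).re| ≤ 1 / a + 2 * mn1 (a * |v|) := by
  have h1 := J_near v ha hab hb
  have hx : 0 ≤ a * |v| := by positivity
  have h1a : 0 < 1 / a := by positivity
  by_cases hv : v = 0
  · rw [hv] at h1 ⊢
    simp only [abs_zero, mul_zero, zero_add] at h1
    have : mn1 (a * |(0 : ℝ)|) = 0 := by
      unfold mn1
      simp
    rw [this]
    linarith
  · have h2 := (Complex.abs_re_le_norm _).trans (J_far hv ha hab)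
    have h3 : 2 / (a * |v|) = 2 * (1 / (a * |v|)) := by ring
    unfold mn1
    rcases le_total (a * |v|) (1 / (a * |v|)) with h | h
    · rw [min_eq_left h]
      linarith
    · rw [min_eq_right h]
      linarith

lemma mn1_le {x : ℝ} (hx : 0 ≤ x) : mn1 x ≤ 6 * (2 * x) / (1 + 2 * x) - 6 * x / (1 + x) := by
  have e : 6 * (2 * x) / (1 + 2 * x) - 6 * x / (1 + x) = 6 * x / ((1 + 2 * x) * (1 + x)) := by
    field_simp
    ring
  rw [e]
  unfold mn1
  rcases le_total x 1 with h | h
  · refine (min_le_left _ _).trans ?_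
    rw [le_div_iff₀ (by positivity)]
    have : (1 + 2 * x) * (1 + x) ≤ 6 := by nlinarith
    calc x * ((1 + 2 * x) * (1 + x)) ≤ x * 6 := mul_le_mul_of_nonneg_left this hx
      _ = 6 * x := by ring
  · refine (min_le_right _ _).trans ?_
    rw [div_le_div_iff₀ (by linarith) (by positivity)]
    nlinarith

lemma mn1_nonneg {x : ℝ} (hx : 0 ≤ x) : 0 ≤ mn1 x := le_min hx (by positivity)

/-- the scales -/
noncomputable def aj (j : ℕ) : ℝ := 6 * Real.pi * 2 ^ j

lemma aj_pos (j : ℕ) : 0 < aj j := by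
  unfold aj
  positivity

lemma aj_succ (j : ℕ) : aj (j + 1) = 2 * aj j := by
  unfold aj
  rw [pow_succ]
  ring

lemma aj_ge (j : ℕ) : 18 * 2 ^ j ≤ aj j := by
  unfold aj
  have := Real.pi_gt_three
  have h : (0 : ℝ) < 2 ^ j := by positivity
  nlinarith

lemma sum_mn1 {y : ℝ} (hy : 0 ≤ y) (J : ℕ) : ∑ j ∈ range J, mn1 (aj j * y) ≤ 6 := by
  have h1 : ∀ J : ℕ, ∑ j ∈ range J, mn1 (aj j * y) ≤ 6 * (aj J * y) / (1 + aj J * y) - 6 * (aj 0 * y) / (1 + aj 0 * y) := by
    intro J
    induction J with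
    | zero => simp
    | succ J ih =>
      rw [Finset.sum_range_succ]
      have h2 := mn1_le (x := aj J * y) (mul_nonneg (aj_pos J).le hy)
      have h3 : 2 * (aj J * y) = aj (J + 1) * y := by
        rw [aj_succ]
        ring
      rw [h3] at h2
      linarith
  refine (h1 J).trans ?_
  have hJ : 0 ≤ aj J * y := mul_nonneg (aj_pos J).le hy
  have h0 : 0 ≤ aj 0 * y := mul_nonneg (aj_pos 0).le hy
  have h4 : 6 * (aj J * y) / (1 + aj J * y) ≤ 6 := by
    rw [div_le_iff₀ (by linarith)]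
    linarith
  have h5 : 0 ≤ 6 * (aj 0 * y) / (1 + aj 0 * y) := by positivity
  linarith

/-- the reciprocals in a multiplicative window -/
lemma window (u : ℝ) (M : ℕ) :
    ∑ m ∈ (Finset.Icc 1 M).filter (fun m : ℕ => |u - 2 * Real.log m| ≤ 1), (1 : ℝ) / m ≤ 4 := by
  let g : ℝ → ℝ := fun y => max (-1) (min 3 (2 * y - u))
  have hg : Monotone g := fun x y hxy => max_le_max le_rfl (min_le_min le_rfl (by linarith))
  rw [Finset.sum_filter]
  have h1 : ∀ m ∈ Finset.Icc 1 M, (if |u - 2 * Real.log m| ≤ 1 then (1 : ℝ) / m else 0) ≤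
      g (Real.log ((m : ℝ) + 1)) - g (Real.log m) := by
    intro m hm
    have hm1 : (1 : ℝ) ≤ m := by exact_mod_cast (Finset.mem_Icc.1 hm).1
    have hlog : Real.log m ≤ Real.log ((m : ℝ) + 1) := Real.log_le_log (by linarith) (by linarith)
    split_ifs with h
    · rw [abs_le] at h
      have h2 : Real.log ((m : ℝ) + 1) - Real.log m = Real.log (1 + 1 / m) := by
        rw [← Real.log_div (by linarith) (by linarith)]
        congr 1
        field_simp
      have h3 : 1 / (2 * (m : ℝ)) ≤ Real.log (1 + 1 / m) := by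
        have h4 := Real.one_sub_inv_le_log_of_pos (show (0 : ℝ) < 1 + 1 / m by positivity)
        refine le_trans ?_ h4
        have h5 : 1 - (1 + 1 / (m : ℝ))⁻¹ = 1 / (m + 1) := by
          field_simp
          ring
        rw [h5]
        apply one_div_le_one_div_of_le (by linarith)
        linarith
      have h6 : Real.log (1 + 1 / m) ≤ 1 := by
        have h7 := Real.log_le_sub_one_of_pos (show (0 : ℝ) < 1 + 1 / m by positivity)
        have h8 : 1 / (m : ℝ) ≤ 1 := by
          rw [div_le_one (by linarith)]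
          exact hm1
        linarith
      have h9 : g (Real.log m) = 2 * Real.log m - u := by
        simp only [g]
        rw [min_eq_right (by linarith), max_eq_right (by linarith)]
      have h10 : g (Real.log ((m : ℝ) + 1)) = 2 * Real.log ((m : ℝ) + 1) - u := by
        simp only [g]
        rw [min_eq_right (by linarith), max_eq_right (by linarith)]
      rw [h9, h10]
      have h11 : 1 / (m : ℝ) = 2 * (1 / (2 * (m : ℝ))) := by
        field_simp
      rw [h11]
      linarith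
    · exact sub_nonneg.2 (hg hlog)
  refine (Finset.sum_le_sum h1).trans ?_
  have h2 : ∑ m ∈ Finset.Icc 1 M, (g (Real.log ((m : ℝ) + 1)) - g (Real.log m)) =
      g (Real.log ((M : ℝ) + 1)) - g (Real.log 1) := by
    induction M with
    | zero => simp
    | succ M ih =>
      rw [Finset.sum_Icc_succ_top (by omega), ih fun m hm => h1 m (Finset.mem_Icc.2 ⟨(Finset.mem_Icc.1 hm).1,
        le_trans (Finset.mem_Icc.1 hm).2 (Nat.le_succ M)⟩)]
      push_cast
      ring
  rw [h2]
  have h3 : g (Real.log ((M : ℝ) + 1)) ≤ 3 := by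
    simp only [g]
    exact max_le (by norm_num) (min_le_left _ _)
  have h4 : -1 ≤ g (Real.log 1) := by
    simp only [g]
    exact le_max_left _ _
  linarith

end Pool.Agent.Helper66.RMT
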