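import Pool.Agent.Helper66.RMT.Defs

/-!
# Project RMT (MP_a499ba_nt), block A4c: rotation invariance and Hoeffding's lemma for one block
-/

set_option autoImplicit false

namespace Pool.Agent.Helper66.RMT

open MeasureTheory ProbabilityTheory Filter Finset

/-- reduction to `[0, 2π)` -/
noncomputable def R2 (x : ℝ) : ℝ := 2 * Real.pi * Int.fract (x / (2 * Real.pi))

/-- rotation -/
noncomputable def rot {N : ℕ} (φ : ℝ) (θ : Fin N → ℝ) : Fin N → ℝ := fun j => R2 (θ j + φ)

lemma two_pi_pos' : (0 : ℝ) < 2 * Real.pi := by positivity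

lemma R2_of_mem {x : ℝ} (h0 : 0 ≤ x) (h1 : x < 2 * Real.pi) : R2 x = x := by
  unfold R2
  have hp := two_pi_pos'
  rw [Int.fract_eq_self.2 ⟨by positivity, (div_lt_one hp).2 h1⟩]
  field_simp

lemma R2_of_mem' {x : ℝ} (h0 : 2 * Real.pi ≤ x) (h1 : x < 2 * (2 * Real.pi)) : R2 x = x - 2 * Real.pi := by
  have hp := two_pi_pos'
  have h2 : x / (2 * Real.pi) = (x - 2 * Real.pi) / (2 * Real.pi) + 1 := by field_simp; ring
  have h3 : R2 x = R2 (x - 2 * Real.pi) := by
    unfold R2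
    rw [h2, Int.fract_add_one]
  rw [h3, R2_of_mem (by linarith) (by linarith)]

lemma measurable_R2 : Measurable R2 := by
  unfold R2
  exact (measurable_fract.comp (measurable_id.div_const _)).const_mul _

lemma exp_R2 (x : ℝ) : Complex.exp ((R2 x : ℝ) * Complex.I) = Complex.exp ((x : ℝ) * Complex.I) := by
  have h : R2 x = x - ⌊x / (2 * Real.pi)⌋ * (2 * Real.pi) := by
    unfold R2
    have hp := two_pi_pos'
    rw [Int.fract]
    field_simp
  rw [h]
  have h2 : (((x - ⌊x / (2 * Real.pi)⌋ * (2 * Real.pi) : ℝ)) : ℂ) * Complex.I =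
      (x : ℂ) * Complex.I - (⌊x / (2 * Real.pi)⌋ : ℂ) * (2 * Real.pi * Complex.I) := by
    push_cast
    ring
  rw [h2, Complex.exp_sub, Complex.exp_int_mul_two_pi_mul_I, div_one]

lemma vdm_rot {N : ℕ} (φ : ℝ) (θ : Fin N → ℝ) : vdm (rot φ θ) = vdm θ := by
  unfold vdm rot
  refine Finset.prod_congr rfl fun j _ => Finset.prod_congr rfl fun k _ => ?_
  rw [exp_R2, exp_R2]
  have h : ∀ y : ℝ, Complex.exp (((y + φ : ℝ) : ℂ) * Complex.I) =
      Complex.exp ((y : ℂ) * Complex.I) * Complex.exp ((φ : ℂ) * Complex.I) := by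
    intro y
    rw [← Complex.exp_add]
    congr 1
    push_cast
    ring
  rw [h, h, ← sub_mul, norm_mul, Complex.norm_exp_ofReal_mul_I, mul_one]

lemma dz_rot {N : ℕ} (φ : ℝ) (θ : Fin N → ℝ) (j : Fin N) : dz (rot φ θ) j = dz θ j := by
  unfold dz rot
  refine Finset.prod_congr rfl fun k _ => ?_
  have h : ∀ y z : ℝ, Complex.exp (((y - z : ℝ) : ℂ) * Complex.I) =
      Complex.exp ((y : ℂ) * Complex.I) / Complex.exp ((z : ℂ) * Complex.I) := by
    intro y z
    rw [← Complex.exp_sub]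
    congr 1
    push_cast
    ring
  rw [h, exp_R2, exp_R2, ← h]
  congr 3
  push_cast
  ring

lemma amp_rot {N : ℕ} (φ : ℝ) (θ : Fin N → ℝ) : amp (rot φ θ) = amp θ := by
  unfold amp
  exact Finset.sum_congr rfl fun j _ => by rw [dz_rot]

lemma mp1 {φ : ℝ} (h0 : 0 ≤ φ) (h1 : φ < 2 * Real.pi) :
    MeasurePreserving (fun x => R2 (x + φ)) (volume.restrict (Set.Ico 0 (2 * Real.pi)))
      (volume.restrict (Set.Ico 0 (2 * Real.pi))) := by
  have hp := two_pi_pos'
  have hmeas : Measurable (fun x => R2 (x + φ)) := measurable_R2.comp (measurable_id.add_const _)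
  refine ⟨hmeas, ?_⟩
  ext s hs
  rw [Measure.map_apply hmeas hs, Measure.restrict_apply (hmeas hs), Measure.restrict_apply hs]
  have e1 : (fun x => R2 (x + φ)) ⁻¹' s ∩ Set.Ico 0 (2 * Real.pi) =
      ((fun x => x + φ) ⁻¹' (s ∩ Set.Ico φ (2 * Real.pi))) ∪
        ((fun x => x + (φ - 2 * Real.pi)) ⁻¹' (s ∩ Set.Ico 0 φ)) := by
    ext x
    simp only [Set.mem_inter_iff, Set.mem_preimage, Set.mem_Ico, Set.mem_union]
    constructor
    · rintro ⟨hx, hx0, hx1⟩
      by_cases hc : x + φ < 2 * Real.pi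
      · left
        rw [R2_of_mem (by linarith) hc] at hx
        exact ⟨hx, by linarith, hc⟩
      · right
        push Not at hc
        rw [R2_of_mem' hc (by linarith)] at hx
        refine ⟨?_, by linarith, by linarith⟩
        have : x + (φ - 2 * Real.pi) = x + φ - 2 * Real.pi := by ring
        rw [this]
        exact hx
    · rintro (⟨hx, hx0, hx1⟩ | ⟨hx, hx0, hx1⟩)
      · rw [R2_of_mem (by linarith) hx1]
        exact ⟨hx, by linarith, by linarith⟩
      · rw [R2_of_mem' (by linarith) (by linarith)]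
        refine ⟨?_, by linarith, by linarith⟩
        have : x + (φ - 2 * Real.pi) = x + φ - 2 * Real.pi := by ring
        rw [this] at hx
        exact hx
  have e2 : s ∩ Set.Ico 0 (2 * Real.pi) = (s ∩ Set.Ico φ (2 * Real.pi)) ∪ (s ∩ Set.Ico 0 φ) := by
    rw [← Set.inter_union_distrib_left, Set.union_comm, Set.Ico_union_Ico_eq_Ico h0 h1.le]
  have hd1 : Disjoint ((fun x => x + φ) ⁻¹' (s ∩ Set.Ico φ (2 * Real.pi)))
      ((fun x => x + (φ - 2 * Real.pi)) ⁻¹' (s ∩ Set.Ico 0 φ)) := by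
    rw [Set.disjoint_left]
    intro x hx hy
    have a := hx.2.2
    have b := hy.2.1
    linarith
  have hd2 : Disjoint (s ∩ Set.Ico φ (2 * Real.pi)) (s ∩ Set.Ico 0 φ) := by
    rw [Set.disjoint_left]
    intro x hx hy
    have a := hx.2.1
    have b := hy.2.2
    linarith
  rw [e1, e2, measure_union hd1 ((measurable_id.add_const _) (hs.inter measurableSet_Ico)),
    measure_union hd2 (hs.inter measurableSet_Ico), measure_preimage_add_right, measure_preimage_add_right]

lemma restrict_box (N : ℕ) : (volume.restrict (box N) : Measure (Fin N → ℝ)) =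
    Measure.pi (fun _ => volume.restrict (Set.Ico 0 (2 * Real.pi))) := by
  unfold box
  rw [volume_pi, Measure.restrict_pi_pi]

lemma mpN (N : ℕ) {φ : ℝ} (h0 : 0 ≤ φ) (h1 : φ < 2 * Real.pi) :
    MeasurePreserving (rot φ : (Fin N → ℝ) → (Fin N → ℝ)) (volume.restrict (box N)) (volume.restrict (box N)) := by
  rw [restrict_box]
  exact measurePreserving_pi (fun _ => volume.restrict (Set.Ico 0 (2 * Real.pi)))
    (fun _ => volume.restrict (Set.Ico 0 (2 * Real.pi))) (fun _ => mp1 h0 h1)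

lemma meas_vdmM (N : ℕ) : Measurable (vdm : (Fin N → ℝ) → ℝ) := by
  unfold vdm
  fun_prop

lemma meas_dzM {N : ℕ} (j : Fin N) : Measurable (fun θ : Fin N → ℝ => dz θ j) := by
  unfold dz
  fun_prop

lemma meas_ampM (N : ℕ) : Measurable (amp : (Fin N → ℝ) → ℝ) := by
  unfold amp
  exact Finset.measurable_sum _ fun j _ => ((meas_dzM j).norm.const_div 1)

lemma meas_ffM {N : ℕ} (u : ℝ) : Measurable (fun θ : Fin N → ℝ => ff θ u) := by
  unfold ff
  refine Finset.measurable_sum _ fun j _ => Measurable.div ?_ (meas_dzM j)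
  fun_prop

/-- rotation invariance of `cue` -/
lemma cue_rot (N : ℕ) {φ : ℝ} (h0 : 0 ≤ φ) (h1 : φ < 2 * Real.pi) (F : (Fin N → ℝ) → ENNReal) (hF : Measurable F) :
    ∫⁻ θ, F (rot φ θ) ∂(cue N) = ∫⁻ θ, F θ ∂(cue N) := by
  have hmp := mpN N h0 h1
  have hρ : Measurable (fun θ : Fin N → ℝ => ENNReal.ofReal (vdm θ / (N.factorial * (2 * Real.pi) ^ N))) :=
    ((meas_vdmM N).div_const _).ennreal_ofReal
  have e1 : ∫⁻ θ, F (rot φ θ) ∂(cue N) = ∫⁻ θ, (F ∘ rot φ) θ ∂(cue N) := rfl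
  rw [e1]
  unfold cue
  rw [lintegral_withDensity_eq_lintegral_mul _ hρ hF, lintegral_withDensity_eq_lintegral_mul _ hρ (hF.comp hmp.measurable)]
  rw [← hmp.lintegral_comp (hρ.mul hF)]
  refine lintegral_congr fun θ => ?_
  simp only [Pi.mul_apply, Function.comp]
  rw [vdm_rot]

/-- the uniform probability on `[0, 2π)` -/
noncomputable def unif : Measure ℝ := (ENNReal.ofReal (2 * Real.pi))⁻¹ • volume.restrict (Set.Ico 0 (2 * Real.pi))

lemma ofReal_two_pi_ne : ENNReal.ofReal (2 * Real.pi) ≠ 0 := by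
  rw [Ne, ENNReal.ofReal_eq_zero, not_le]
  exact two_pi_pos'

instance : IsProbabilityMeasure unif := by
  constructor
  unfold unif
  rw [Measure.smul_apply, Measure.restrict_apply MeasurableSet.univ, Set.univ_inter, Real.volume_Ico, sub_zero,
    smul_eq_mul, ENNReal.inv_mul_cancel ofReal_two_pi_ne ENNReal.ofReal_ne_top]

lemma mp_unif {t : ℝ} (h0 : 0 ≤ t) (h1 : t < 2 * Real.pi) :
    MeasurePreserving (fun x => R2 (x + t)) unif unif := by
  unfold unif
  exact (mp1 h0 h1).smul_measure _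

/-- the mean of `e^{iux}` -/
lemma mean_exp {u : ℝ} (hu : u ≠ 0) : ∫ x, Complex.exp ((u * x : ℝ) * Complex.I) ∂unif = mu u := by
  have hp := two_pi_pos'
  unfold unif
  rw [integral_smul_measure, integral_Ico_eq_integral_Ioc, ← intervalIntegral.integral_of_le hp.le]
  have hc : ((u : ℂ) * Complex.I) ≠ 0 := mul_ne_zero (by exact_mod_cast hu) Complex.I_ne_zero
  have h1 : ∀ x : ℝ, Complex.exp ((u * x : ℝ) * Complex.I) = Complex.exp ((u : ℂ) * Complex.I * (x : ℂ)) := by
    intro x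
    congr 1
    push_cast
    ring
  simp only [h1]
  rw [integral_exp_mul_complex hc]
  rw [ENNReal.toReal_inv, ENNReal.toReal_ofReal hp.le]
  unfold mu
  have h2 : ((2 * Real.pi * u : ℝ) : ℂ) * Complex.I = (u : ℂ) * Complex.I * ((2 * Real.pi : ℝ) : ℂ) := by
    push_cast
    ring
  rw [h2, Complex.ofReal_zero, mul_zero, Complex.exp_zero]
  rw [Complex.real_smul]
  have hpc : ((2 * Real.pi : ℝ) : ℂ) ≠ 0 := by exact_mod_cast hp.ne'
  rw [Complex.ofReal_inv]
  field_simp

lemma norm_mu_le {u : ℝ} (hu : u ≠ 0) : ‖mu u‖ ≤ 1 := by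
  rw [← mean_exp hu]
  refine (norm_integral_le_of_norm_le_const (C := 1) ?_).trans ?_
  · exact Filter.Eventually.of_forall fun x => by rw [Complex.norm_exp_ofReal_mul_I]
  · simp

lemma int_exp (u : ℝ) {t : ℝ} (h0 : 0 ≤ t) (h1 : t < 2 * Real.pi) :
    Integrable (fun x => Complex.exp ((u * R2 (x + t) : ℝ) * Complex.I)) unif := by
  refine Integrable.of_bound (C := 1) ?_ (Filter.Eventually.of_forall fun x => ?_)
  · have : Measurable (fun x => Complex.exp ((u * R2 (x + t) : ℝ) * Complex.I)) := by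
      have := measurable_R2
      fun_prop
    exact this.aestronglyMeasurable
  · rw [Complex.norm_exp_ofReal_mul_I]

lemma mean_exp_rot {u : ℝ} (hu : u ≠ 0) {t : ℝ} (h0 : 0 ≤ t) (h1 : t < 2 * Real.pi) :
    ∫ x, Complex.exp ((u * R2 (x + t) : ℝ) * Complex.I) ∂unif = mu u := by
  have h := (mp_unif h0 h1).map_eq
  have h2 : ∫ x, Complex.exp ((u * R2 (x + t) : ℝ) * Complex.I) ∂unif =
      ∫ x, Complex.exp ((u * x : ℝ) * Complex.I) ∂(Measure.map (fun x => R2 (x + t)) unif) := by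
    rw [integral_map (mp_unif h0 h1).measurable.aemeasurable]
    have : Measurable (fun x : ℝ => Complex.exp ((u * x : ℝ) * Complex.I)) := by fun_prop
    exact this.aestronglyMeasurable
  rw [h2, h, mean_exp hu]

/-- Hoeffding for the rotations of a fixed configuration -/
lemma hoeff {N : ℕ} (θ : Fin N → ℝ) (hθ : ∀ j, 0 ≤ θ j ∧ θ j < 2 * Real.pi) (hd : ∀ j, dz θ j ≠ 0)
    (hlag : ∑ j, 1 / dz θ j = 1) (u : ℝ) (hu : u ≠ 0) (α l : ℝ) :
    ∫⁻ φ, ENNReal.ofReal (Real.exp (l * (Complex.exp (α * Complex.I) * (ff (rot φ θ) u - mu u)).re -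
      2 * l ^ 2 * amp θ ^ 2)) ∂unif ≤ 1 := by
  set X : ℝ → ℝ := fun φ => (Complex.exp (α * Complex.I) * (ff (rot φ θ) u - mu u)).re with hX
  have hff : ∀ φ : ℝ, ff (rot φ θ) u - mu u =
      ∑ j, (Complex.exp ((u * R2 (φ + θ j) : ℝ) * Complex.I) - mu u) / dz θ j := by
    intro φ
    have h1 : mu u = ∑ j, mu u / dz θ j := by
      have : ∑ j, mu u / dz θ j = mu u * ∑ j, 1 / dz θ j := by
        rw [Finset.mul_sum]
        exact Finset.sum_congr rfl fun j _ => by ring
      rw [this, hlag, mul_one]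
    conv_lhs => rw [h1]
    unfold ff
    rw [← Finset.sum_sub_distrib]
    refine Finset.sum_congr rfl fun j _ => ?_
    rw [dz_rot, ← sub_div]
    unfold rot
    rw [add_comm (θ j) φ]
  have hmu := norm_mu_le hu
  have hint : ∀ j, Integrable (fun φ => (Complex.exp ((u * R2 (φ + θ j) : ℝ) * Complex.I) - mu u) / dz θ j) unif :=
    fun j => ((int_exp u (hθ j).1 (hθ j).2).sub (integrable_const _)).div_const _
  have hmeanc : ∫ φ, (ff (rot φ θ) u - mu u) ∂unif = 0 := by
    simp only [hff]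
    rw [integral_finsetSum _ fun j _ => hint j]
    refine Finset.sum_eq_zero fun j _ => ?_
    rw [integral_div, integral_sub (int_exp u (hθ j).1 (hθ j).2) (integrable_const _), mean_exp_rot hu (hθ j).1 (hθ j).2]
    simp
  have hintc : Integrable (fun φ => ff (rot φ θ) u - mu u) unif := by
    simp only [hff]
    exact integrable_finsetSum _ fun j _ => hint j
  have hmean : ∫ φ, X φ ∂unif = 0 := by
    have h1 : ∫ φ, (Complex.exp (α * Complex.I) * (ff (rot φ θ) u - mu u)).re ∂unif =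
        (∫ φ, Complex.exp (α * Complex.I) * (ff (rot φ θ) u - mu u) ∂unif).re :=
      integral_re (hintc.const_mul _)
    rw [hX, h1, integral_const_mul, hmeanc, mul_zero, Complex.zero_re]
  have hA0 : 0 ≤ amp θ := Finset.sum_nonneg fun j _ => by positivity
  have hb : ∀ φ, |X φ| ≤ 2 * amp θ := by
    intro φ
    rw [hX]
    refine (Complex.abs_re_le_norm _).trans ?_
    rw [norm_mul, Complex.norm_exp_ofReal_mul_I, one_mul, hff]
    refine (norm_sum_le _ _).trans ?_
    unfold amp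
    rw [Finset.mul_sum]
    refine Finset.sum_le_sum fun j _ => ?_
    rw [norm_div, mul_one_div]
    apply div_le_div_of_nonneg_right _ (norm_nonneg _)
    refine (norm_sub_le _ _).trans ?_
    rw [Complex.norm_exp_ofReal_mul_I]
    linarith
  have hXm : Measurable X := by
    rw [hX]
    simp only [hff]
    have := measurable_R2
    fun_prop
  have hsub := hasSubgaussianMGF_of_mem_Icc_of_integral_eq_zero (μ := unif) (X := X) (a := -(2 * amp θ))
    (b := 2 * amp θ) hXm.aemeasurable (Filter.Eventually.of_forall fun φ => ⟨(abs_le.1 (hb φ)).1, (abs_le.1 (hb φ)).2⟩) hmean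
  have hmgf := hsub.mgf_le l
  have hcst : (((‖2 * amp θ - -(2 * amp θ)‖₊ / 2) ^ 2 : NNReal) : ℝ) = 4 * amp θ ^ 2 := by
    push_cast
    rw [Real.norm_eq_abs, abs_of_nonneg (by linarith)]
    ring
  rw [hcst] at hmgf
  have hie := hsub.integrable_exp_mul l
  have e1 : ∀ φ, Real.exp (l * X φ - 2 * l ^ 2 * amp θ ^ 2) =
      Real.exp (-(2 * l ^ 2 * amp θ ^ 2)) * Real.exp (l * X φ) := by
    intro φ
    rw [← Real.exp_add]
    congr 1
    ring
  have hie2 : Integrable (fun φ => Real.exp (l * X φ - 2 * l ^ 2 * amp θ ^ 2)) unif := by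
    simp only [e1]
    exact hie.const_mul _
  have e2 : ∫⁻ φ, ENNReal.ofReal (Real.exp (l * X φ - 2 * l ^ 2 * amp θ ^ 2)) ∂unif ≤ 1 := by
    rw [← ofReal_integral_eq_lintegral_ofReal hie2 (Filter.Eventually.of_forall fun φ => (Real.exp_pos _).le)]
    rw [← ENNReal.ofReal_one]
    apply ENNReal.ofReal_le_ofReal
    simp only [e1]
    rw [integral_const_mul]
    have h3 : ∫ φ, Real.exp (l * X φ) ∂unif = mgf X unif l := rfl
    rw [h3]
    calc Real.exp (-(2 * l ^ 2 * amp θ ^ 2)) * mgf X unif l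
        ≤ Real.exp (-(2 * l ^ 2 * amp θ ^ 2)) * Real.exp (4 * amp θ ^ 2 * l ^ 2 / 2) :=
          mul_le_mul_of_nonneg_left hmgf (Real.exp_pos _).le
      _ = 1 := by
          rw [← Real.exp_add]
          have : -(2 * l ^ 2 * amp θ ^ 2) + 4 * amp θ ^ 2 * l ^ 2 / 2 = 0 := by ring
          rw [this, Real.exp_zero]
  exact e2

/-- block A4c from A0, A4a, A4b -/
theorem block_mgf_of {N : ℕ} (hprob : IsProbabilityMeasure (cue N)) (hae : ∀ᵐ θ ∂(cue N), ∀ j, dz θ j ≠ 0)
    (hlag : ∀ θ : Fin N → ℝ, (∀ j, dz θ j ≠ 0) → ∑ j, 1 / dz θ j = 1) (u : ℝ) (hu : u ≠ 0) (α l : ℝ) :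
    ∫⁻ θ, ENNReal.ofReal (Real.exp (l * (Complex.exp (α * Complex.I) * (ff θ u - mu u)).re -
      2 * l ^ 2 * amp θ ^ 2)) ∂(cue N) ≤ 1 := by
  set G : (Fin N → ℝ) → ENNReal := fun θ => ENNReal.ofReal (Real.exp (l *
    (Complex.exp (α * Complex.I) * (ff θ u - mu u)).re - 2 * l ^ 2 * amp θ ^ 2)) with hG
  have hGm : Measurable G := by
    have h1 := meas_ffM (N := N) u
    have h2 := meas_ampM N
    rw [hG]
    fun_prop
  have hrotm : Measurable (fun p : (Fin N → ℝ) × ℝ => rot p.2 p.1) := by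
    unfold rot
    refine measurable_pi_lambda _ fun j => measurable_R2.comp ?_
    fun_prop
  have hbox : ∀ᵐ θ ∂(cue N), ∀ j, 0 ≤ θ j ∧ θ j < 2 * Real.pi := by
    have hbm : MeasurableSet (box N) := MeasurableSet.univ_pi fun _ => measurableSet_Ico
    have hb2 : ∀ᵐ θ ∂(volume.restrict (box N)), ∀ j, 0 ≤ θ j ∧ θ j < 2 * Real.pi :=
      (ae_restrict_iff' hbm).2 (Filter.Eventually.of_forall fun θ hθ j => hθ j (Set.mem_univ j))
    exact (withDensity_absolutelyContinuous _ _).ae_le hb2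
  have e1 : ∫⁻ θ, G θ ∂(cue N) = ∫⁻ φ, ∫⁻ θ, G (rot φ θ) ∂(cue N) ∂unif := by
    have h1 : ∀ᵐ φ ∂unif, ∫⁻ θ, G (rot φ θ) ∂(cue N) = ∫⁻ θ, G θ ∂(cue N) := by
      have h2 : ∀ᵐ φ ∂unif, φ ∈ Set.Ico 0 (2 * Real.pi) := by
        unfold unif
        exact Measure.ae_smul_measure (ae_restrict_mem measurableSet_Ico) _
      filter_upwards [h2] with φ hφ
      exact cue_rot N hφ.1 hφ.2 G hGm
    rw [lintegral_congr_ae h1, lintegral_const, measure_univ, mul_one]
  change ∫⁻ θ, G θ ∂(cue N) ≤ 1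
  rw [e1, lintegral_lintegral_swap]
  · calc ∫⁻ θ, ∫⁻ φ, G (rot φ θ) ∂unif ∂(cue N) ≤ ∫⁻ θ, 1 ∂(cue N) := by
          refine lintegral_mono_ae ?_
          filter_upwards [hae, hbox] with θ h1 h2
          have h3 := hoeff θ h2 h1 (hlag θ h1) u hu α l
          simp only [hG, amp_rot]
          exact h3
      _ = 1 := by rw [lintegral_const, measure_univ, mul_one]
  · have : Measurable (fun p : ℝ × (Fin N → ℝ) => G (rot p.1 p.2)) :=
      hGm.comp (hrotm.comp measurable_swap)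
    exact this.aemeasurable

end Pool.Agent.Helper66.RMT
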