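import Pool.Agent.Helper96.RMT.Rot

/-!
# Project RMT (MP_a499ba_nt), step 2: rotation invariance and Hoeffding's lemma for one block, with a weight
-/

set_option autoImplicit false

namespace Pool.Agent.Helper66.RMT

open MeasureTheory ProbabilityTheory Filter Finset

/-- `∑_j h(θ_j) / Z'(θ_j)` -/
noncomputable def fh (h : ℝ → ℂ) {N : ℕ} (θ : Fin N → ℝ) : ℂ := ∑ j, h (θ j) / dz θ j

/-- the mean of `h` over `[0, 2π)` -/
noncomputable def mh (h : ℝ → ℂ) : ℂ := ∫ x, h x ∂unif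

/-- `∑_j |h(θ_j)| / |Z'(θ_j)|` -/
noncomputable def ah (h : ℝ → ℂ) {N : ℕ} (θ : Fin N → ℝ) : ℝ := ∑ j, ‖h (θ j)‖ / ‖dz θ j‖

lemma R2_nonneg (x : ℝ) : 0 ≤ R2 x := by
  unfold R2
  exact mul_nonneg two_pi_pos'.le (Int.fract_nonneg _)

lemma R2_lt (x : ℝ) : R2 x < 2 * Real.pi := by
  unfold R2
  have h := Int.fract_lt_one (x / (2 * Real.pi))
  have hp := two_pi_pos'
  nlinarith

lemma meas_fh {h : ℝ → ℂ} (hh : Measurable h) (N : ℕ) : Measurable (fun θ : Fin N → ℝ => fh h θ) := by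
  unfold fh
  exact Finset.measurable_sum _ fun j _ => (hh.comp (measurable_pi_apply j)).div (meas_dzM j)

lemma meas_ah {h : ℝ → ℂ} (hh : Measurable h) (N : ℕ) : Measurable (fun θ : Fin N → ℝ => ah h θ) := by
  unfold ah
  exact Finset.measurable_sum _ fun j _ => (hh.comp (measurable_pi_apply j)).norm.div (meas_dzM j).norm

lemma ae_unif : ∀ᵐ x ∂unif, x ∈ Set.Ico 0 (2 * Real.pi) := by
  unfold unif
  exact Measure.ae_smul_measure (ae_restrict_mem measurableSet_Ico) _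

lemma norm_mh_le {h : ℝ → ℂ} {A : ℝ} (hA : ∀ x, 0 ≤ x → x < 2 * Real.pi → ‖h x‖ ≤ A) : ‖mh h‖ ≤ A := by
  unfold mh
  refine (norm_integral_le_of_norm_le_const (C := A) ?_).trans ?_
  · filter_upwards [ae_unif] with x hx
    exact hA x hx.1 hx.2
  · simp

lemma int_h {h : ℝ → ℂ} (hh : Measurable h) {A : ℝ} (hA : ∀ x, 0 ≤ x → x < 2 * Real.pi → ‖h x‖ ≤ A) (t : ℝ) :
    Integrable (fun x => h (R2 (x + t))) unif := by
  refine Integrable.of_bound (C := A) ?_ (Filter.Eventually.of_forall fun x => hA _ (R2_nonneg _) (R2_lt _))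
  exact (hh.comp (measurable_R2.comp (measurable_id.add_const _))).aestronglyMeasurable

lemma mean_h_rot {h : ℝ → ℂ} (hh : Measurable h) {t : ℝ} (h0 : 0 ≤ t) (h1 : t < 2 * Real.pi) :
    ∫ x, h (R2 (x + t)) ∂unif = mh h := by
  have he := (mp_unif h0 h1).map_eq
  have h2 : ∫ x, h (R2 (x + t)) ∂unif = ∫ x, h x ∂(Measure.map (fun x => R2 (x + t)) unif) := by
    rw [integral_map (mp_unif h0 h1).measurable.aemeasurable]
    exact hh.aestronglyMeasurable
  rw [h2, he]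
  rfl

/-- Hoeffding for the rotations of a fixed configuration -/
lemma hoeffW {N : ℕ} (θ : Fin N → ℝ) (hθ : ∀ j, 0 ≤ θ j ∧ θ j < 2 * Real.pi)
    (hlag : ∑ j, 1 / dz θ j = 1) {h : ℝ → ℂ} (hh : Measurable h) {A : ℝ}
    (hA : ∀ x, 0 ≤ x → x < 2 * Real.pi → ‖h x‖ ≤ A) (α l : ℝ) :
    ∫⁻ φ, ENNReal.ofReal (Real.exp (l * (Complex.exp (α * Complex.I) * (fh h (rot φ θ) - mh h)).re -
      2 * l ^ 2 * (A * amp θ) ^ 2)) ∂unif ≤ 1 := by
  have hA1 : 0 ≤ A := le_trans (norm_nonneg _) (hA 0 le_rfl two_pi_pos')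
  set X : ℝ → ℝ := fun φ => (Complex.exp (α * Complex.I) * (fh h (rot φ θ) - mh h)).re with hX
  have hff : ∀ φ : ℝ, fh h (rot φ θ) - mh h = ∑ j, (h (R2 (φ + θ j)) - mh h) / dz θ j := by
    intro φ
    have h1 : mh h = ∑ j, mh h / dz θ j := by
      have : ∑ j, mh h / dz θ j = mh h * ∑ j, 1 / dz θ j := by
        rw [Finset.mul_sum]
        exact Finset.sum_congr rfl fun j _ => by ring
      rw [this, hlag, mul_one]
    conv_lhs => rw [h1]
    unfold fh
    rw [← Finset.sum_sub_distrib]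
    refine Finset.sum_congr rfl fun j _ => ?_
    rw [dz_rot, ← sub_div]
    unfold rot
    rw [add_comm (θ j) φ]
  have hmu := norm_mh_le hA
  have hint : ∀ j, Integrable (fun φ => (h (R2 (φ + θ j)) - mh h) / dz θ j) unif :=
    fun j => ((int_h hh hA (θ j)).sub (integrable_const _)).div_const _
  have hmeanc : ∫ φ, (fh h (rot φ θ) - mh h) ∂unif = 0 := by
    simp only [hff]
    rw [integral_finsetSum _ fun j _ => hint j]
    refine Finset.sum_eq_zero fun j _ => ?_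
    rw [integral_div, integral_sub (int_h hh hA (θ j)) (integrable_const _), mean_h_rot hh (hθ j).1 (hθ j).2]
    simp
  have hintc : Integrable (fun φ => fh h (rot φ θ) - mh h) unif := by
    simp only [hff]
    exact integrable_finsetSum _ fun j _ => hint j
  have hmean : ∫ φ, X φ ∂unif = 0 := by
    have h1 : ∫ φ, (Complex.exp (α * Complex.I) * (fh h (rot φ θ) - mh h)).re ∂unif =
        (∫ φ, Complex.exp (α * Complex.I) * (fh h (rot φ θ) - mh h) ∂unif).re :=
      integral_re (hintc.const_mul _)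
    rw [hX, h1, integral_const_mul, hmeanc, mul_zero, Complex.zero_re]
  have hA0 : 0 ≤ amp θ := Finset.sum_nonneg fun j _ => by positivity
  have hAA : 0 ≤ A * amp θ := mul_nonneg hA1 hA0
  have hb : ∀ φ, |X φ| ≤ 2 * (A * amp θ) := by
    intro φ
    rw [hX]
    refine (Complex.abs_re_le_norm _).trans ?_
    rw [norm_mul, Complex.norm_exp_ofReal_mul_I, one_mul, hff]
    refine (norm_sum_le _ _).trans ?_
    unfold amp
    rw [Finset.mul_sum, Finset.mul_sum]
    refine Finset.sum_le_sum fun j _ => ?_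
    rw [norm_div, ← mul_assoc, mul_one_div]
    apply div_le_div_of_nonneg_right _ (norm_nonneg _)
    refine (norm_sub_le _ _).trans ?_
    have := hA (R2 (φ + θ j)) (R2_nonneg _) (R2_lt _)
    linarith
  have hXm : Measurable X := by
    rw [hX]
    simp only [hff]
    have h1 : ∀ j, Measurable fun φ => (h (R2 (φ + θ j)) - mh h) / dz θ j := fun j =>
      ((hh.comp (measurable_R2.comp (measurable_id.add_const _))).sub_const _).div_const _
    exact Complex.measurable_re.comp ((Finset.measurable_sum _ fun j _ => h1 j).const_mul _)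
  have hsub := hasSubgaussianMGF_of_mem_Icc_of_integral_eq_zero (μ := unif) (X := X) (a := -(2 * (A * amp θ)))
    (b := 2 * (A * amp θ)) hXm.aemeasurable
    (Filter.Eventually.of_forall fun φ => ⟨(abs_le.1 (hb φ)).1, (abs_le.1 (hb φ)).2⟩) hmean
  have hmgf := hsub.mgf_le l
  have hcst : (((‖2 * (A * amp θ) - -(2 * (A * amp θ))‖₊ / 2) ^ 2 : NNReal) : ℝ) = 4 * (A * amp θ) ^ 2 := by
    push_cast
    rw [Real.norm_eq_abs, abs_of_nonneg (by linarith)]
    ring
  rw [hcst] at hmgf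
  have hie := hsub.integrable_exp_mul l
  have e1 : ∀ φ, Real.exp (l * X φ - 2 * l ^ 2 * (A * amp θ) ^ 2) =
      Real.exp (-(2 * l ^ 2 * (A * amp θ) ^ 2)) * Real.exp (l * X φ) := by
    intro φ
    rw [← Real.exp_add]
    congr 1
    ring
  have hie2 : Integrable (fun φ => Real.exp (l * X φ - 2 * l ^ 2 * (A * amp θ) ^ 2)) unif := by
    simp only [e1]
    exact hie.const_mul _
  have e2 : ∫⁻ φ, ENNReal.ofReal (Real.exp (l * X φ - 2 * l ^ 2 * (A * amp θ) ^ 2)) ∂unif ≤ 1 := by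
    rw [← ofReal_integral_eq_lintegral_ofReal hie2 (Filter.Eventually.of_forall fun φ => (Real.exp_pos _).le)]
    rw [← ENNReal.ofReal_one]
    apply ENNReal.ofReal_le_ofReal
    simp only [e1]
    rw [integral_const_mul]
    have h3 : ∫ φ, Real.exp (l * X φ) ∂unif = mgf X unif l := rfl
    rw [h3]
    calc Real.exp (-(2 * l ^ 2 * (A * amp θ) ^ 2)) * mgf X unif l
        ≤ Real.exp (-(2 * l ^ 2 * (A * amp θ) ^ 2)) * Real.exp (4 * (A * amp θ) ^ 2 * l ^ 2 / 2) :=
          mul_le_mul_of_nonneg_left hmgf (Real.exp_pos _).le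
      _ = 1 := by
          rw [← Real.exp_add]
          have : -(2 * l ^ 2 * (A * amp θ) ^ 2) + 4 * (A * amp θ) ^ 2 * l ^ 2 / 2 = 0 := by ring
          rw [this, Real.exp_zero]
  exact e2

lemma ae_boxN (N : ℕ) : ∀ᵐ θ ∂(cue N), ∀ j, 0 ≤ θ j ∧ θ j < 2 * Real.pi := by
  have hbm : MeasurableSet (box N) := MeasurableSet.univ_pi fun _ => measurableSet_Ico
  have hb2 : ∀ᵐ θ ∂(volume.restrict (box N)), ∀ j, 0 ≤ θ j ∧ θ j < 2 * Real.pi :=
    (ae_restrict_iff' hbm).2 (Filter.Eventually.of_forall fun θ hθ j => hθ j (Set.mem_univ j))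
  exact (withDensity_absolutelyContinuous _ _).ae_le hb2

lemma meas_rot2 (N : ℕ) : Measurable (fun p : (Fin N → ℝ) × ℝ => rot p.2 p.1) := by
  unfold rot
  refine measurable_pi_lambda _ fun j => measurable_R2.comp ?_
  fun_prop

/-- averaging over rotations -/
lemma lintegral_rot {N : ℕ} (hprob : IsProbabilityMeasure (cue N)) {G : (Fin N → ℝ) → ENNReal} (hG : Measurable G) :
    ∫⁻ θ, G θ ∂(cue N) = ∫⁻ θ, ∫⁻ φ, G (rot φ θ) ∂unif ∂(cue N) := by
  have e1 : ∫⁻ θ, G θ ∂(cue N) = ∫⁻ φ, ∫⁻ θ, G (rot φ θ) ∂(cue N) ∂unif := by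
    have h1 : ∀ᵐ φ ∂unif, ∫⁻ θ, G (rot φ θ) ∂(cue N) = ∫⁻ θ, G θ ∂(cue N) := by
      filter_upwards [ae_unif] with φ hφ
      exact cue_rot N hφ.1 hφ.2 G hG
    rw [lintegral_congr_ae h1, lintegral_const, measure_univ, mul_one]
  rw [e1, lintegral_lintegral_swap]
  have : Measurable (fun p : ℝ × (Fin N → ℝ) => G (rot p.1 p.2)) :=
    hG.comp ((meas_rot2 N).comp measurable_swap)
  exact this.aemeasurable

/-- block A4c with a weight -/
theorem block_mgfW_of {N : ℕ} (hprob : IsProbabilityMeasure (cue N)) (hae : ∀ᵐ θ ∂(cue N), ∀ j, dz θ j ≠ 0)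
    (hlag : ∀ θ : Fin N → ℝ, (∀ j, dz θ j ≠ 0) → ∑ j, 1 / dz θ j = 1) {h : ℝ → ℂ} (hh : Measurable h) {A : ℝ}
    (hA : ∀ x, 0 ≤ x → x < 2 * Real.pi → ‖h x‖ ≤ A) (α l : ℝ) :
    ∫⁻ θ, ENNReal.ofReal (Real.exp (l * (Complex.exp (α * Complex.I) * (fh h θ - mh h)).re -
      2 * l ^ 2 * (A * amp θ) ^ 2)) ∂(cue N) ≤ 1 := by
  have hGm : Measurable (fun θ : Fin N → ℝ => ENNReal.ofReal (Real.exp (l *
      (Complex.exp (α * Complex.I) * (fh h θ - mh h)).re - 2 * l ^ 2 * (A * amp θ) ^ 2))) := by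
    have h1 := meas_fh hh N
    have h2 := meas_ampM N
    exact (Real.measurable_exp.comp (((Complex.measurable_re.comp ((h1.sub_const _).const_mul _)).const_mul _).sub
      (((h2.const_mul _).pow_const _).const_mul _))).ennreal_ofReal
  rw [lintegral_rot hprob hGm]
  calc ∫⁻ θ, ∫⁻ φ, ENNReal.ofReal (Real.exp (l * (Complex.exp (α * Complex.I) * (fh h (rot φ θ) - mh h)).re -
        2 * l ^ 2 * (A * amp (rot φ θ)) ^ 2)) ∂unif ∂(cue N) ≤ ∫⁻ θ, 1 ∂(cue N) := by
        refine lintegral_mono_ae ?_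
        filter_upwards [hae, ae_boxN N] with θ h1 h2
        have h3 := hoeffW θ h2 (hlag θ h1) hh hA α l
        simp only [amp_rot]
        exact h3
    _ = 1 := by rw [lintegral_const, measure_univ, mul_one]

/-- the mean of the weighted amplitude -/
theorem mean_ah_of {N : ℕ} (hprob : IsProbabilityMeasure (cue N)) {h : ℝ → ℂ} (hh : Measurable h) :
    ∫⁻ θ, ENNReal.ofReal (ah h θ) ∂(cue N) = (∫⁻ x, ‖h x‖ₑ ∂unif) * ∫⁻ θ, ENNReal.ofReal (amp θ) ∂(cue N) := by
  rw [lintegral_rot hprob (meas_ah hh N).ennreal_ofReal, ← lintegral_const_mul _ (meas_ampM N).ennreal_ofReal]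
  refine lintegral_congr_ae ?_
  filter_upwards [ae_boxN N] with θ hθ
  have h1 : ∀ φ, ENNReal.ofReal (ah h (rot φ θ)) =
      ∑ j, ‖h (R2 (φ + θ j))‖ₑ * ENNReal.ofReal (1 / ‖dz θ j‖) := by
    intro φ
    unfold ah
    rw [ENNReal.ofReal_sum_of_nonneg fun j _ => by positivity]
    refine Finset.sum_congr rfl fun j _ => ?_
    rw [dz_rot]
    have : rot φ θ j = R2 (φ + θ j) := by
      unfold rot
      rw [add_comm]
    rw [this, div_eq_mul_one_div, ENNReal.ofReal_mul (norm_nonneg _), ofReal_norm]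
  simp only [h1]
  have hmj : ∀ j : Fin N, Measurable fun φ : ℝ => ‖h (R2 (φ + θ j))‖ₑ := fun j =>
    (hh.comp (measurable_R2.comp (measurable_id.add_const (θ j)))).enorm
  rw [lintegral_finsetSum _ fun j _ => (hmj j).mul_const _]
  have h2 : ∀ j, ∫⁻ φ, ‖h (R2 (φ + θ j))‖ₑ * ENNReal.ofReal (1 / ‖dz θ j‖) ∂unif =
      (∫⁻ x, ‖h x‖ₑ ∂unif) * ENNReal.ofReal (1 / ‖dz θ j‖) := by
    intro j
    rw [lintegral_mul_const _ (hmj j)]
    congr 1
    exact (mp_unif (hθ j).1 (hθ j).2).lintegral_comp hh.enorm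
  simp only [h2]
  rw [← Finset.mul_sum]
  congr 1
  unfold amp
  rw [ENNReal.ofReal_sum_of_nonneg fun j _ => by positivity]

end Pool.Agent.Helper66.RMT
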