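import Pool.Agent.Helper96.RMT.Rot

/-!
# Project RMT (MP_a499ba_nt), block B3: fluctuations of the tail
-/

set_option autoImplicit false

namespace Pool.Agent.Helper66.RMT

open MeasureTheory ProbabilityTheory Filter Finset

/-- one term -/
noncomputable def tm {N : ℕ} (θ : Fin N → ℝ) (n : ℕ) (u : ℝ) : ℂ :=
  Complex.exp ((2 * Real.pi * n * u : ℝ) * Complex.I) / n * (ff θ u - mu u)

lemma tm_re {N : ℕ} (θ : Fin N → ℝ) (n : ℕ) (u α l : ℝ) :
    l * (Complex.exp (α * Complex.I) * tm θ n u).re =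
      l / n * (Complex.exp ((α + 2 * Real.pi * n * u : ℝ) * Complex.I) * (ff θ u - mu u)).re := by
  unfold tm
  have h : Complex.exp ((α : ℂ) * Complex.I) *
      (Complex.exp ((2 * Real.pi * n * u : ℝ) * Complex.I) / n * (ff θ u - mu u)) =
      ((1 / n : ℝ) : ℂ) * (Complex.exp ((α + 2 * Real.pi * n * u : ℝ) * Complex.I) * (ff θ u - mu u)) := by
    have h2 : Complex.exp ((α + 2 * Real.pi * n * u : ℝ) * Complex.I) =
        Complex.exp ((α : ℂ) * Complex.I) * Complex.exp ((2 * Real.pi * n * u : ℝ) * Complex.I) := by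
      rw [← Complex.exp_add]
      congr 1
      push_cast
      ring
    rw [h2]
    push_cast
    ring
  rw [h, Complex.re_ofReal_mul]
  ring

lemma sz_pos {n : ℕ} (hn : 4 ≤ n) : 1 ≤ sz n := by
  unfold sz
  apply Nat.le_floor
  have h1 : Real.log 4 ≤ Real.log n := Real.log_le_log (by norm_num) (by exact_mod_cast hn)
  have h2 : Real.log 4 = 2 * Real.log 2 := by
    rw [show (4 : ℝ) = 2 ^ 2 by norm_num, Real.log_pow]
    norm_num
  have h3 := Real.log_two_gt_d9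
  push_cast
  linarith

/-- the statement of A4c -/
def MGF : Prop := ∀ (N : ℕ) (_ : 1 ≤ N) (u : ℝ) (_ : u ≠ 0) (α l : ℝ),
    ∫⁻ θ, ENNReal.ofReal (Real.exp (l * (Complex.exp (α * Complex.I) * (ff θ u - mu u)).re -
      2 * l ^ 2 * amp θ ^ 2)) ∂(cue N) ≤ 1

section assembly

variable {Ω : Type*} [MeasurableSpace Ω] (P : Measure Ω) [IsProbabilityMeasure P]
  (θ : (n : ℕ) → Ω → (Fin (sz n) → ℝ)) (hm : ∀ n, Measurable (θ n)) (hi : iIndepFun θ P)
  (hl : ∀ n, P.map (θ n) = cue (sz n))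

include hm hi hl

lemma point (hmgf : MGF) {k K : ℕ} (hk : 2 ≤ k) (hK : K ≤ 2 ^ (k + 1)) {u : ℝ} (hu : u ≠ 0) (α : ℝ) {t v : ℝ} (ht : 0 < t)
    (hv : 0 < v) :
    P {ω | t ≤ (Complex.exp (α * Complex.I) * ∑ n ∈ Ico (2 ^ k) K, tm (θ n ω) n u).re ∧
      ∑ n ∈ Ico (2 ^ k) (2 ^ (k + 1)), amp (θ n ω) ^ 2 / (n : ℝ) ^ 2 ≤ v} ≤
      ENNReal.ofReal (Real.exp (-(t ^ 2 / (8 * v)))) := by
  have h4 : ∀ n ∈ Ico (2 ^ k) K, 4 ≤ n := by
    intro n hn
    have h1 := (Finset.mem_Ico.1 hn).1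
    have h2 : 2 ^ 2 ≤ 2 ^ k := Nat.pow_le_pow_right (by norm_num) hk
    omega
  obtain ⟨l, hl0⟩ : ∃ l : ℝ, l = t / (4 * v) := ⟨_, rfl⟩
  let H : (n : ℕ) → (Fin (sz n) → ℝ) → ENNReal := fun n ϑ => ENNReal.ofReal (Real.exp (l / n *
    (Complex.exp ((α + 2 * Real.pi * n * u : ℝ) * Complex.I) * (ff ϑ u - mu u)).re - 2 * (l / n) ^ 2 * amp ϑ ^ 2))
  have hH : ∀ n, Measurable (H n) := by
    intro n
    have h1 := meas_ffM (N := sz n) u
    have h2 := meas_ampM (sz n)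
    simp only [H]
    fun_prop
  have hind := hi.comp H hH
  have hprod : ∫⁻ ω, ∏ n ∈ Ico (2 ^ k) K, (H n (θ n ω)) ∂P ≤ 1 := by
    have h1 := lintegral_prod_eq_prod_lintegral_of_indepFun (μ := P) (Ico (2 ^ k) K) (fun n => H n ∘ θ n) hind
      (fun n => (hH n).comp (hm n))
    simp only [Function.comp] at h1
    rw [h1]
    refine Finset.prod_le_one' fun n hn => ?_
    rw [← lintegral_map (hH n) (hm n), hl n]
    exact hmgf (sz n) (sz_pos (h4 n hn)) u hu (α + 2 * Real.pi * n * u) (l / n)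
  have hPhi : Measurable (fun ω => ∏ n ∈ Ico (2 ^ k) K, (H n (θ n ω))) :=
    Finset.measurable_prod _ fun n _ => (hH n).comp (hm n)
  have hsub : {ω | t ≤ (Complex.exp (α * Complex.I) * ∑ n ∈ Ico (2 ^ k) K, tm (θ n ω) n u).re ∧
      ∑ n ∈ Ico (2 ^ k) (2 ^ (k + 1)), amp (θ n ω) ^ 2 / (n : ℝ) ^ 2 ≤ v} ⊆
      {ω | ENNReal.ofReal (Real.exp (t ^ 2 / (8 * v))) ≤ ∏ n ∈ Ico (2 ^ k) K, (H n (θ n ω))} := by
    rintro ω ⟨h1, h2⟩
    change ENNReal.ofReal (Real.exp (t ^ 2 / (8 * v))) ≤ ∏ n ∈ Ico (2 ^ k) K, (H n (θ n ω))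
    simp only [H]
    rw [← ENNReal.ofReal_prod_of_nonneg (fun n _ => (Real.exp_pos _).le), ← Real.exp_sum]
    apply ENNReal.ofReal_le_ofReal
    apply Real.exp_le_exp.2
    rw [Finset.sum_sub_distrib]
    have h3 : ∑ n ∈ Ico (2 ^ k) K, l / n *
        (Complex.exp ((α + 2 * Real.pi * n * u : ℝ) * Complex.I) * (ff (θ n ω) u - mu u)).re =
        l * (Complex.exp (α * Complex.I) * ∑ n ∈ Ico (2 ^ k) K, tm (θ n ω) n u).re := by
      rw [Finset.mul_sum, Complex.re_sum, Finset.mul_sum]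
      exact Finset.sum_congr rfl fun n _ => (tm_re _ _ _ _ _).symm
    have h5 : ∑ n ∈ Ico (2 ^ k) K, 2 * (l / n) ^ 2 * amp (θ n ω) ^ 2 ≤ 2 * l ^ 2 * v := by
      calc ∑ n ∈ Ico (2 ^ k) K, 2 * (l / n) ^ 2 * amp (θ n ω) ^ 2
          = 2 * l ^ 2 * ∑ n ∈ Ico (2 ^ k) K, amp (θ n ω) ^ 2 / (n : ℝ) ^ 2 := by
            rw [Finset.mul_sum]
            exact Finset.sum_congr rfl fun n _ => by rw [div_pow]; ring
        _ ≤ 2 * l ^ 2 * ∑ n ∈ Ico (2 ^ k) (2 ^ (k + 1)), amp (θ n ω) ^ 2 / (n : ℝ) ^ 2 := by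
            refine mul_le_mul_of_nonneg_left ?_ (by positivity)
            exact Finset.sum_le_sum_of_subset_of_nonneg (Finset.Ico_subset_Ico_right hK) fun n _ _ => by positivity
        _ ≤ 2 * l ^ 2 * v := mul_le_mul_of_nonneg_left h2 (by positivity)
    rw [h3]
    have hl1 : 0 < l := by rw [hl0]; positivity
    have h6 : l * t ≤ l * (Complex.exp (α * Complex.I) * ∑ n ∈ Ico (2 ^ k) K, tm (θ n ω) n u).re :=
      mul_le_mul_of_nonneg_left h1 hl1.le
    have h7 : t ^ 2 / (8 * v) = l * t - 2 * l ^ 2 * v := by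
      rw [hl0]
      field_simp
      ring
    linarith
  refine (measure_mono hsub).trans ?_
  have h8 := mul_meas_ge_le_lintegral (μ := P) hPhi (ENNReal.ofReal (Real.exp (t ^ 2 / (8 * v))))
  have h9 := h8.trans hprod
  have hne : ENNReal.ofReal (Real.exp (t ^ 2 / (8 * v))) ≠ 0 := by
    rw [Ne, ENNReal.ofReal_eq_zero, not_le]
    exact Real.exp_pos _
  rw [Real.exp_neg, ENNReal.ofReal_inv_of_pos (Real.exp_pos _)]
  rw [ENNReal.le_inv_iff_mul_le, mul_comm]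
  exact h9

lemma point_norm (hmgf : MGF) {k K : ℕ} (hk : 2 ≤ k) (hK : K ≤ 2 ^ (k + 1)) {u : ℝ} (hu : u ≠ 0) {t v : ℝ} (ht : 0 < t)
    (hv : 0 < v) :
    P {ω | 2 * t < ‖∑ n ∈ Ico (2 ^ k) K, tm (θ n ω) n u‖ ∧
      ∑ n ∈ Ico (2 ^ k) (2 ^ (k + 1)), amp (θ n ω) ^ 2 / (n : ℝ) ^ 2 ≤ v} ≤
      4 * ENNReal.ofReal (Real.exp (-(t ^ 2 / (8 * v)))) := by
  let E : ℝ → Set Ω := fun α => {ω | t ≤ (Complex.exp (α * Complex.I) * ∑ n ∈ Ico (2 ^ k) K, tm (θ n ω) n u).re ∧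
      ∑ n ∈ Ico (2 ^ k) (2 ^ (k + 1)), amp (θ n ω) ^ 2 / (n : ℝ) ^ 2 ≤ v}
  have hE : ∀ α, P (E α) ≤ ENNReal.ofReal (Real.exp (-(t ^ 2 / (8 * v)))) := fun α =>
    point P θ hm hi hl hmgf hk hK hu α ht hv
  have hsub : {ω | 2 * t < ‖∑ n ∈ Ico (2 ^ k) K, tm (θ n ω) n u‖ ∧
      ∑ n ∈ Ico (2 ^ k) (2 ^ (k + 1)), amp (θ n ω) ^ 2 / (n : ℝ) ^ 2 ≤ v} ⊆
      (E 0 ∪ E Real.pi) ∪ (E (Real.pi / 2) ∪ E (-(Real.pi / 2))) := by
    rintro ω ⟨h1, h2⟩
    obtain ⟨z, hz⟩ : ∃ z : ℂ, z = ∑ n ∈ Ico (2 ^ k) K, tm (θ n ω) n u := ⟨_, rfl⟩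
    rw [← hz] at h1
    have h3 := Complex.norm_le_abs_re_add_abs_im z
    have e0 : (Complex.exp ((0 : ℝ) * Complex.I) * z).re = z.re := by simp
    have e1 : (Complex.exp ((Real.pi : ℝ) * Complex.I) * z).re = -z.re := by
      rw [Complex.exp_pi_mul_I]
      simp
    have e2 : (Complex.exp (((Real.pi / 2 : ℝ) : ℂ) * Complex.I) * z).re = -z.im := by
      have : Complex.exp (((Real.pi / 2 : ℝ) : ℂ) * Complex.I) = Complex.I := by
        rw [Complex.exp_mul_I, ← Complex.ofReal_cos, ← Complex.ofReal_sin, Real.cos_pi_div_two, Real.sin_pi_div_two]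
        simp
      rw [this]
      simp
    have e3 : (Complex.exp (((-(Real.pi / 2) : ℝ) : ℂ) * Complex.I) * z).re = z.im := by
      have : Complex.exp (((-(Real.pi / 2) : ℝ) : ℂ) * Complex.I) = -Complex.I := by
        rw [Complex.exp_mul_I, ← Complex.ofReal_cos, ← Complex.ofReal_sin, Real.cos_neg, Real.sin_neg,
          Real.cos_pi_div_two, Real.sin_pi_div_two]
        simp
      rw [this]
      simp
    have h4 : t < |z.re| ∨ t < |z.im| := by
      by_contra hcon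
      push Not at hcon
      linarith [hcon.1, hcon.2]
    rcases h4 with h4 | h4
    · left
      rcases lt_abs.1 h4 with h5 | h5
      · left
        refine ⟨?_, h2⟩
        rw [← hz, e0]
        exact h5.le
      · right
        refine ⟨?_, h2⟩
        rw [← hz, e1]
        exact h5.le
    · right
      rcases lt_abs.1 h4 with h5 | h5
      · right
        refine ⟨?_, h2⟩
        rw [← hz, e3]
        exact h5.le
      · left
        refine ⟨?_, h2⟩
        rw [← hz, e2]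
        exact h5.le
  refine (measure_mono hsub).trans ?_
  refine (measure_union_le _ _).trans ?_
  refine (add_le_add (measure_union_le _ _) (measure_union_le _ _)).trans ?_
  refine (add_le_add (add_le_add (hE _) (hE _)) (add_le_add (hE _) (hE _))).trans (le_of_eq ?_)
  ring

end assembly

/-! ### Deterministic continuity -/

lemma norm_exp_sub_le (a b : ℝ) : ‖Complex.exp ((a : ℝ) * Complex.I) - Complex.exp ((b : ℝ) * Complex.I)‖ ≤ |a - b| := by
  have h1 : Complex.exp ((a : ℂ) * Complex.I) - Complex.exp ((b : ℂ) * Complex.I) =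
      Complex.exp ((b : ℂ) * Complex.I) * (Complex.exp (Complex.I * ((a - b : ℝ) : ℂ)) - 1) := by
    rw [mul_sub, ← Complex.exp_add, mul_one]
    congr 2
    push_cast
    ring
  rw [h1, norm_mul, Complex.norm_exp_ofReal_mul_I, one_mul]
  exact Real.norm_exp_I_mul_ofReal_sub_one_le

lemma mu_lip {u u' : ℝ} (hu : u ≠ 0) (hu' : u' ≠ 0) : ‖mu u - mu u'‖ ≤ 2 * Real.pi * |u - u'| := by
  have hint : ∀ w : ℝ, Integrable (fun x : ℝ => Complex.exp ((w * x : ℝ) * Complex.I)) unif := by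
    intro w
    refine Integrable.of_bound (C := 1) ?_ (Filter.Eventually.of_forall fun x => ?_)
    · have : Measurable (fun x : ℝ => Complex.exp ((w * x : ℝ) * Complex.I)) := by fun_prop
      exact this.aestronglyMeasurable
    · rw [Complex.norm_exp_ofReal_mul_I]
  rw [← mean_exp hu, ← mean_exp hu', ← integral_sub (hint u) (hint u')]
  have hae : ∀ᵐ x ∂unif, ‖Complex.exp ((u * x : ℝ) * Complex.I) - Complex.exp ((u' * x : ℝ) * Complex.I)‖ ≤
      2 * Real.pi * |u - u'| := by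
    have h2 : ∀ᵐ φ ∂unif, φ ∈ Set.Ico 0 (2 * Real.pi) := by
      unfold unif
      exact Measure.ae_smul_measure (ae_restrict_mem measurableSet_Ico) _
    filter_upwards [h2] with x hx
    refine (norm_exp_sub_le _ _).trans ?_
    rw [← sub_mul, abs_mul, abs_of_nonneg hx.1, mul_comm]
    exact mul_le_mul_of_nonneg_right hx.2.le (abs_nonneg _)
  refine (norm_integral_le_of_norm_le_const hae).trans (le_of_eq ?_)
  simp

lemma norm_ff_le {N : ℕ} (θ : Fin N → ℝ) (u : ℝ) : ‖ff θ u‖ ≤ amp θ := by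
  unfold ff amp
  refine (norm_sum_le _ _).trans (Finset.sum_le_sum fun j _ => ?_)
  rw [norm_div, Complex.norm_exp_ofReal_mul_I]

lemma ff_lip {N : ℕ} (θ : Fin N → ℝ) (hθ : ∀ j, 0 ≤ θ j ∧ θ j < 2 * Real.pi) (u u' : ℝ) :
    ‖ff θ u - ff θ u'‖ ≤ 2 * Real.pi * |u - u'| * amp θ := by
  unfold ff amp
  rw [← Finset.sum_sub_distrib, Finset.mul_sum]
  refine (norm_sum_le _ _).trans (Finset.sum_le_sum fun j _ => ?_)
  rw [← sub_div, norm_div, mul_one_div]
  apply div_le_div_of_nonneg_right _ (norm_nonneg _)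
  refine (norm_exp_sub_le _ _).trans ?_
  rw [← sub_mul, abs_mul, abs_of_nonneg (hθ j).1, mul_comm]
  exact mul_le_mul_of_nonneg_right (hθ j).2.le (abs_nonneg _)

lemma tm_lip {N : ℕ} (θ : Fin N → ℝ) (hθ : ∀ j, 0 ≤ θ j ∧ θ j < 2 * Real.pi) {n : ℕ} (hn : 1 ≤ n) {u u' : ℝ}
    (hu : u ≠ 0) (hu' : u' ≠ 0) :
    ‖tm θ n u - tm θ n u'‖ ≤ 4 * Real.pi * |u - u'| * (amp θ + 1) := by
  have hn0 : (1 : ℝ) ≤ n := by exact_mod_cast hn
  have hA0 : 0 ≤ amp θ := Finset.sum_nonneg fun j _ => by positivity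
  have hsplit : tm θ n u - tm θ n u' =
      (Complex.exp ((2 * Real.pi * n * u : ℝ) * Complex.I) - Complex.exp ((2 * Real.pi * n * u' : ℝ) * Complex.I)) / n *
        (ff θ u - mu u) +
      Complex.exp ((2 * Real.pi * n * u' : ℝ) * Complex.I) / n * ((ff θ u - ff θ u') - (mu u - mu u')) := by
    unfold tm
    ring
  rw [hsplit]
  have hnn : ‖(n : ℂ)‖ = n := by simp
  have h1 : ‖(Complex.exp ((2 * Real.pi * n * u : ℝ) * Complex.I) -
      Complex.exp ((2 * Real.pi * n * u' : ℝ) * Complex.I)) / n * (ff θ u - mu u)‖ ≤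
      2 * Real.pi * |u - u'| * (amp θ + 1) := by
    rw [norm_mul, norm_div, hnn]
    apply mul_le_mul _ _ (norm_nonneg _) (by positivity)
    · rw [div_le_iff₀ (by linarith)]
      refine (norm_exp_sub_le _ _).trans (le_of_eq ?_)
      rw [← mul_sub, abs_mul, abs_of_nonneg (by positivity)]
      ring
    · refine (norm_sub_le _ _).trans ?_
      linarith [norm_ff_le θ u, norm_mu_le hu]
  have h2 : ‖Complex.exp ((2 * Real.pi * n * u' : ℝ) * Complex.I) / n * ((ff θ u - ff θ u') - (mu u - mu u'))‖ ≤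
      2 * Real.pi * |u - u'| * (amp θ + 1) := by
    rw [norm_mul, norm_div, hnn, Complex.norm_exp_ofReal_mul_I]
    have h3 : ‖(ff θ u - ff θ u') - (mu u - mu u')‖ ≤ 2 * Real.pi * |u - u'| * (amp θ + 1) := by
      refine (norm_sub_le _ _).trans ?_
      have h4 := ff_lip θ hθ u u'
      have h5 := mu_lip hu hu'
      linarith
    have h6 : 1 / (n : ℝ) ≤ 1 := by
      rw [div_le_one (by linarith)]
      exact hn0
    calc 1 / (n : ℝ) * ‖(ff θ u - ff θ u') - (mu u - mu u')‖ ≤ 1 * (2 * Real.pi * |u - u'| * (amp θ + 1)) :=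
          mul_le_mul h6 h3 (norm_nonneg _) zero_le_one
      _ = _ := one_mul _
  refine (norm_add_le _ _).trans ?_
  linarith

end Pool.Agent.Helper66.RMT
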